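import Pool.Agent.K7.H47.BE.Path
import Pool.Agent.TH723.AF.Op

/-!
# The algebras of the stages of a Bratteli diagram
-/

set_option autoImplicit false

open scoped InnerProductSpace

namespace Pool.Agent.K7.H47.BE

open Pool.Agent.TH723.AF (op op_ext vec_ext inner_b norm_b op_apply op_of_some op_of_none inner_op
  inner_op_left op_mul star_op inner_op_symm)

/-! ### partial bijections -/

section pequiv

variable {V : Type} (D : BD V)

open Classical in
/-- replace the head `a` by the head `b` -/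
noncomputable def Epf (k : ℕ) (a b w : ℕ) : Option ℕ :=
  if Hd D k w a ∧ D.vt k b = D.vt k w then some (mk D k b (D.rm k w)) else none

variable {D}

lemma mem_Epf {k a b w u : ℕ} : u ∈ Epf D k a b w ↔ Hd D k w a ∧ Hd D k u b ∧ Tl D k u w := by
  unfold Epf
  split_ifs with h
  · simp only [Option.mem_def, Option.some.injEq]
    constructor
    · rintro rfl
      exact ⟨h.1, mk_hd _ _ _, splice_tl h.2⟩
    · rintro ⟨-, h2, h3⟩
      exact mk_unique h2 h3.2
  · simp only [Option.mem_def, reduceCtorEq, false_iff]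
    rintro ⟨h1, h2, h3⟩
    exact h ⟨h1, h2.at_eq.symm.trans h3.1⟩

variable (D)

/-- replace the head `a` by the head `b` -/
noncomputable def Ep (k : ℕ) (a b : ℕ) : ℕ ≃. ℕ where
  toFun := Epf D k a b
  invFun := Epf D k b a
  inv := by
    intro w u
    change w ∈ Epf D k b a u ↔ u ∈ Epf D k a b w
    rw [mem_Epf, mem_Epf]
    constructor
    · rintro ⟨h1, h2, h3⟩
      exact ⟨h2, h1, h3.symm⟩
    · rintro ⟨h1, h2, h3⟩
      exact ⟨h2, h1, h3.symm⟩

variable {D}

lemma mem_Ep {k a b w u : ℕ} : u ∈ Ep D k a b w ↔ Hd D k w a ∧ Hd D k u b ∧ Tl D k u w := mem_Epf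

lemma Ep_symm (k a b : ℕ) : (Ep D k a b).symm = Ep D k b a := rfl

variable (D)

open Classical in
/-- replace the remainder `r` at the vertex `v` by the remainder `s` -/
noncomputable def Dpf (k : ℕ) (v : V) (r s : ℕ) (w : ℕ) : Option ℕ :=
  if D.vt k w = v ∧ D.rm k w = r then some (mk D k w s) else none

variable {D}

lemma mem_Dpf {k : ℕ} {v : V} {r s w u : ℕ} : u ∈ Dpf D k v r s w ↔
    (D.vt k w = v ∧ D.rm k w = r) ∧ Hd D k u w ∧ D.rm k u = s := by
  unfold Dpf
  split_ifs with h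
  · simp only [Option.mem_def, Option.some.injEq]
    constructor
    · rintro rfl
      exact ⟨h, mk_hd _ _ _, mk_rm _ _ _⟩
    · rintro ⟨-, h2, h3⟩
      exact mk_unique h2 h3
  · simp only [Option.mem_def, reduceCtorEq, false_iff]
    rintro ⟨h1, h2, h3⟩
    exact h h1

variable (D)

/-- replace the remainder `r` at the vertex `v` by the remainder `s` -/
noncomputable def Dp (k : ℕ) (v : V) (r s : ℕ) : ℕ ≃. ℕ where
  toFun := Dpf D k v r s
  invFun := Dpf D k v s r
  inv := by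
    intro w u
    change w ∈ Dpf D k v s r u ↔ u ∈ Dpf D k v r s w
    rw [mem_Dpf, mem_Dpf]
    constructor
    · rintro ⟨⟨h1, h2⟩, h3, h4⟩
      exact ⟨⟨h3.at_eq.trans h1, h4⟩, h3.symm, h2⟩
    · rintro ⟨⟨h1, h2⟩, h3, h4⟩
      exact ⟨⟨h3.at_eq.trans h1, h4⟩, h3.symm, h2⟩

variable {D}

lemma mem_Dp {k : ℕ} {v : V} {r s w u : ℕ} : u ∈ Dp D k v r s w ↔
    (D.vt k w = v ∧ D.rm k w = r) ∧ Hd D k u w ∧ D.rm k u = s := mem_Dpf

lemma Dp_symm (k : ℕ) (v : V) (r s : ℕ) : (Dp D k v r s).symm = Dp D k v s r := rfl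

lemma pequiv_ext {f g : ℕ ≃. ℕ} (h : ∀ w u, u ∈ f w ↔ u ∈ g w) : f = g := by
  apply PEquiv.ext
  intro w
  apply Option.ext
  intro u
  exact h w u

lemma Ep_Dp {k j : ℕ} (hkj : k ≤ j) (a b : ℕ) (v : V) (r s : ℕ) :
    (Ep D k a b).trans (Dp D j v r s) = (Dp D j v r s).trans (Ep D k a b) := by
  apply pequiv_ext
  intro w u
  rw [PEquiv.mem_trans, PEquiv.mem_trans]
  constructor
  · rintro ⟨m, h1, h2⟩
    rw [mem_Ep] at h1
    rw [mem_Dp] at h2
    obtain ⟨a1, a2, a3⟩ := h1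
    obtain ⟨⟨b1, b2⟩, b3, b4⟩ := h2
    have a4 := a3.mono hkj
    have hm := mk_hd (D := D) j w s
    refine ⟨mk D j w s, ?_, ?_⟩
    · rw [mem_Dp]
      exact ⟨⟨a4.1.symm.trans b1, a4.2.symm.trans b2⟩, hm, mk_rm _ _ _⟩
    · rw [mem_Ep]
      refine ⟨(hm.mono hkj).trans a1, (b3.mono hkj).trans a2, ?_⟩
      have hvj : D.vt j u = D.vt j (mk D j w s) := by
        rw [b3.at_eq, a4.1, mk_vt]
      have htj : Tl D j u (mk D j w s) := ⟨hvj, by rw [b4, mk_rm]⟩
      rw [tl_iff] at a3 htj ⊢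
      refine ⟨?_, ?_⟩
      · rw [(b3.mono hkj).at_eq, a3.1, (hm.mono hkj).at_eq]
      · intro n hn
        rcases lt_or_ge n j with hj | hj
        · rw [b3 n hj, a3.2 n hn, hm n hj]
        · exact htj.2 n hj
  · rintro ⟨m, h1, h2⟩
    rw [mem_Dp] at h1
    rw [mem_Ep] at h2
    obtain ⟨⟨a1, a2⟩, a3, a4⟩ := h1
    obtain ⟨b1, b2, b3⟩ := h2
    have h0 : D.vt k b = D.vt k w := by
      rw [← b2.at_eq, b3.1, (a3.mono hkj).at_eq]
    have hs := splice_tl h0
    have hh := mk_hd (D := D) k b (D.rm k w)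
    have hsj := hs.mono hkj
    refine ⟨mk D k b (D.rm k w), ?_, ?_⟩
    · rw [mem_Ep]
      exact ⟨(a3.mono hkj).symm.trans b1, hh, hs⟩
    · rw [mem_Dp]
      refine ⟨⟨hsj.1.trans a1, hsj.2.trans a2⟩, ?_, ?_⟩
      · intro n hn
        rcases lt_or_ge n k with hj | hj
        · rw [b2 n hj, hh n hj]
        · rw [(tl_iff.1 b3).2 n hj, a3 n hn, (tl_iff.1 hs).2 n hj]
      · rw [(b3.mono hkj).2, a4]

end pequiv

/-! ### the operators -/

universe v

variable {V : Type} (D : BD V) {H : Type v} [NormedAddCommGroup H] [InnerProductSpace ℂ H]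
  [CompleteSpace H] (b : HilbertBasis ℕ ℂ H)

/-- the matrix units -/
noncomputable def mu (k a c : ℕ) : H →L[ℂ] H := op b (Ep D k a c)

/-- the algebra of stage `k` -/
noncomputable def F (k : ℕ) : StarSubalgebra ℂ (H →L[ℂ] H) where
  carrier := {T | ∀ j v r s, k ≤ j → T * op b (Dp D j v r s) = op b (Dp D j v r s) * T}
  mul_mem' := by
    rintro T T' h1 h1' j x r s hj
    rw [mul_assoc, h1' j x r s hj, ← mul_assoc, h1 j x r s hj, mul_assoc]
  add_mem' := by
    rintro T T' h1 h1' j x r s hj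
    rw [add_mul, mul_add, h1 j x r s hj, h1' j x r s hj]
  algebraMap_mem' := by
    intro c j x r s hj
    rw [Algebra.commutes]
  star_mem' := by
    rintro T h1 j x r s hj
    have := congrArg star (h1 j x s r hj)
    rw [star_mul, star_mul, star_op, Dp_symm] at this
    exact this.symm

variable {D} {b}

lemma mem_F {k : ℕ} {T : H →L[ℂ] H} : T ∈ F D b k ↔
    ∀ j v r s, k ≤ j → T * op b (Dp D j v r s) = op b (Dp D j v r s) * T := Iff.rfl

lemma F_mono {k j : ℕ} (hkj : k ≤ j) : F D b k ≤ F D b j := by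
  intro T h1 i x r s hi
  exact h1 i x r s (hkj.trans hi)

lemma F_closed (k : ℕ) : IsClosed (F D b k : Set (H →L[ℂ] H)) := by
  have h : (F D b k : Set (H →L[ℂ] H)) =
      ⋂ j, ⋂ x, ⋂ r, ⋂ s, ⋂ (_ : k ≤ j),
        {T : H →L[ℂ] H | T * op b (Dp D j x r s) = op b (Dp D j x r s) * T} := by
    ext T
    simp only [SetLike.mem_coe, mem_F, Set.mem_iInter, Set.mem_setOf_eq]
  rw [h]
  refine isClosed_iInter fun j => isClosed_iInter fun x => isClosed_iInter fun y =>
      isClosed_iInter fun _ => isClosed_iInter fun _ => ?_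
  exact isClosed_eq (continuous_id.mul continuous_const) (continuous_const.mul continuous_id)

lemma mu_mem (k a c : ℕ) : mu D b k a c ∈ F D b k := by
  intro j x r s hj
  unfold mu
  rw [op_mul, op_mul, Ep_Dp hj]

lemma mu_apply {k a c w u : ℕ} (h1 : Hd D k w a) (h2 : Hd D k u c) (h3 : Tl D k u w) :
    mu D b k a c (b w) = b u := op_of_some b (mem_Ep.2 ⟨h1, h2, h3⟩)

lemma mu_apply_zero {k a c w : ℕ} (h : ¬ (Hd D k w a ∧ D.vt k c = D.vt k w)) :
    mu D b k a c (b w) = 0 := by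
  apply op_of_none b
  rcases h' : Ep D k a c w with _ | u
  · rfl
  · exfalso
    obtain ⟨h1, h2, h3⟩ := mem_Ep.1 h'
    exact h ⟨h1, h2.at_eq.symm.trans h3.1⟩

lemma mu_apply' {k a c w : ℕ} (h1 : Hd D k w a) (h2 : D.vt k c = D.vt k w) :
    mu D b k a c (b w) = b (mk D k c (D.rm k w)) :=
  mu_apply h1 (mk_hd _ _ _) (splice_tl h2)

lemma star_mu (k a c : ℕ) : star (mu D b k a c) = mu D b k c a := star_op b _

/-! ### matrix coefficients -/

lemma Dp_some {k : ℕ} {v : V} {r s w u : ℕ} (h1 : D.vt k w = v) (h2 : D.rm k w = r)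
    (h3 : Hd D k u w) (h4 : D.rm k u = s) : Dp D k v r s w = some u :=
  mem_Dp.2 ⟨⟨h1, h2⟩, h3, h4⟩

lemma Dp_none {k : ℕ} {v : V} {r s w : ℕ} (h1 : ¬ (D.vt k w = v ∧ D.rm k w = r)) :
    Dp D k v r s w = none := by
  rcases h : Dp D k v r s w with _ | u
  · rfl
  · exact absurd (mem_Dp.1 h).1 h1

lemma mc {k : ℕ} {T : H →L[ℂ] H} (hT : T ∈ F D b k) {w' w : ℕ} (h : Tl D k w' w) :
    ⟪b w', T (b w)⟫_ℂ = ⟪b (tr D k w'), T (b (tr D k w))⟫_ℂ := by
  have h1 : op b (Dp D k (D.vt k w) 0 (D.rm k w)) (b (tr D k w)) = b w :=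
    op_of_some b (Dp_some (tr_vt k w) (tr_rm k w) (hd_tr k w).symm rfl)
  have h2 := congrArg (fun Q : H →L[ℂ] H => Q (b (tr D k w)))
    (hT k (D.vt k w) 0 (D.rm k w) le_rfl)
  simp only [mul_apply_eq_comp, h1] at h2
  rw [h2, inner_op_symm, Dp_symm]
  rw [op_of_some b (Dp_some h.1 h.2 (hd_tr k w') (tr_rm k w'))]

lemma mc_zero {k : ℕ} {T : H →L[ℂ] H} (hT : T ∈ F D b k) {w' w : ℕ}
    (h : ¬ Tl D k w' w) : ⟪b w', T (b w)⟫_ℂ = 0 := by
  have h1 : op b (Dp D k (D.vt k w) 0 (D.rm k w)) (b (tr D k w)) = b w :=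
    op_of_some b (Dp_some (tr_vt k w) (tr_rm k w) (hd_tr k w).symm rfl)
  have h2 := congrArg (fun Q : H →L[ℂ] H => Q (b (tr D k w)))
    (hT k (D.vt k w) 0 (D.rm k w) le_rfl)
  simp only [mul_apply_eq_comp, h1] at h2
  rw [h2, inner_op_symm, Dp_symm, op_of_none b (Dp_none h), inner_zero_left]

/-- elements of `F k` are determined by their coefficients on the truncated paths -/
lemma F_ext {k : ℕ} {T T' : H →L[ℂ] H} (hT : T ∈ F D b k) (hT' : T' ∈ F D b k)
    (h : ∀ w ∈ Gf D k, ∀ w' ∈ Gf D k, ⟪b w', T (b w)⟫_ℂ = ⟪b w', T' (b w)⟫_ℂ) : T = T' := by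
  apply op_ext b
  intro w
  apply vec_ext b
  intro w'
  by_cases h1 : Tl D k w' w
  · rw [mc hT h1, mc hT' h1]
    exact h _ (tr_mem k w) _ (tr_mem k w')
  · rw [mc_zero hT h1, mc_zero hT' h1]

lemma F_finite (k : ℕ) : FiniteDimensional ℂ (F D b k) := by
  let φ : F D b k →ₗ[ℂ] (Gf D k × Gf D k → ℂ) :=
    { toFun := fun T q => ⟪b q.2.1, T.1 (b q.1.1)⟫_ℂ
      map_add' := by
        intro T T'
        funext q
        change ⟪b q.2.1, (T.1 + T'.1) (b q.1.1)⟫_ℂ = _
        rw [add_apply, inner_add_right]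
        rfl
      map_smul' := by
        intro c T
        funext q
        change ⟪b q.2.1, (c • T.1) (b q.1.1)⟫_ℂ = _
        rw [smul_apply, inner_smul_right]
        rfl }
  apply FiniteDimensional.of_injective φ
  intro T T' h
  apply Subtype.ext
  exact F_ext T.2 T'.2 fun w hw w' hw' => congrFun h (⟨w, hw⟩, ⟨w', hw'⟩)

lemma eq_of_hd_Gf {k a c : ℕ} (ha : a ∈ Gf D k) (hc : c ∈ Gf D k) (h : Hd D k a c) : a = c :=
  eq_of_hd_tl h ⟨h.at_eq, by rw [mem_Gf.1 ha, mem_Gf.1 hc]⟩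

open Classical in
lemma inner_mu {k a c : ℕ} (ha : a ∈ Gf D k) (hc : c ∈ Gf D k) (hac : D.vt k a = D.vt k c)
    {w u : ℕ} (hw : w ∈ Gf D k) (hu : u ∈ Gf D k) :
    ⟪b u, mu D b k a c (b w)⟫_ℂ = if w = a ∧ u = c then 1 else 0 := by
  by_cases h : w = a
  · subst h
    rw [mu_apply' (Hd.refl _ _) hac.symm, inner_b, mem_Gf.1 ha]
    have h1 : mk D k c 0 = c := mk_unique (Hd.refl _ _) (mem_Gf.1 hc)
    rw [h1]
    by_cases h2 : u = c <;> simp [h2]
  · rw [mu_apply_zero, inner_zero_right, if_neg]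
    · exact fun h' => h h'.1
    · exact fun h' => h (eq_of_hd_Gf hw ha h'.1)

open Classical in
/-- the elements of `F k` are combinations of the matrix units -/
lemma F_sum {k : ℕ} {T : H →L[ℂ] H} (hT : T ∈ F D b k) :
    T = ∑ a ∈ Gf D k, ∑ c ∈ (Gf D k).filter (fun c => D.vt k c = D.vt k a),
      ⟪b c, T (b a)⟫_ℂ • mu D b k a c := by
  apply F_ext hT
  · exact sum_mem fun a _ => sum_mem fun c _ => SMulMemClass.smul_mem _ (mu_mem k a c)
  · intro w hw u hu
    simp only [sum_apply, inner_sum, smul_apply, inner_smul_right]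
    by_cases hv : D.vt k u = D.vt k w
    · rw [Finset.sum_eq_single w, Finset.sum_eq_single u]
      · rw [inner_mu hw hu hv.symm hw hu, if_pos ⟨rfl, rfl⟩, mul_one]
      · intro c hc hcu
        rw [Finset.mem_filter] at hc
        rw [inner_mu hw hc.1 hc.2.symm hw hu, if_neg, mul_zero]
        exact fun h => hcu h.2.symm
      · intro h
        exact absurd (Finset.mem_filter.2 ⟨hu, hv⟩) h
      · intro a ha haw
        refine Finset.sum_eq_zero fun c hc => ?_
        rw [Finset.mem_filter] at hc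
        rw [inner_mu ha hc.1 hc.2.symm hw hu, if_neg, mul_zero]
        exact fun h => haw h.1.symm
      · intro h
        exact absurd hw h
    · rw [mc_zero hT (fun h => hv h.1)]
      symm
      refine Finset.sum_eq_zero fun a ha => Finset.sum_eq_zero fun c hc => ?_
      rw [Finset.mem_filter] at hc
      rw [inner_mu ha hc.1 hc.2.symm hw hu, if_neg, mul_zero]
      rintro ⟨rfl, rfl⟩
      exact hv hc.2

/-! ### the relations of the matrix units -/

lemma mu_mul {k a c d : ℕ} (hcd : D.vt k c = D.vt k d) (hac : D.vt k a = D.vt k c) :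
    mu D b k c d * mu D b k a c = mu D b k a d := by
  apply op_ext b
  intro w
  rw [mul_apply_eq_comp]
  by_cases h : Hd D k w a
  · have h1 := h.at_eq
    rw [mu_apply' h (hac.symm.trans h1.symm), mu_apply' h (hcd.symm.trans (hac.symm.trans h1.symm)),
      mu_apply' (mk_hd _ _ _) (by rw [mk_vt, hcd]), mk_rm]
  · rw [mu_apply_zero (fun h' => h h'.1), mu_apply_zero (fun h' => h h'.1), map_zero]

lemma mu_mul_zero {k a c c' d : ℕ} (h : ¬ Hd D k c c') :
    mu D b k c' d * mu D b k a c = 0 := by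
  apply op_ext b
  intro w
  rw [mul_apply_eq_comp, zero_apply]
  by_cases h1 : Hd D k w a ∧ D.vt k c = D.vt k w
  · rw [mu_apply' h1.1 h1.2, mu_apply_zero]
    exact fun h' => h ((mk_hd _ _ _).symm.trans h'.1)
  · rw [mu_apply_zero h1, map_zero]

lemma hd_mk_iff {k a i w : ℕ} (hi : i < D.deg k (D.vt k a)) :
    Hd D (k + 1) w (mk D k a i) ↔ Hd D k w a ∧ D.cc k w = i := by
  constructor
  · intro h1
    refine ⟨(h1.mono (Nat.le_succ k)).trans (mk_hd _ _ _), ?_⟩
    rw [h1 k (Nat.lt_succ_self k), mk_cc hi]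
  · rintro ⟨h1, h2⟩ n hn
    rcases Nat.lt_succ_iff_lt_or_eq.1 hn with h4 | h4
    · rw [h1 n h4, mk_hd k a i n h4]
    · subst h4
      rw [h2, mk_cc hi]

/-- the matrix units of stage `k` are sums of matrix units of stage `k + 1` -/
lemma mu_succ {k a c : ℕ} (hac : D.vt k a = D.vt k c) :
    mu D b k a c = ∑ i ∈ Finset.range (D.deg k (D.vt k a)),
      mu D b (k + 1) (mk D k a i) (mk D k c i) := by
  apply op_ext b
  intro w
  rw [sum_apply]
  by_cases h : Hd D k w a
  · have h1 := h.at_eq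
    have hlt : D.cc k w < D.deg k (D.vt k a) := by
      rw [← h1]
      exact cc_lt k w
    have hlt' : D.cc k w < D.deg k (D.vt k c) := by
      rw [← hac]
      exact hlt
    rw [Finset.sum_eq_single (D.cc k w)]
    · have h2 : Hd D (k + 1) w (mk D k a (D.cc k w)) := (hd_mk_iff hlt).2 ⟨h, rfl⟩
      rw [mu_apply' h (hac.symm.trans h1.symm)]
      have h4 : D.vt k (mk D k c (D.rm k w)) = D.vt k w := by rw [mk_vt, ← hac, h1]
      have h5 : D.cc k (mk D k c (D.rm k w)) = D.cc k w := by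
        unfold BD.cc
        rw [mk_rm, h4]
      symm
      apply mu_apply h2
      · rw [hd_mk_iff hlt']
        exact ⟨mk_hd _ _ _, h5⟩
      · exact Tl.succ ⟨h4, mk_rm _ _ _⟩
    · intro i hi hne
      rw [Finset.mem_range] at hi
      apply mu_apply_zero
      intro h'
      exact hne ((hd_mk_iff hi).1 h'.1).2.symm
    · intro h'
      rw [Finset.mem_range] at h'
      exact absurd hlt h'
  · rw [mu_apply_zero (fun h' => h h'.1), Finset.sum_eq_zero]
    intro i hi
    rw [Finset.mem_range] at hi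
    apply mu_apply_zero
    intro h'
    exact h ((hd_mk_iff hi).1 h'.1).1

/-- the unit -/
lemma mu_one (k : ℕ) : (1 : H →L[ℂ] H) = ∑ a ∈ Gf D k, mu D b k a a := by
  apply op_ext b
  intro w
  rw [sum_apply, Finset.sum_eq_single (tr D k w)]
  · rw [mu_apply (hd_tr k w).symm (hd_tr k w).symm (Tl.refl _ _)]
    rfl
  · intro a ha hne
    apply mu_apply_zero
    intro h'
    exact hne (eq_of_hd_Gf ha (tr_mem k w) ((hd_tr k w).trans h'.1).symm)
  · intro h
    exact absurd (tr_mem k w) h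

end Pool.Agent.K7.H47.BE
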