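import Pool.Agent.K7.H47.BE.Rank

/-!
# Approximation of projections and their classes
-/

set_option autoImplicit false

open scoped InnerProductSpace

namespace Pool.Agent.K7.H47.BE

open Pool.Agent.TH723.AF (op op_ext vec_ext inner_b norm_b op_apply op_of_some op_of_none inner_op
  inner_op_left op_mul star_op inner_op_symm Pj abs_re_inner_le chi chi_cont)

universe v

variable {V : Type} {D : BD V} {H : Type v} [NormedAddCommGroup H] [InnerProductSpace ℂ H]
  [CompleteSpace H] {b : HilbertBasis ℕ ℂ H}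

lemma exists_proj {k : ℕ} {y p : H →L[ℂ] H} (hy : y ∈ F D b k) (hp : Pj p)
    (h : ‖p - y‖ ≤ 1 / 200) : ∃ p' ∈ F D b k, Pj p' ∧ ‖p - p'‖ ≤ 1 / 16 := by
  set a : H →L[ℂ] H := (1 / 2 : ℝ) • (y + star y) with ha
  have ha_mem : a ∈ F D b k := by
    have h1 : a = (1 / 2 : ℂ) • (y + star y) := by
      rw [ha]
      ext x
      simp only [smul_apply]
      rw [← Complex.coe_smul]
      norm_num
    rw [h1]
    exact SMulMemClass.smul_mem _ (add_mem hy (star_mem hy))
  have ha_sa : IsSelfAdjoint a := by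
    rw [ha]
    apply IsSelfAdjoint.smul (by simp [isSelfAdjoint_iff])
    exact IsSelfAdjoint.add_star_self y
  have hpa : ‖p - a‖ ≤ 1 / 200 := by
    have h1 : p - a = (1 / 2 : ℝ) • ((p - y) + star (p - y)) := by
      rw [star_sub, hp.st, ha]
      module
    rw [h1, norm_smul]
    have h2 : ‖(p - y) + star (p - y)‖ ≤ 1 / 200 + 1 / 200 := by
      refine (norm_add_le _ _).trans ?_
      rw [norm_star]
      exact add_le_add h h
    rw [Real.norm_of_nonneg (by norm_num)]
    linarith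
  have hp1 := hp.norm_le_one
  have ha1 : ‖a‖ ≤ 1 + 1 / 200 := by
    have : a = p - (p - a) := by abel
    rw [this]
    exact (norm_sub_le _ _).trans (add_le_add hp1 hpa)
  have hsq : ‖a * a - a‖ ≤ 1 / 50 := by
    have h1 : a * a - a = -(a * (p - a)) - (p - a) * p + (p - a) := by
      rw [mul_sub, sub_mul, hp.mul]
      abel
    rw [h1]
    have h2 : ‖a * (p - a)‖ ≤ (1 + 1 / 200) * (1 / 200) :=
      (norm_mul_le _ _).trans (mul_le_mul ha1 hpa (norm_nonneg _) (by norm_num))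
    have h3 : ‖(p - a) * p‖ ≤ 1 / 200 * 1 :=
      (norm_mul_le _ _).trans (mul_le_mul hpa hp1 (norm_nonneg _) (by norm_num))
    calc ‖-(a * (p - a)) - (p - a) * p + (p - a)‖
        ≤ ‖-(a * (p - a)) - (p - a) * p‖ + ‖p - a‖ := norm_add_le _ _
      _ ≤ ‖-(a * (p - a))‖ + ‖(p - a) * p‖ + ‖p - a‖ := by gcongr; exact norm_sub_le _ _
      _ ≤ (1 + 1 / 200) * (1 / 200) + 1 / 200 * 1 + 1 / 200 := by
          rw [norm_neg]
          gcongr
      _ ≤ 1 / 50 := by norm_num
  have hspec : ∀ x ∈ quasispectrum ℝ a, |x * x - x| ≤ 1 / 50 := by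
    intro x hx
    have h1 := norm_apply_le_norm_cfcₙ (fun t : ℝ => t * t - t) a hx
      (by fun_prop) (by simp) ha_sa
    have h2 : cfcₙ (fun t : ℝ => t * t - t) a = a * a - a := by
      rw [cfcₙ_sub (fun t : ℝ => t * t) (fun t : ℝ => t) a, cfcₙ_mul (fun t : ℝ => t)
        (fun t : ℝ => t) a, cfcₙ_id' ℝ a]
    rw [h2] at h1
    exact h1.trans hsq
  have hne : ∀ x ∈ quasispectrum ℝ a, x ≠ 1 / 2 := by
    rintro x hx rfl
    have := hspec _ hx
    norm_num [abs_of_neg] at this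
  have hcont : ContinuousOn chi (quasispectrum ℝ a) := fun x hx =>
    (chi_cont (hne x hx)).continuousWithinAt
  have hchi0 : chi 0 = 0 := if_pos (by norm_num)
  have hclosed : IsClosed (F D b k : Set (H →L[ℂ] H)) := F_closed k
  have hcl2 : IsClosed ((F D b k).toNonUnitalStarSubalgebra : Set (H →L[ℂ] H)) := hclosed
  have hm : cfcₙ chi a ∈ (F D b k).toNonUnitalStarSubalgebra := cfcₙ_mem chi ha_mem
  refine ⟨cfcₙ chi a, hm, ⟨?_, ?_⟩, ?_⟩
  · rw [← cfcₙ_mul chi chi a hcont hchi0 hcont hchi0]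
    congr 1
    funext t
    unfold chi
    split_ifs <;> simp
  · exact cfcₙ_predicate chi a
  · have h1 : ‖a - cfcₙ chi a‖ ≤ 1 / 25 := by
      have h2 : a - cfcₙ chi a = cfcₙ (fun t : ℝ => t - chi t) a := by
        rw [cfcₙ_sub (fun t : ℝ => t) chi a (by fun_prop) rfl hcont hchi0, cfcₙ_id' ℝ a]
      rw [h2]
      apply norm_cfcₙ_le
      intro x hx
      have h3 := hspec x hx
      rw [Real.norm_eq_abs]
      unfold chi
      have h4 : x * x - x = x * (x - 1) := by ring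
      rw [h4, abs_mul] at h3
      split_ifs with h5
      · rw [sub_zero]
        have h6 : 1 / 2 ≤ |x - 1| := by
          rw [abs_of_neg (by linarith)]
          linarith
        nlinarith [abs_nonneg x]
      · have h6 : 1 / 2 ≤ |x| := by
          push Not at h5
          exact h5.trans (le_abs_self _)
        nlinarith [abs_nonneg (x - 1)]
    have h3 : p - cfcₙ chi a = (p - a) + (a - cfcₙ chi a) := by abel
    rw [h3]
    refine (norm_add_le _ _).trans ?_
    linarith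


/-! ### the algebra -/

variable (D b)

/-- the algebra of the diagram: the closure of the union of the algebras of the stages -/
noncomputable def AL : Set (H →L[ℂ] H) := closure (⋃ n, (F D b n : Set (H →L[ℂ] H)))

/-- an approximation of the projection `p` from stage `n` on -/
def Ap (p : H →L[ℂ] H) (n : ℕ) (p' : H →L[ℂ] H) : Prop :=
  p' ∈ F D b n ∧ Pj p' ∧ ‖p - p'‖ ≤ 1 / 16

variable {D b}

lemma exists_ap {p : H →L[ℂ] H} (hp : Pj p) (h : p ∈ AL D b) : ∃ n p', Ap D b p n p' := by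
  obtain ⟨y, hy, hd⟩ := Metric.mem_closure_iff.1 h (1 / 200) (by norm_num)
  obtain ⟨n, hn⟩ := Set.mem_iUnion.1 hy
  rw [dist_eq_norm] at hd
  obtain ⟨p', h1, h2, h3⟩ := exists_proj hn hp hd.le
  exact ⟨n, p', h1, h2, h3⟩

variable (D b)

open Classical in
/-- the stage of the approximation -/
noncomputable def nA (p : H →L[ℂ] H) : ℕ :=
  if h : ∃ n p', Ap D b p n p' then h.choose else 0

open Classical in
/-- the approximation -/
noncomputable def pA (p : H →L[ℂ] H) : H →L[ℂ] H :=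
  if h : ∃ n p', Ap D b p n p' then h.choose_spec.choose else 0

variable {D b}

lemma ap_spec {p : H →L[ℂ] H} (hp : Pj p) (h : p ∈ AL D b) :
    Ap D b p (nA D b p) (pA D b p) := by
  have h1 := exists_ap hp h
  unfold nA pA
  rw [dif_pos h1, dif_pos h1]
  exact h1.choose_spec.choose_spec

section cls

variable {M : Type*} [AddCommGroup M] (β : ℕ → V → M)

variable (D b)

/-- the class of a projection -/
noncomputable def cls (p : H →L[ℂ] H) : M := cl D b β (nA D b p) (pA D b p)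

variable {D b}

variable {p : H →L[ℂ] H}

lemma ap_mem (hp : Pj p) (h : p ∈ AL D b) {k : ℕ} (hk : nA D b p ≤ k) : pA D b p ∈ F D b k :=
  F_mono hk (ap_spec hp h).1

variable {β}

lemma cls_eq (hβ : Comp D β) (hp : Pj p) (h : p ∈ AL D b) {k : ℕ} (hk : nA D b p ≤ k) :
    cls D b β p = cl D b β k (pA D b p) :=
  (cl_mono hβ (ap_spec hp h).1 (ap_spec hp h).2.1 hk).symm

lemma pA_ne (hp : Pj p) (h : p ∈ AL D b) (h0 : p ≠ 0) : pA D b p ≠ 0 := by
  intro h2
  have h3 := (ap_spec hp h).2.2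
  rw [h2, sub_zero] at h3
  apply h0
  have h4 : ‖p‖ * ‖p‖ = ‖p‖ := by
    have := CStarRing.norm_star_mul_self (x := p)
    rw [hp.st, hp.mul] at this
    exact this.symm
  have h5 : ‖p‖ = 0 := by
    by_contra h6
    have h7 : ‖p‖ = 1 := by
      have := mul_right_cancel₀ h6 (h4.trans (one_mul ‖p‖).symm)
      exact this
    rw [h7] at h3
    norm_num at h3
  exact norm_eq_zero.1 h5

/-- the class of a nonzero projection is a nontrivial combination of the generators -/
theorem cls_ne (hp : Pj p) (h : p ∈ AL D b) (h0 : p ≠ 0) :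
    ∃ k, ∃ c : V → ℕ, (∃ v ∈ Vx D k, c v ≠ 0) ∧ cls D b β p = ∑ v ∈ Vx D k, c v • β k v := by
  have h1 := ap_mem hp h (k := nA D b p) le_rfl
  have hpj := (ap_spec hp h).2.1
  obtain ⟨v, hv, hv2⟩ := exists_rank h1 hpj (pA_ne hp h h0)
  exact ⟨_, _, ⟨v, hv, hv2⟩, rfl⟩

theorem cls_add (hβ : Comp D β) {p₁ p₂ : H →L[ℂ] H} (hp : Pj p) (h : p ∈ AL D b)
    (hp₁ : Pj p₁) (h₁ : p₁ ∈ AL D b) (hp₂ : Pj p₂) (h₂ : p₂ ∈ AL D b) (he : p = p₁ + p₂) :
    cls D b β p = cls D b β p₁ + cls D b β p₂ := by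
  set k := max (nA D b p) (max (nA D b p₁) (nA D b p₂)) with hk
  rw [cls_eq hβ hp h (k := k) (by omega), cls_eq hβ hp₁ h₁ (k := k) (by omega),
    cls_eq hβ hp₂ h₂ (k := k) (by omega)]
  have e0 := ap_mem hp h (k := k) (by omega)
  have e1 := ap_mem hp₁ h₁ (k := k) (by omega)
  have e2 := ap_mem hp₂ h₂ (k := k) (by omega)
  unfold cl
  rw [← Finset.sum_add_distrib]
  refine Finset.sum_congr rfl fun v _ => ?_
  rw [← add_smul]
  congr 1
  refine rank_add e0 (ap_spec hp h).2.1 e1 (ap_spec hp₁ h₁).2.1 e2 (ap_spec hp₂ h₂).2.1 ?_ v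
  have f0 := (ap_spec hp h).2.2
  have f1 := (ap_spec hp₁ h₁).2.2
  have f2 := (ap_spec hp₂ h₂).2.2
  have : pA D b p₁ + pA D b p₂ - pA D b p =
      (p - pA D b p) - (p₁ - pA D b p₁) - (p₂ - pA D b p₂) := by
    rw [he]
    abel
  rw [this]
  calc _ ≤ ‖(p - pA D b p) - (p₁ - pA D b p₁)‖ + ‖p₂ - pA D b p₂‖ := norm_sub_le _ _
    _ ≤ ‖p - pA D b p‖ + ‖p₁ - pA D b p₁‖ + ‖p₂ - pA D b p₂‖ := by gcongr; exact norm_sub_le _ _
    _ ≤ 1 / 4 := by linarith

theorem cls_eqv (hβ : Comp D β) {p₁ v : H →L[ℂ] H} (hp : Pj p) (h : p ∈ AL D b)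
    (hp₁ : Pj p₁) (h₁ : p₁ ∈ AL D b) (hv : v ∈ AL D b)
    (e : star v * v = p) (e₁ : v * star v = p₁) : cls D b β p = cls D b β p₁ := by
  obtain ⟨w, hw, hd⟩ := Metric.mem_closure_iff.1 hv (1 / 20) (by norm_num)
  obtain ⟨n, hn⟩ := Set.mem_iUnion.1 hw
  rw [dist_eq_norm] at hd
  set k := max n (max (nA D b p) (nA D b p₁)) with hk
  rw [cls_eq hβ hp h (k := k) (by omega), cls_eq hβ hp₁ h₁ (k := k) (by omega)]
  unfold cl
  refine Finset.sum_congr rfl fun u _ => ?_
  congr 1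
  have e0 := ap_mem hp h (k := k) (by omega)
  have e1 := ap_mem hp₁ h₁ (k := k) (by omega)
  have e2 : w ∈ F D b k := F_mono (by omega) hn
  have f0 := (ap_spec hp h).2.2
  have f1 := (ap_spec hp₁ h₁).2.2
  have hv1 : ‖v‖ ≤ 1 := by
    have h3 := CStarRing.norm_star_mul_self (x := v)
    rw [e] at h3
    have h4 := hp.norm_le_one
    by_contra h5
    push Not at h5
    nlinarith
  have hw1 : ‖w‖ ≤ 1 + 1 / 20 := by
    have : w = v - (v - w) := by abel
    rw [this]
    exact (norm_sub_le _ _).trans (add_le_add hv1 hd.le)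
  refine rank_congr e0 (ap_spec hp h).2.1 e1 (ap_spec hp₁ h₁).2.1 e2
    (δ := 1 / 4) (by norm_num) ?_ ?_ u
  · have : star w * w - pA D b p = (p - pA D b p) - (star (v - w) * v + star w * (v - w)) := by
      rw [← e, star_sub, sub_mul, mul_sub]
      abel
    rw [this]
    have g1 : ‖star (v - w) * v‖ ≤ 1 / 20 * 1 := by
      refine (norm_mul_le _ _).trans ?_
      rw [norm_star]
      exact mul_le_mul hd.le hv1 (norm_nonneg _) (by norm_num)
    have g2 : ‖star w * (v - w)‖ ≤ (1 + 1 / 20) * (1 / 20) := by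
      refine (norm_mul_le _ _).trans ?_
      rw [norm_star]
      exact mul_le_mul hw1 hd.le (norm_nonneg _) (by norm_num)
    calc _ ≤ ‖p - pA D b p‖ + ‖star (v - w) * v + star w * (v - w)‖ := norm_sub_le _ _
      _ ≤ ‖p - pA D b p‖ + (‖star (v - w) * v‖ + ‖star w * (v - w)‖) := by
          gcongr; exact norm_add_le _ _
      _ ≤ 1 / 16 + (1 / 20 * 1 + (1 + 1 / 20) * (1 / 20)) := by gcongr
      _ ≤ 1 / 4 := by norm_num
  · have : w * star w - pA D b p₁ =
        (p₁ - pA D b p₁) - ((v - w) * star v + w * star (v - w)) := by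
      rw [← e₁, star_sub, sub_mul, mul_sub]
      abel
    rw [this]
    have g1 : ‖(v - w) * star v‖ ≤ 1 / 20 * 1 := by
      refine (norm_mul_le _ _).trans ?_
      rw [norm_star]
      exact mul_le_mul hd.le hv1 (norm_nonneg _) (by norm_num)
    have g2 : ‖w * star (v - w)‖ ≤ (1 + 1 / 20) * (1 / 20) := by
      refine (norm_mul_le _ _).trans ?_
      rw [norm_star]
      exact mul_le_mul hw1 hd.le (norm_nonneg _) (by norm_num)
    calc _ ≤ ‖p₁ - pA D b p₁‖ + ‖(v - w) * star v + w * star (v - w)‖ := norm_sub_le _ _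
      _ ≤ ‖p₁ - pA D b p₁‖ + (‖(v - w) * star v‖ + ‖w * star (v - w)‖) := by
          gcongr; exact norm_add_le _ _
      _ ≤ 1 / 16 + (1 / 20 * 1 + (1 + 1 / 20) * (1 / 20)) := by gcongr
      _ ≤ 1 / 4 := by norm_num

end cls

end Pool.Agent.K7.H47.BE
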