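import Pool.Agent.K7.H47.BE.Kap

/-!
# Strictly positive homomorphisms give embeddings
-/

set_option autoImplicit false

open scoped InnerProductSpace

namespace Pool.Agent.K7.H47.BE

open Pool.Agent.TH723.AF (op op_ext vec_ext inner_b norm_b op_apply op_of_some op_of_none inner_op
  inner_op_left op_mul star_op inner_op_symm Pj abs_re_inner_le)

/-! ### extensions of paths by several steps -/

section ext

variable {V : Type} (D : BD V)

open Classical in
/-- a path which ends at `v` -/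
noncomputable def rp (k : ℕ) (v : V) : ℕ := if h : ∃ w ∈ Gf D k, D.vt k w = v then h.choose else 0

open Classical in
/-- the paths of stage `k'` which extend the path `a` of stage `k` -/
noncomputable def Wf (k k' a : ℕ) : Finset ℕ := (Gf D k').filter fun w => Hd D k w a

/-- the remainders at stage `k` of the paths of stage `k'` through `v` -/
noncomputable def Rf (k k' : ℕ) (v : V) : Finset ℕ := (Wf D k k' (rp D k v)).image (D.rm k)

/-- the end point of the path from `v` with the remainder `r` -/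
noncomputable def en (k k' : ℕ) (v : V) (r : ℕ) : V := D.vt k' (mk D k (rp D k v) r)

variable {D}

lemma rp_spec {k : ℕ} {v : V} (hv : v ∈ Vx D k) : rp D k v ∈ Gf D k ∧ D.vt k (rp D k v) = v := by
  have h := mem_Vx.1 hv
  unfold rp
  rw [dif_pos h]
  exact h.choose_spec

lemma mk_tl {k a c r : ℕ} (h : D.vt k a = D.vt k c) : Tl D k (mk D k a r) (mk D k c r) :=
  ⟨by rw [mk_vt, mk_vt, h], by rw [mk_rm, mk_rm]⟩

lemma en_eq {k k' : ℕ} (hk : k ≤ k') {v : V} (hv : v ∈ Vx D k) {a : ℕ} (ha : D.vt k a = v) (r : ℕ) :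
    D.vt k' (mk D k a r) = en D k k' v r :=
  ((mk_tl (ha.trans (rp_spec hv).2.symm)).mono hk).1

lemma mem_Wf {k k' a w : ℕ} : w ∈ Wf D k k' a ↔ w ∈ Gf D k' ∧ Hd D k w a := by
  classical
  unfold Wf
  rw [Finset.mem_filter]

lemma mem_Rf {k k' : ℕ} (hk : k ≤ k') {v : V} (hv : v ∈ Vx D k) {a : ℕ} (ha : D.vt k a = v)
    {r : ℕ} : r ∈ Rf D k k' v ↔ mk D k a r ∈ Gf D k' := by
  have h1 : mk D k a r ∈ Gf D k' ↔ mk D k (rp D k v) r ∈ Gf D k' := by
    rw [mem_Gf, mem_Gf, ((mk_tl (ha.trans (rp_spec hv).2.symm)).mono hk).2]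
  rw [h1]
  unfold Rf
  rw [Finset.mem_image]
  constructor
  · rintro ⟨w, hw, rfl⟩
    rw [mem_Wf] at hw
    rw [← mk_congr hw.2, mk_self]
    exact hw.1
  · intro h
    exact ⟨_, mem_Wf.2 ⟨h, mk_hd _ _ _⟩, mk_rm _ _ _⟩

lemma sum_Rf {M : Type*} [AddCommMonoid M] {k k' : ℕ} (hk : k ≤ k') {v : V} (hv : v ∈ Vx D k)
    {a : ℕ} (ha : D.vt k a = v) (f : ℕ → M) :
    ∑ r ∈ Rf D k k' v, f (mk D k a r) = ∑ w ∈ Wf D k k' a, f w := by
  refine Finset.sum_nbij' (fun r => mk D k a r) (fun w => D.rm k w) ?_ ?_ ?_ ?_ ?_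
  · intro r hr
    exact mem_Wf.2 ⟨(mem_Rf hk hv ha).1 hr, mk_hd _ _ _⟩
  · intro w hw
    rw [mem_Wf] at hw
    rw [mem_Rf hk hv ha, ← mk_congr hw.2, mk_self]
    exact hw.1
  · intro r _
    exact mk_rm _ _ _
  · intro w hw
    rw [mem_Wf] at hw
    rw [← mk_congr hw.2, mk_self]
  · intro r _
    rfl

lemma Wf_self {k a : ℕ} (ha : a ∈ Gf D k) : Wf D k k a = {a} := by
  ext w
  rw [mem_Wf, Finset.mem_singleton]
  constructor
  · rintro ⟨h1, h2⟩
    exact eq_of_hd_Gf h1 ha h2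
  · rintro rfl
    exact ⟨ha, Hd.refl _ _⟩

lemma sum_Wf_succ {M : Type*} [AddCommMonoid M] {k k' a : ℕ} (hk : k ≤ k') (g : ℕ → M) :
    ∑ w ∈ Wf D k (k' + 1) a, g w =
      ∑ w ∈ Wf D k k' a, ∑ i ∈ Finset.range (D.deg k' (D.vt k' w)), g (mk D k' w i) := by
  classical
  unfold Wf
  rw [Finset.sum_filter, sum_Gf_succ, Finset.sum_filter]
  refine Finset.sum_congr rfl fun w _ => ?_
  have h1 : ∀ i, Hd D k (mk D k' w i) a ↔ Hd D k w a := by
    intro i
    have h2 := (mk_hd (D := D) k' w i).mono hk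
    exact ⟨fun h => h2.symm.trans h, fun h => h2.trans h⟩
  split_ifs with h2
  · refine Finset.sum_congr rfl fun i _ => ?_
    rw [if_pos ((h1 i).2 h2)]
  · refine Finset.sum_eq_zero fun i _ => ?_
    rw [if_neg fun h => h2 ((h1 i).1 h)]

lemma vt_mem_Vx {k w : ℕ} : D.vt k w ∈ Vx D k := mem_Vx.2 ⟨tr D k w, tr_mem k w, tr_vt k w⟩

lemma sum_class {M : Type*} [AddCommGroup M] {β : ℕ → V → M} (hβ : Comp D β) {k k' : ℕ}
    (hk : k ≤ k') {v : V} (hv : v ∈ Vx D k) :
    ∑ r ∈ Rf D k k' v, β k' (en D k k' v r) = β k v := by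
  obtain ⟨h1, h2⟩ := rp_spec hv
  unfold en
  rw [sum_Rf hk hv h2 (fun w => β k' (D.vt k' w))]
  induction k', hk using Nat.le_induction with
  | base => rw [Wf_self h1, Finset.sum_singleton, h2]
  | succ k' hk ih =>
    rw [sum_Wf_succ hk, ← ih]
    refine Finset.sum_congr rfl fun w _ => ?_
    rw [hβ k' _ vt_mem_Vx]
    refine Finset.sum_congr rfl fun i hi => ?_
    rw [Finset.mem_range] at hi
    rw [mk_vt_succ hi]

end ext

universe v

section mu

variable {V : Type} {D : BD V} {H : Type v} [NormedAddCommGroup H] [InnerProductSpace ℂ H]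
  [CompleteSpace H] {b : HilbertBasis ℕ ℂ H}

/-- matrix units as sums of matrix units of a later stage -/
lemma mu_mono {k k' : ℕ} (hk : k ≤ k') {v : V} (hv : v ∈ Vx D k) {a c : ℕ}
    (hav : D.vt k a = v) (hcv : D.vt k c = v) :
    mu D b k a c = ∑ r ∈ Rf D k k' v, mu D b k' (mk D k a r) (mk D k c r) := by
  apply op_ext b
  intro w
  rw [sum_apply]
  by_cases h : Hd D k w a
  · set r := D.rm k (tr D k' w) with hr
    have h1 : mk D k a r = tr D k' w := by
      rw [← mk_congr (((hd_tr k' w).mono hk).trans h)]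
      exact mk_self _ _
    have h2 : r ∈ Rf D k k' v := by
      rw [mem_Rf hk hv hav, h1]
      exact tr_mem _ _
    have hvw : D.vt k w = v := h.at_eq.trans hav
    rw [Finset.sum_eq_single r]
    · rw [mu_apply' h (hcv.trans hvw.symm), h1]
      have t1 : Tl D k (mk D k c r) (tr D k' w) :=
        ⟨by rw [mk_vt, hcv, ((hd_tr k' w).mono hk).at_eq, hvw], by rw [mk_rm]⟩
      have t2 : Tl D k (mk D k c (D.rm k w)) w := splice_tl (hcv.trans hvw.symm)
      symm
      apply mu_apply (hd_tr k' w).symm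
      · intro n hn
        rcases lt_or_ge n k with hnk | hnk
        · rw [mk_hd k c _ n hnk, mk_hd k c _ n hnk]
        · rw [(t2.mono hnk).cc_eq, (t1.mono hnk).cc_eq, hd_tr k' w n hn]
      · exact t2.mono hk
    · intro r' hr' hne
      apply mu_apply_zero
      intro h'
      apply hne
      have h3 := (mem_Rf hk hv hav).1 hr'
      have h4 : mk D k a r' = tr D k' w := eq_of_hd_Gf h3 (tr_mem _ _)
        ((hd_tr k' w).trans h'.1).symm
      rw [hr, ← h4, mk_rm]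
    · intro h'
      exact absurd h2 h'
  · rw [mu_apply_zero (fun h' => h h'.1), Finset.sum_eq_zero]
    intro r _
    apply mu_apply_zero
    intro h'
    exact h ((h'.1.mono hk).trans (mk_hd _ _ _))

end mu

/-! ### bijections -/

lemma exists_bij {ι κ γ : Type} (P : Finset ι) (Q : Finset κ) (eP : ι → γ) (eQ : κ → γ)
    [Inhabited ι]
    (h : ∀ z, (open Classical in (P.filter fun p => eP p = z).card =
      (Q.filter fun q => eQ q = z).card)) :
    ∃ τ : κ → ι, Set.BijOn τ Q P ∧ ∀ q ∈ Q, eP (τ q) = eQ q := by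
  classical
  have e : ∀ z, Nonempty ((Q.filter fun q => eQ q = z) ≃ (P.filter fun p => eP p = z)) := by
    intro z
    exact ⟨Finset.equivOfCardEq (by convert (h z).symm)⟩
  let f := fun z => (e z).some
  let τ : κ → ι := fun q => if hq : q ∈ Q then
    (f (eQ q) ⟨q, Finset.mem_filter.2 ⟨hq, rfl⟩⟩ : ι) else default
  have hτ : ∀ q (hq : q ∈ Q), τ q = (f (eQ q) ⟨q, Finset.mem_filter.2 ⟨hq, rfl⟩⟩ : ι) :=
    fun q hq => dif_pos hq
  have hmem : ∀ q (hq : q ∈ Q), τ q ∈ P ∧ eP (τ q) = eQ q := by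
    intro q hq
    rw [hτ q hq]
    exact Finset.mem_filter.1 (f (eQ q) ⟨q, Finset.mem_filter.2 ⟨hq, rfl⟩⟩).2
  refine ⟨τ, ⟨fun q hq => (hmem q hq).1, ?_, ?_⟩, fun q hq => (hmem q hq).2⟩
  · intro q hq q' hq' hqq
    have hq1 : q ∈ Q := hq
    have hq2 : q' ∈ Q := hq'
    have he : eQ q = eQ q' := by rw [← (hmem q hq1).2, ← (hmem q' hq2).2, hqq]
    rw [hτ q hq1, hτ q' hq2] at hqq
    have key : ∀ z (hz : eQ q = z) (hz' : eQ q' = z),
        (f z ⟨q, Finset.mem_filter.2 ⟨hq1, hz⟩⟩ : ι) = (f z ⟨q', Finset.mem_filter.2 ⟨hq2, hz'⟩⟩ : ι)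
        → q = q' := by
      intro z hz hz' h1
      have h2 := (f z).injective (Subtype.ext h1)
      exact congrArg Subtype.val h2
    have h3 : ∀ z (hz' : eQ q' = z), z = eQ q' →
        (f z ⟨q', Finset.mem_filter.2 ⟨hq2, hz'⟩⟩ : ι) =
        (f (eQ q') ⟨q', Finset.mem_filter.2 ⟨hq2, rfl⟩⟩ : ι) := by
      rintro z hz' rfl
      rfl
    exact key (eQ q) rfl he.symm (hqq.trans (h3 _ he.symm he).symm)
  · intro p hp
    have hp1 : p ∈ P := hp
    let q := (f (eP p)).symm ⟨p, Finset.mem_filter.2 ⟨hp1, rfl⟩⟩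
    have hq := Finset.mem_filter.1 q.2
    refine ⟨q.1, hq.1, ?_⟩
    rw [hτ q.1 hq.1]
    have h3 : ∀ z (hz : eQ q.1 = z),
        (f (eQ q.1) ⟨q.1, Finset.mem_filter.2 ⟨hq.1, rfl⟩⟩ : ι) =
        (f z ⟨q.1, Finset.mem_filter.2 ⟨hq.1, hz⟩⟩ : ι) := by
      rintro z rfl
      rfl
    rw [h3 (eP p) hq.2]
    change ((f (eP p)) q : ι) = p
    change ((f (eP p)) ((f (eP p)).symm ⟨p, _⟩) : ι) = p
    rw [Equiv.apply_symm_apply]

end Pool.Agent.K7.H47.BE
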