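import Pool.Agent.K7.H47.BE.Cross

/-!
# Strictly positive homomorphisms give embeddings, II
-/

set_option autoImplicit false

open scoped InnerProductSpace

namespace Pool.Agent.K7.H47.BE

open Pool.Agent.TH723.AF (V root par dep op op_ext vec_ext inner_b norm_b op_apply op_of_some
  op_of_none inner_op inner_op_left op_mul star_op inner_op_symm Pj abs_re_inner_le)

universe v

section

variable {D D' : BD Ge} {β β' : ℕ → Ge → GG} {A A' : Set V}

/-- the multiplicities of the map at the stages -/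
structure CD (D D' : BD Ge) (β β' : ℕ → Ge → GG) (f : GG →ₗ[ℚ] GG) (m : ℕ → ℕ)
    (X : ℕ → Ge → List Ge) : Prop where
  m0 : m 0 = 0
  mono : ∀ n, m n ≤ m (n + 1)
  X0 : ∀ x, X 0 x = [D'.r0]
  mem : ∀ n, ∀ x ∈ Vx D n, ∀ y ∈ X n x, y ∈ Vx D' (m n)
  sum : ∀ n, ∀ x ∈ Vx D n, ((X n x).map (β' (m n))).sum = f (β n x)

lemma mem_Vx_zero {x : Ge} : x ∈ Vx D 0 ↔ x = D.r0 := by
  rw [mem_Vx]
  constructor
  · rintro ⟨w, -, rfl⟩
    rfl
  · rintro rfl
    exact ⟨0, mem_Gf.2 rfl, rfl⟩

lemma exists_CD (hS : Sys A D β) (hS' : Sys A' D' β') {f : GG →ₗ[ℚ] GG}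
    (hf : ∀ a ∈ GA A, f a ∈ GA A') (hfp : ∀ a ∈ GA A, SP A a → SP A' (f a))
    (hf0 : f (E root) = E root) : ∃ m X, CD D D' β β' f m X := by
  classical
  have h1 : ∀ n, ∃ M, ∀ m, M ≤ m → ∀ x ∈ Vx D n, ∃ c : Ge → ℕ,
      f (β n x) = ∑ y ∈ Vx D' m, c y • β' m y := by
    intro n
    have h2 : ∀ᶠ m : ℕ in Filter.atTop, ∀ x ∈ Vx D n, ∃ c : Ge → ℕ,
        f (β n x) = ∑ y ∈ Vx D' m, c y • β' m y := by
      rw [Filter.eventually_all_finset]
      intro x hx
      rw [Filter.eventually_atTop]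
      exact hS'.exh _ (hf _ (hS.mem n x hx)) (hfp _ (hS.mem n x hx) (hS.pos n x hx))
    exact Filter.eventually_atTop.1 h2
  choose M hM using h1
  let m : ℕ → ℕ := fun n => Nat.rec 0 (fun n mn => max mn (M (n + 1))) n
  have hm1 : ∀ n, m (n + 1) = max (m n) (M (n + 1)) := fun n => rfl
  let X : ℕ → Ge → List Ge := fun n x => if n = 0 then [D'.r0] else
    if h : ∃ c : Ge → ℕ, f (β n x) = ∑ y ∈ Vx D' (m n), c y • β' (m n) y then
      ml (Vx D' (m n)) h.choose else []
  have hX : ∀ n, ∀ x ∈ Vx D (n + 1), ∃ c : Ge → ℕ, X (n + 1) x = ml (Vx D' (m (n + 1))) c ∧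
      f (β (n + 1) x) = ∑ y ∈ Vx D' (m (n + 1)), c y • β' (m (n + 1)) y := by
    intro n x hx
    have h : ∃ c : Ge → ℕ, f (β (n + 1) x) = ∑ y ∈ Vx D' (m (n + 1)), c y • β' (m (n + 1)) y :=
      hM (n + 1) (m (n + 1)) (by rw [hm1]; exact le_max_right _ _) x hx
    refine ⟨h.choose, ?_, h.choose_spec⟩
    change (if n + 1 = 0 then [D'.r0] else _) = _
    rw [if_neg (Nat.succ_ne_zero n), dif_pos h]
  refine ⟨m, X, rfl, fun n => by rw [hm1]; exact le_max_left _ _, fun x => if_pos rfl, ?_, ?_⟩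
  · intro n x hx y hy
    rcases n with _ | n
    · have h2 : X 0 x = [D'.r0] := if_pos rfl
      rw [h2, List.mem_singleton] at hy
      rw [hy]
      exact mem_Vx_zero.2 rfl
    · obtain ⟨c, h2, -⟩ := hX n x hx
      rw [h2, mem_ml] at hy
      exact hy.1
  · intro n x hx
    rcases n with _ | n
    · have h2 : X 0 x = [D'.r0] := if_pos rfl
      rw [h2, mem_Vx_zero.1 hx, hS.root, hf0, List.map_singleton, List.sum_singleton]
      exact hS'.root
    · obtain ⟨c, h2, h3⟩ := hX n x hx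
      rw [h2, h3, sum_ml]

lemma card_fiber_eq (hS' : Sys A' D' β') {ι κ : Type} {m : ℕ} {P : Finset ι} {Q : Finset κ}
    {eP : ι → Ge} {eQ : κ → Ge} (hP : ∀ p ∈ P, eP p ∈ Vx D' m) (hQ : ∀ q ∈ Q, eQ q ∈ Vx D' m)
    (h : ∑ p ∈ P, β' m (eP p) = ∑ q ∈ Q, β' m (eQ q)) (z : Ge) :
    (open Classical in (P.filter fun p => eP p = z).card =
      (Q.filter fun q => eQ q = z).card) := by
  classical
  by_cases hz : z ∈ Vx D' m
  · have e1 : ∑ p ∈ P, β' m (eP p) =
        ∑ z ∈ Vx D' m, (((P.filter fun p => eP p = z).card : ℕ) : ℚ) • β' m z := by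
      rw [← Finset.sum_fiberwise_of_maps_to hP]
      refine Finset.sum_congr rfl fun z _ => ?_
      rw [Nat.cast_smul_eq_nsmul, ← Finset.sum_const]
      refine Finset.sum_congr ?_ fun p hp => ?_
      · ext p
        simp only [Finset.mem_filter]
      · rw [(Finset.mem_filter.1 hp).2]
    have e2 : ∑ q ∈ Q, β' m (eQ q) =
        ∑ z ∈ Vx D' m, (((Q.filter fun q => eQ q = z).card : ℕ) : ℚ) • β' m z := by
      rw [← Finset.sum_fiberwise_of_maps_to hQ]
      refine Finset.sum_congr rfl fun z _ => ?_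
      rw [Nat.cast_smul_eq_nsmul, ← Finset.sum_const]
      refine Finset.sum_congr ?_ fun p hp => ?_
      · ext p
        simp only [Finset.mem_filter]
      · rw [(Finset.mem_filter.1 hp).2]
    rw [e1, e2, ← sub_eq_zero, ← Finset.sum_sub_distrib] at h
    have h2 : ∑ z ∈ Vx D' m, ((((P.filter fun p => eP p = z).card : ℕ) : ℚ) -
        (((Q.filter fun q => eQ q = z).card : ℕ) : ℚ)) • β' m z = 0 := by
      rw [← h]
      refine Finset.sum_congr rfl fun z _ => ?_
      rw [sub_smul]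
    have h3 := hS'.ind m (fun z => (((P.filter fun p => eP p = z).card : ℕ) : ℚ) -
        (((Q.filter fun q => eQ q = z).card : ℕ) : ℚ)) h2 z hz
    have h4 := sub_eq_zero.1 h3
    have h5 : (P.filter fun p => eP p = z).card = (Q.filter fun q => eQ q = z).card := by
      exact_mod_cast h4
    convert h5
  · have e1 : (P.filter fun p => eP p = z) = ∅ := by
      rw [Finset.filter_eq_empty_iff]
      intro p hp h'
      exact hz (h' ▸ hP p hp)
    have e2 : (Q.filter fun q => eQ q = z) = ∅ := by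
      rw [Finset.filter_eq_empty_iff]
      intro p hp h'
      exact hz (h' ▸ hQ p hp)
    convert (show (P.filter fun p => eP p = z).card = (Q.filter fun q => eQ q = z).card by
      rw [e1, e2]; rfl)

lemma getD_mem {L : List Ge} {j : ℕ} (hj : j < L.length) (d : Ge) : L.getD j d ∈ L := by
  rw [List.getD_eq_getElem _ _ hj]
  exact List.getElem_mem hj

/-- the bijections -/
lemma exists_tau (hS : Sys A D β) (hS' : Sys A' D' β') {f : GG →ₗ[ℚ] GG} {m : ℕ → ℕ}
    {X : ℕ → Ge → List Ge} (h : CD D D' β β' f m X) (n : ℕ) {x : Ge} (hx : x ∈ Vx D n) :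
    ∃ τ : (Σ _ : ℕ, ℕ) → (Σ _ : ℕ, ℕ),
      Set.BijOn τ ((Finset.range (D.deg n x)).sigma fun i =>
          Finset.range (X (n + 1) (D.nx n x i)).length : Finset (Σ _ : ℕ, ℕ))
        ((Finset.range (X n x).length).sigma fun j =>
          Rf D' (m n) (m (n + 1)) ((X n x).getD j D'.r0) : Finset (Σ _ : ℕ, ℕ)) ∧
      ∀ q ∈ (Finset.range (D.deg n x)).sigma (fun i =>
          Finset.range (X (n + 1) (D.nx n x i)).length),
        en D' (m n) (m (n + 1)) ((X n x).getD (τ q).1 D'.r0) (τ q).2 =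
          (X (n + 1) (D.nx n x q.1)).getD q.2 D'.r0 := by
  refine exists_bij _ _ (fun p : (Σ _ : ℕ, ℕ) =>
    en D' (m n) (m (n + 1)) ((X n x).getD p.1 D'.r0) p.2)
    (fun q : (Σ _ : ℕ, ℕ) => (X (n + 1) (D.nx n x q.1)).getD q.2 D'.r0) fun z => ?_
  have key := card_fiber_eq hS' (m := m (n + 1))
    (P := (Finset.range (X n x).length).sigma fun j =>
          Rf D' (m n) (m (n + 1)) ((X n x).getD j D'.r0))
    (Q := (Finset.range (D.deg n x)).sigma fun i =>
          Finset.range (X (n + 1) (D.nx n x i)).length)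
    (eP := fun p : (Σ _ : ℕ, ℕ) =>
      en D' (m n) (m (n + 1)) ((X n x).getD p.1 D'.r0) p.2)
    (eQ := fun q : (Σ _ : ℕ, ℕ) => (X (n + 1) (D.nx n x q.1)).getD q.2 D'.r0) ?_ ?_ ?_ z
  · convert key
  · intro p _
    exact vt_mem_Vx
  · intro q hq
    rw [Finset.mem_sigma, Finset.mem_range, Finset.mem_range] at hq
    exact h.mem (n + 1) _ (nx_mem hx hq.1) _ (getD_mem hq.2 _)
  · rw [Finset.sum_sigma, Finset.sum_sigma]
    have e1 : ∀ j ∈ Finset.range (X n x).length,
        ∑ r ∈ Rf D' (m n) (m (n + 1)) ((X n x).getD j D'.r0),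
          β' (m (n + 1)) (en D' (m n) (m (n + 1)) ((X n x).getD j D'.r0) r) =
        β' (m n) ((X n x).getD j D'.r0) := by
      intro j hj
      rw [Finset.mem_range] at hj
      exact sum_class hS'.comp (h.mono n) (h.mem n x hx _ (getD_mem hj _))
    have e2 : ∀ i ∈ Finset.range (D.deg n x),
        ∑ k ∈ Finset.range (X (n + 1) (D.nx n x i)).length,
          β' (m (n + 1)) ((X (n + 1) (D.nx n x i)).getD k D'.r0) =
        f (β (n + 1) (D.nx n x i)) := by
      intro i hi
      rw [Finset.mem_range] at hi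
      rw [sum_getD, h.sum (n + 1) _ (nx_mem hx hi)]
    rw [Finset.sum_congr rfl e1, Finset.sum_congr rfl e2, sum_getD, h.sum n x hx, ← map_sum,
      ← hS.comp n x hx]

end

section main

variable {H : Type v} [NormedAddCommGroup H] [InnerProductSpace ℂ H] [CompleteSpace H]
  (b : HilbertBasis ℕ ℂ H) {D D' : BD Ge} {β β' : ℕ → Ge → GG} {A A' : Set V}

/-- a strictly positive homomorphism which preserves the unit gives an embedding -/
theorem exists_emb (hS : Sys A D β) (hS' : Sys A' D' β') (hA : root ∈ A) {f : GG →ₗ[ℚ] GG}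
    (hf : ∀ a ∈ GA A, f a ∈ GA A') (hfp : ∀ a ∈ GA A, SP A a → SP A' (f a))
    (hf0 : f (E root) = E root) (hA' : root ∈ A') :
    ∃ φ : ALs D b →⋆ₙₐ[ℂ] (H →L[ℂ] H), Function.Injective φ ∧ (∀ x, φ x ∈ AL D' b) ∧
      φ 1 = 1 := by
  classical
  obtain ⟨m, X, hX⟩ := exists_CD hS hS' hf hfp hf0
  have ht : ∀ n, ∀ x, ∃ τ : (Σ _ : ℕ, ℕ) → (Σ _ : ℕ, ℕ), x ∈ Vx D n →
      Set.BijOn τ ((Finset.range (D.deg n x)).sigma fun i =>
          Finset.range (X (n + 1) (D.nx n x i)).length : Finset (Σ _ : ℕ, ℕ))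
        ((Finset.range (X n x).length).sigma fun j =>
          Rf D' (m n) (m (n + 1)) ((X n x).getD j D'.r0) : Finset (Σ _ : ℕ, ℕ)) ∧
      ∀ q ∈ (Finset.range (D.deg n x)).sigma (fun i =>
          Finset.range (X (n + 1) (D.nx n x i)).length),
        en D' (m n) (m (n + 1)) ((X n x).getD (τ q).1 D'.r0) (τ q).2 =
          (X (n + 1) (D.nx n x q.1)).getD q.2 D'.r0 := by
    intro n x
    by_cases hx : x ∈ Vx D n
    · obtain ⟨τ, hτ⟩ := exists_tau hS hS' hX n hx
      exact ⟨τ, fun _ => hτ⟩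
    · exact ⟨id, fun h => absurd h hx⟩
  choose τ hτ using ht
  -- the paths
  let S : ℕ → ℕ → ℕ → ℕ := fun n => Nat.rec (fun _ _ => 0) (fun n Sn a k =>
    mk D' (m n) (Sn (tr D n a) (τ n (D.vt n a) ⟨D.cc n a, k⟩).1)
      (τ n (D.vt n a) ⟨D.cc n a, k⟩).2) n
  have hS0 : ∀ a k, S 0 a k = 0 := fun a k => rfl
  have hS1 : ∀ n a k, S (n + 1) a k = mk D' (m n) (S n (tr D n a)
      (τ n (D.vt n a) ⟨D.cc n a, k⟩).1) (τ n (D.vt n a) ⟨D.cc n a, k⟩).2 := fun n a k => rfl
  have hVx : ∀ n a, D.vt n a ∈ Vx D n := fun n a => vt_mem_Vx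
  -- membership of the arguments of `τ`
  have hq : ∀ n a k, k < (X (n + 1) (D.vt (n + 1) a)).length →
      (⟨D.cc n a, k⟩ : Σ _ : ℕ, ℕ) ∈ (Finset.range (D.deg n (D.vt n a))).sigma (fun i =>
          Finset.range (X (n + 1) (D.nx n (D.vt n a) i)).length) := by
    intro n a k hk
    rw [Finset.mem_sigma, Finset.mem_range, Finset.mem_range]
    exact ⟨cc_lt n a, hk⟩
  have hτm : ∀ n a k, k < (X (n + 1) (D.vt (n + 1) a)).length →
      (τ n (D.vt n a) ⟨D.cc n a, k⟩).1 < (X n (D.vt n a)).length ∧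
      (τ n (D.vt n a) ⟨D.cc n a, k⟩).2 ∈ Rf D' (m n) (m (n + 1))
        ((X n (D.vt n a)).getD (τ n (D.vt n a) ⟨D.cc n a, k⟩).1 D'.r0) := by
    intro n a k hk
    have h1 := (hτ n _ (hVx n a)).1.mapsTo (hq n a k hk)
    rw [Finset.mem_coe, Finset.mem_sigma, Finset.mem_range] at h1
    exact h1
  have prop1 : ∀ n, ∀ a ∈ Gf D n, ∀ k, k < (X n (D.vt n a)).length →
      S n a k ∈ Gf D' (m n) ∧ D'.vt (m n) (S n a k) = (X n (D.vt n a)).getD k D'.r0 := by
    intro n
    induction n with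
    | zero =>
      intro a _ k hk
      rw [hX.X0] at hk ⊢
      have hk0 : k = 0 := by simpa using hk
      subst hk0
      rw [hS0, hX.m0]
      exact ⟨mem_Gf.2 rfl, rfl⟩
    | succ n ih =>
      intro a ha k hk
      obtain ⟨h1, h2⟩ := hτm n a k hk
      have h3 := ih (tr D n a) (tr_mem n a) (τ n (D.vt n a) ⟨D.cc n a, k⟩).1 (by rwa [tr_vt])
      rw [tr_vt] at h3
      have h4 : (X n (D.vt n a)).getD (τ n (D.vt n a) ⟨D.cc n a, k⟩).1 D'.r0 ∈ Vx D' (m n) :=
        hX.mem n _ (hVx n a) _ (getD_mem h1 _)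
      rw [hS1]
      refine ⟨(mem_Rf (hX.mono n) h4 h3.2).1 h2, ?_⟩
      rw [en_eq (hX.mono n) h4 h3.2]
      exact (hτ n _ (hVx n a)).2 _ (hq n a k hk)
  have prop2 : ∀ n, ∀ a ∈ Gf D n, ∀ a' ∈ Gf D n, ∀ k, k < (X n (D.vt n a)).length →
      ∀ k', k' < (X n (D.vt n a')).length → S n a k = S n a' k' → a = a' ∧ k = k' := by
    intro n
    induction n with
    | zero =>
      intro a ha a' ha' k hk k' hk' _
      rw [hX.X0] at hk hk'
      have hk0 : k = 0 := by simpa using hk
      have hk0' : k' = 0 := by simpa using hk'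
      have e1 : D.rm 0 a = 0 := mem_Gf.1 ha
      have e2 : D.rm 0 a' = 0 := mem_Gf.1 ha'
      rw [rm_zero] at e1 e2
      exact ⟨by rw [e1, e2], by rw [hk0, hk0']⟩
    | succ n ih =>
      intro a ha a' ha' k hk k' hk' he
      obtain ⟨h1, h2⟩ := hτm n a k hk
      obtain ⟨h1', h2'⟩ := hτm n a' k' hk'
      have h3 := prop1 n (tr D n a) (tr_mem n a) (τ n (D.vt n a) ⟨D.cc n a, k⟩).1
        (by rwa [tr_vt])
      have h3' := prop1 n (tr D n a') (tr_mem n a') (τ n (D.vt n a') ⟨D.cc n a', k'⟩).1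
        (by rwa [tr_vt])
      rw [hS1, hS1] at he
      obtain ⟨h4, h5⟩ := mk_inj (mem_Gf.1 h3.1) (mem_Gf.1 h3'.1) he
      obtain ⟨h6, h7⟩ := ih _ (tr_mem n a) _ (tr_mem n a') _ (by rwa [tr_vt]) _ (by rwa [tr_vt]) h4
      have h8 : D.vt n a = D.vt n a' := by rw [← tr_vt (k := n) (w := a), h6, tr_vt]
      have h9 : (⟨D.cc n a, k⟩ : Σ _ : ℕ, ℕ) = ⟨D.cc n a', k'⟩ := by
        have h10 := hq n a k hk
        have h11 := hq n a' k' hk'
        rw [← h8] at h11 h7 h5
        apply (hτ n _ (hVx n a)).1.injOn h10 h11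
        exact Sigma.ext h7 (heq_of_eq h5)
      have h10 : D.cc n a = D.cc n a' := congrArg Sigma.fst h9
      have h11 : k = k' := by
        have := congrArg (fun p : Σ _ : ℕ, ℕ => p.2) h9
        exact this
      refine ⟨?_, h11⟩
      rw [← mk_tr_cc (mem_Gf.1 ha), ← mk_tr_cc (mem_Gf.1 ha'), h6, h10]
  -- the matrix units
  let ν : ℕ → ℕ → ℕ → (H →L[ℂ] H) := fun n a c =>
    ∑ k ∈ Finset.range (X n (D.vt n a)).length, mu D' b (m n) (S n a k) (S n c k)
  have hvS : ∀ n, ∀ a ∈ Gf D n, ∀ c ∈ Gf D n, D.vt n c = D.vt n a → ∀ k,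
      k < (X n (D.vt n a)).length → D'.vt (m n) (S n c k) = D'.vt (m n) (S n a k) := by
    intro n a ha c hc hac k hk
    rw [(prop1 n a ha k hk).2, (prop1 n c hc k (by rwa [hac])).2, hac]
  have hν : MUS D ν := by
    constructor
    · intro n a ha c hc hac
      change star (∑ k ∈ Finset.range (X n (D.vt n a)).length, _) =
        ∑ k ∈ Finset.range (X n (D.vt n c)).length, _
      rw [star_sum, hac]
      exact Finset.sum_congr rfl fun k _ => star_mu _ _ _
    · intro n a ha c hc d hd hac had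
      change (∑ k ∈ Finset.range (X n (D.vt n c)).length, _) *
        (∑ k ∈ Finset.range (X n (D.vt n a)).length, _) =
        ∑ k ∈ Finset.range (X n (D.vt n a)).length, _
      rw [hac, Finset.mul_sum]
      refine Finset.sum_congr rfl fun k hk => ?_
      rw [Finset.mem_range] at hk
      rw [Finset.sum_mul, Finset.sum_eq_single k]
      · exact mu_mul (by rw [hvS n a ha c hc hac k hk, hvS n a ha d hd had k hk])
          (hvS n a ha c hc hac k hk).symm
      · intro l hl hne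
        rw [Finset.mem_range] at hl
        apply mul_mu_zero (prop1 n c hc k (by rwa [hac])).1 (prop1 n c hc l (by rwa [hac])).1
        intro h
        exact hne (prop2 n c hc c hc k (by rwa [hac]) l (by rwa [hac]) h).2.symm
      · intro h
        exact absurd (Finset.mem_range.2 hk) h
    · intro n a ha c hc c' hc' d hd hac hdc hne
      change (∑ k ∈ Finset.range (X n (D.vt n c')).length, _) *
        (∑ k ∈ Finset.range (X n (D.vt n a)).length, _) = 0
      rw [Finset.mul_sum]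
      refine Finset.sum_eq_zero fun k hk => ?_
      rw [Finset.mem_range] at hk
      rw [Finset.sum_mul]
      refine Finset.sum_eq_zero fun l hl => ?_
      rw [Finset.mem_range] at hl
      apply mul_mu_zero (prop1 n c hc k (by rwa [hac])).1 (prop1 n c' hc' l hl).1
      intro h
      exact hne (prop2 n c hc c' hc' k (by rwa [hac]) l hl h).1
    · intro n a ha c hc hac
      -- the left side
      have e1 : ∀ k ∈ Finset.range (X n (D.vt n a)).length,
          mu D' b (m n) (S n a k) (S n c k) =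
          ∑ r ∈ Rf D' (m n) (m (n + 1)) ((X n (D.vt n a)).getD k D'.r0),
            mu D' b (m (n + 1)) (mk D' (m n) (S n a k) r) (mk D' (m n) (S n c k) r) := by
        intro k hk
        rw [Finset.mem_range] at hk
        have h4 : (X n (D.vt n a)).getD k D'.r0 ∈ Vx D' (m n) :=
          hX.mem n _ (hVx n a) _ (getD_mem hk _)
        exact mu_mono (hX.mono n) h4 (prop1 n a ha k hk).2
          ((hvS n a ha c hc hac k hk).trans (prop1 n a ha k hk).2)
      change ∑ k ∈ Finset.range (X n (D.vt n a)).length, mu D' b (m n) (S n a k) (S n c k) =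
        ∑ i ∈ Finset.range (D.deg n (D.vt n a)),
          ∑ k ∈ Finset.range (X (n + 1) (D.vt (n + 1) (mk D n a i))).length,
            mu D' b (m (n + 1)) (S (n + 1) (mk D n a i) k) (S (n + 1) (mk D n c i) k)
      rw [Finset.sum_congr rfl e1]
      have e2 := Finset.sum_sigma (Finset.range (X n (D.vt n a)).length)
        (fun k => Rf D' (m n) (m (n + 1)) ((X n (D.vt n a)).getD k D'.r0))
        (fun p : Σ _ : ℕ, ℕ => mu D' b (m (n + 1)) (mk D' (m n) (S n a p.1) p.2)
          (mk D' (m n) (S n c p.1) p.2))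
      rw [← e2]
      have e3 : ∀ i ∈ Finset.range (D.deg n (D.vt n a)),
          ∑ k ∈ Finset.range (X (n + 1) (D.vt (n + 1) (mk D n a i))).length,
            mu D' b (m (n + 1)) (S (n + 1) (mk D n a i) k) (S (n + 1) (mk D n c i) k) =
          ∑ k ∈ Finset.range (X (n + 1) (D.nx n (D.vt n a) i)).length,
            mu D' b (m (n + 1)) (mk D' (m n) (S n a (τ n (D.vt n a) ⟨i, k⟩).1)
                (τ n (D.vt n a) ⟨i, k⟩).2)
              (mk D' (m n) (S n c (τ n (D.vt n a) ⟨i, k⟩).1) (τ n (D.vt n a) ⟨i, k⟩).2) := by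
        intro i hi
        rw [Finset.mem_range] at hi
        have hi' : i < D.deg n (D.vt n c) := by rwa [hac]
        rw [mk_vt_succ hi]
        refine Finset.sum_congr rfl fun k _ => ?_
        have f1 : tr D n (mk D n a i) = a := mk_unique (mk_hd _ _ _).symm (mem_Gf.1 ha)
        have f2 : tr D n (mk D n c i) = c := mk_unique (mk_hd _ _ _).symm (mem_Gf.1 hc)
        rw [hS1, hS1, f1, f2, mk_vt, mk_vt, mk_cc hi, mk_cc hi', hac]
      rw [Finset.sum_congr rfl e3]
      have e4 := Finset.sum_sigma (Finset.range (D.deg n (D.vt n a)))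
        (fun i => Finset.range (X (n + 1) (D.nx n (D.vt n a) i)).length)
        (fun q : Σ _ : ℕ, ℕ => mu D' b (m (n + 1))
          (mk D' (m n) (S n a (τ n (D.vt n a) q).1) (τ n (D.vt n a) q).2)
          (mk D' (m n) (S n c (τ n (D.vt n a) q).1) (τ n (D.vt n a) q).2))
      rw [← e4]
      have hb := (hτ n _ (hVx n a)).1
      symm
      refine Finset.sum_nbij (τ n (D.vt n a)) (fun q hq => hb.mapsTo hq) hb.injOn hb.surjOn
        fun q _ => rfl
    · intro n a ha h0
      have hlen : 0 < (X n (D.vt n a)).length := by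
        by_contra hcon
        have h1 : X n (D.vt n a) = [] := List.length_eq_zero_iff.1 (by omega)
        have h2 := hX.sum n _ (hVx n a)
        rw [h1, List.map_nil, List.sum_nil] at h2
        have h3 := hfp _ (hS.mem n _ (hVx n a)) (hS.pos n _ (hVx n a)) root hA'
        rw [← h2, map_zero] at h3
        exact lt_irrefl _ h3
      have h1 := congrArg (fun T : H →L[ℂ] H => T (b (S n a 0))) h0
      change (∑ k ∈ Finset.range (X n (D.vt n a)).length,
        mu D' b (m n) (S n a k) (S n a k)) (b (S n a 0)) = 0 at h1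
      rw [sum_apply, Finset.sum_eq_single 0] at h1
      · rw [mu_apply (Hd.refl _ _) (Hd.refl _ _) (Tl.refl _ _)] at h1
        have h4 := norm_b b (S n a 0)
        rw [h1, norm_zero] at h4
        exact zero_ne_one h4
      · intro k hk hne
        rw [Finset.mem_range] at hk
        apply mu_apply_zero
        intro h'
        have h5 := eq_of_hd_Gf (prop1 n a ha 0 hlen).1 (prop1 n a ha k hk).1 h'.1
        exact hne (prop2 n a ha a ha 0 hlen k hk h5).2.symm
      · intro h'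
        exact absurd (Finset.mem_range.2 hlen) h'
  have hcl : IsClosed (AL D' b) := isClosed_closure
  have hmem : ∀ x, x ∈ AL D' b ↔ x ∈ ALs D' b := fun x => Iff.rfl
  obtain ⟨φ, hφ1, hφ2, hφ3⟩ := exists_hom (b := b) hν hcl (fun x hx y hy => by
      rw [hmem] at hx hy ⊢
      exact add_mem hx hy) (fun c x hx => by
      rw [hmem] at hx ⊢
      exact SMulMemClass.smul_mem c hx) (by rw [hmem]; exact zero_mem _) (by
      intro k a _ c _ _
      rw [hmem]
      exact sum_mem fun i _ => mu_mem_ALs _ _ _)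
  refine ⟨φ, hφ1, hφ2, ?_⟩
  have h0 : (0 : ℕ) ∈ Gf D 0 := mem_Gf.2 rfl
  have h1 := hφ3 0 0 h0 0 h0 rfl
  have h2 : ∀ D : BD Ge, mu D b 0 0 0 = 1 := by
    intro D
    have h3 := mu_one (D := D) (b := b) 0
    rw [h3, Gf, Finset.sum_singleton]
  have h3 : (⟨mu D b 0 0 0, mu_mem_ALs 0 0 0⟩ : ALs D b) = 1 := Subtype.ext (h2 D)
  rw [h3] at h1
  rw [h1]
  change ∑ k ∈ Finset.range (X 0 (D.vt 0 0)).length, mu D' b (m 0) (S 0 0 k) (S 0 0 k) = 1
  rw [hX.X0, hX.m0, List.length_singleton, Finset.sum_range_one, hS0, h2 D']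

end main

end Pool.Agent.K7.H47.BE
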