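import Mathlib

/-!
# Dyadic bases in general position
-/

set_option autoImplicit false

open Matrix Filter Topology

namespace Pool.Agent.K7.H47.BE

/-- dyadic rationals -/
def Dyq (x : ℚ) : Prop := ∃ k : ℕ, ∃ m : ℤ, x * 2 ^ k = m

lemma Dyq.zero : Dyq 0 := ⟨0, 0, by simp⟩
lemma Dyq.one : Dyq 1 := ⟨0, 1, by simp⟩
lemma Dyq.neg {x : ℚ} (h : Dyq x) : Dyq (-x) := by
  obtain ⟨k, m, h⟩ := h
  exact ⟨k, -m, by push_cast; rw [← h]; ring⟩
lemma Dyq.add {x y : ℚ} (hx : Dyq x) (hy : Dyq y) : Dyq (x + y) := by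
  obtain ⟨k, m, h⟩ := hx
  obtain ⟨k', m', h'⟩ := hy
  refine ⟨k + k', m * 2 ^ k' + m' * 2 ^ k, ?_⟩
  push_cast
  rw [← h, ← h']
  ring
lemma Dyq.mul {x y : ℚ} (hx : Dyq x) (hy : Dyq y) : Dyq (x * y) := by
  obtain ⟨k, m, h⟩ := hx
  obtain ⟨k', m', h'⟩ := hy
  refine ⟨k + k', m * m', ?_⟩
  push_cast
  rw [← h, ← h']
  ring
lemma Dyq.sum {ι : Type*} (s : Finset ι) {f : ι → ℚ} (h : ∀ i ∈ s, Dyq (f i)) :
    Dyq (∑ i ∈ s, f i) := by
  classical
  induction s using Finset.induction_on with
  | empty => rw [Finset.sum_empty]; exact Dyq.zero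
  | insert i s hi ih =>
    rw [Finset.sum_insert hi]
    exact (h i (Finset.mem_insert_self i s)).add (ih fun j hj => h j (Finset.mem_insert_of_mem hj))

lemma exists_dyq (x : ℚ) {ε : ℚ} (hε : 0 < ε) : ∃ y, Dyq y ∧ |x - y| < ε := by
  obtain ⟨k, hk⟩ := exists_nat_gt (1 / ε)
  have h2 : (k : ℚ) < 2 ^ k := by exact_mod_cast Nat.lt_two_pow_self
  have h3 : (0 : ℚ) < 2 ^ k := by positivity
  refine ⟨(⌊x * 2 ^ k⌋ : ℚ) / 2 ^ k, ⟨k, ⌊x * 2 ^ k⌋, by field_simp⟩, ?_⟩
  have h4 := Int.floor_le (x * 2 ^ k)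
  have h5 := Int.lt_floor_add_one (x * 2 ^ k)
  have h6 : x - (⌊x * 2 ^ k⌋ : ℚ) / 2 ^ k = (x * 2 ^ k - ⌊x * 2 ^ k⌋) / 2 ^ k := by
    field_simp
  rw [h6, abs_of_nonneg (by apply div_nonneg <;> linarith), div_lt_iff₀ h3]
  have h7 : 1 < ε * 2 ^ k := by
    rw [div_lt_iff₀ hε] at hk
    nlinarith
  linarith

variable {N : Type} [Fintype N] [DecidableEq N]

/-- matrices with dyadic entries -/
def Dyd (P : Matrix N N ℚ) : Prop := ∀ i j, Dyq (P i j)

omit [DecidableEq N] in
lemma Dyd.mul {P Q : Matrix N N ℚ} (hP : Dyd P) (hQ : Dyd Q) : Dyd (P * Q) := by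
  intro i j
  rw [Matrix.mul_apply]
  exact Dyq.sum _ fun k _ => (hP i k).mul (hQ k j)

/-- the matrices which can be approximated by dyadic unimodular matrices up to positive scaling
of the rows -/
def Apr (A : Matrix N N ℚ) : Prop :=
  ∀ O : Set (Matrix N N ℚ), IsOpen O → A ∈ O → ∃ d : N → ℚ, (∀ i, 0 < d i) ∧
    ∃ P P' : Matrix N N ℚ, Dyd P ∧ Dyd P' ∧ P * P' = 1 ∧ diagonal d * P ∈ O

lemma apr_diag {x : N → ℚ} (hx : ∀ i, x i ≠ 0) : Apr (diagonal x) := by
  intro O _ hA
  refine ⟨fun i => |x i|, fun i => abs_pos.2 (hx i), diagonal fun i => (SignType.sign (x i) : ℚ),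
    diagonal fun i => (SignType.sign (x i) : ℚ), ?_, ?_, ?_, ?_⟩
  · intro i j
    rw [diagonal_apply]
    split_ifs
    · rcases lt_trichotomy (x i) 0 with h | h | h
      · rw [sign_neg h]
        exact Dyq.one.neg
      · exact absurd h (hx i)
      · rw [sign_pos h]
        exact Dyq.one
    · exact Dyq.zero
  · intro i j
    rw [diagonal_apply]
    split_ifs
    · rcases lt_trichotomy (x i) 0 with h | h | h
      · rw [sign_neg h]
        exact Dyq.one.neg
      · exact absurd h (hx i)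
      · rw [sign_pos h]
        exact Dyq.one
    · exact Dyq.zero
  · rw [diagonal_mul_diagonal, ← diagonal_one]
    congr 1
    funext i
    rcases lt_trichotomy (x i) 0 with h | h | h
    · rw [sign_neg h]; norm_num
    · exact absurd h (hx i)
    · rw [sign_pos h]; norm_num
  · rw [diagonal_mul_diagonal]
    have : (fun i => |x i| * (SignType.sign (x i) : ℚ)) = x := by
      funext i
      rcases lt_trichotomy (x i) 0 with h | h | h
      · rw [sign_neg h, abs_of_neg h]; simp
      · exact absurd h (hx i)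
      · rw [sign_pos h, abs_of_pos h]; simp
    rw [this]
    exact hA

omit [Fintype N] in
lemma dyd_transvection (i j : N) {c : ℚ} (hc : Dyq c) : Dyd (transvection i j c) := by
  intro a b
  unfold transvection
  rw [Matrix.add_apply, Matrix.one_apply, Matrix.single_apply]
  refine Dyq.add ?_ ?_
  · split_ifs
    · exact Dyq.one
    · exact Dyq.zero
  · split_ifs
    · exact hc
    · exact Dyq.zero

lemma apr_mul {A : Matrix N N ℚ} (hA : Apr A) (t : TransvectionStruct N ℚ) :
    Apr (A * t.toMatrix) := by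
  intro O hO hmem
  have hcont : Continuous fun q : Matrix N N ℚ × ℚ => q.1 * transvection t.i t.j q.2 := by
    refine continuous_fst.matrix_mul ?_
    refine continuous_matrix fun a b => ?_
    simp only [transvection, Matrix.add_apply, Matrix.single_apply]
    refine continuous_const.add ?_
    split_ifs
    · exact continuous_snd
    · exact continuous_const
  have h1 : (fun q : Matrix N N ℚ × ℚ => q.1 * transvection t.i t.j q.2) ⁻¹' O ∈ 𝓝 (A, t.c) :=
    (hO.preimage hcont).mem_nhds hmem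
  rw [nhds_prod_eq, Filter.mem_prod_iff] at h1
  obtain ⟨O1, hO1, C, hC, hsub⟩ := h1
  obtain ⟨O2, hO2, hO2o, hAO2⟩ := mem_nhds_iff.1 hO1
  obtain ⟨ε, hε, hball⟩ := Metric.mem_nhds_iff.1 hC
  obtain ⟨ε', hε', hlt⟩ := exists_rat_btwn hε
  obtain ⟨c, hc, hcd⟩ := exists_dyq t.c (ε := ε') (by exact_mod_cast hε')
  obtain ⟨d, hd, P, P', h2, h3, h4, h5⟩ := hA O2 hO2o hAO2
  refine ⟨d, hd, P * transvection t.i t.j c, transvection t.i t.j (-c) * P',
    h2.mul (dyd_transvection _ _ hc), (dyd_transvection _ _ hc.neg).mul h3, ?_, ?_⟩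
  · have h6 : transvection t.i t.j c * transvection t.i t.j (-c) = 1 := by
      rw [transvection_mul_transvection_same _ _ t.hij, add_neg_cancel, transvection_zero]
    calc P * transvection t.i t.j c * (transvection t.i t.j (-c) * P')
        = P * (transvection t.i t.j c * transvection t.i t.j (-c)) * P' := by
          simp only [Matrix.mul_assoc]
      _ = 1 := by rw [h6, Matrix.mul_one, h4]
  · have h6 : (diagonal d * P, c) ∈ O1 ×ˢ C := by
      refine ⟨hO2 h5, hball ?_⟩
      rw [Metric.mem_ball, dist_comm, Rat.dist_eq]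
      refine lt_trans ?_ hlt
      exact_mod_cast hcd
    have h7 := hsub h6
    have h8 : diagonal d * P * transvection t.i t.j c ∈ O := h7
    rw [Matrix.mul_assoc] at h8
    exact h8

lemma apr_prod {x : N → ℚ} (hx : ∀ i, x i ≠ 0) (L : List (TransvectionStruct N ℚ)) :
    Apr (diagonal x * (L.map TransvectionStruct.toMatrix).prod) := by
  induction L using List.reverseRecOn with
  | nil =>
    rw [List.map_nil, List.prod_nil, Matrix.mul_one]
    exact apr_diag hx
  | append_singleton L t ih =>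
    rw [List.map_append, List.prod_append, List.map_singleton, List.prod_singleton,
      ← Matrix.mul_assoc]
    exact apr_mul ih t

/-- moving a diagonal matrix through transvections -/
lemma comm_diag {y : N → ℚ} (hy : ∀ i, y i ≠ 0) (L : List (TransvectionStruct N ℚ)) :
    ∃ L' : List (TransvectionStruct N ℚ), (L.map TransvectionStruct.toMatrix).prod * diagonal y =
      diagonal y * (L'.map TransvectionStruct.toMatrix).prod := by
  induction L with
  | nil => exact ⟨[], by simp⟩
  | cons t L ih =>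
    obtain ⟨L', hL'⟩ := ih
    let t' : TransvectionStruct N ℚ := ⟨t.i, t.j, t.hij, t.c * y t.j / y t.i⟩
    refine ⟨t' :: L', ?_⟩
    have h1 : t.toMatrix * diagonal y = diagonal y * t'.toMatrix := by
      ext a b
      rw [Matrix.mul_diagonal, Matrix.diagonal_mul]
      change (transvection t.i t.j t.c) a b * y b =
        y a * (transvection t.i t.j (t.c * y t.j / y t.i)) a b
      unfold transvection
      rw [Matrix.add_apply, Matrix.add_apply, Matrix.one_apply, Matrix.single_apply,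
        Matrix.single_apply]
      by_cases h2 : a = b
      · subst h2
        rw [if_pos rfl, if_neg, if_neg]
        · ring
        · rintro ⟨h3, h4⟩
          exact t.hij (h3.trans h4.symm)
        · rintro ⟨h3, h4⟩
          exact t.hij (h3.trans h4.symm)
      · rw [if_neg h2]
        by_cases h3 : t.i = a ∧ t.j = b
        · rw [if_pos h3, if_pos h3, ← h3.1, ← h3.2]
          have := hy t.i
          field_simp
          ring
        · rw [if_neg h3, if_neg h3]
          ring
    rw [List.map_cons, List.prod_cons, List.map_cons, List.prod_cons, Matrix.mul_assoc, hL',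
      ← Matrix.mul_assoc, h1, Matrix.mul_assoc]

lemma apr_of_det {A : Matrix N N ℚ} (hA : A.det ≠ 0) : Apr A := by
  have h : ∃ x : N → ℚ, (∀ i, x i ≠ 0) ∧ ∃ L : List (TransvectionStruct N ℚ),
      A = diagonal x * (L.map TransvectionStruct.toMatrix).prod := by
    refine diagonal_transvection_induction_of_det_ne_zero
      (fun A => ∃ x : N → ℚ, (∀ i, x i ≠ 0) ∧ ∃ L : List (TransvectionStruct N ℚ),
        A = diagonal x * (L.map TransvectionStruct.toMatrix).prod) A hA ?_ ?_ ?_
    · intro x hx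
      rw [det_diagonal] at hx
      exact ⟨x, fun i => Finset.prod_ne_zero_iff.1 hx i (Finset.mem_univ i), [], by simp⟩
    · intro t
      exact ⟨fun _ => 1, fun _ => one_ne_zero, [t], by simp⟩
    · rintro A B _ _ ⟨x, hx, L, rfl⟩ ⟨y, hy, L', rfl⟩
      obtain ⟨L'', hL''⟩ := comm_diag hy L
      refine ⟨fun i => x i * y i, fun i => mul_ne_zero (hx i) (hy i), L'' ++ L', ?_⟩
      rw [List.map_append, List.prod_append, ← diagonal_mul_diagonal]
      calc _ = diagonal x * ((L.map TransvectionStruct.toMatrix).prod * diagonal y) *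
            (L'.map TransvectionStruct.toMatrix).prod := by simp only [Matrix.mul_assoc]
        _ = _ := by rw [hL'']; simp only [Matrix.mul_assoc]
  obtain ⟨x, hx, L, rfl⟩ := h
  exact apr_prod hx L

/-- **dyadic bases in general position** -/
theorem exists_gl (A : Matrix N N ℚ) (hA : A.det ≠ 0) (Z : Set N) (hZ : Z.Nonempty)
    (T : Finset (N → ℚ)) (hT : ∀ t ∈ T, ∀ z ∈ Z, 0 < (vecMul t A) z) :
    ∃ P P' : Matrix N N ℚ, Dyd P ∧ Dyd P' ∧ P * P' = 1 ∧ P' * P = 1 ∧
      (∀ x, ∀ z ∈ Z, 0 < (P * A) x z) ∧ ∀ t ∈ T, ∀ x, 0 < (vecMul t P') x := by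
  classical
  obtain ⟨z0, hz0⟩ := hZ
  let E : Matrix N N ℚ := fun x z => if x ∈ Z ∧ z ∉ Z then 1 else 0
  have hEE : E * E = 0 := by
    ext x z
    rw [Matrix.mul_apply, Matrix.zero_apply]
    refine Finset.sum_eq_zero fun y _ => ?_
    change (if x ∈ Z ∧ y ∉ Z then (1 : ℚ) else 0) * (if y ∈ Z ∧ z ∉ Z then (1 : ℚ) else 0) = 0
    by_cases hy : y ∈ Z
    · rw [if_neg (fun h => h.2 hy), zero_mul]
    · rw [if_neg (fun (h : y ∈ Z ∧ z ∉ Z) => hy h.1), mul_zero]
  have hAA : A * A⁻¹ = 1 := Matrix.mul_nonsing_inv A (isUnit_iff_ne_zero.2 hA)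
  have hAA' : A⁻¹ * A = 1 := Matrix.nonsing_inv_mul A (isUnit_iff_ne_zero.2 hA)
  -- choice of `K`
  have hK : ∀ᶠ K : ℚ in atTop, ∀ t ∈ T, ∀ x, 0 < (vecMul (vecMul t A) (1 + K • E)) x := by
    rw [Filter.eventually_all_finset]
    intro t ht
    rw [Filter.eventually_all]
    intro x
    have h1 : ∀ K : ℚ, (vecMul (vecMul t A) (1 + K • E)) x =
        (vecMul t A) x + K * (vecMul (vecMul t A) E) x := by
      intro K
      rw [Matrix.vecMul_add, Matrix.vecMul_one, Matrix.vecMul_smul]
      rfl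
    by_cases hx : x ∈ Z
    · filter_upwards with K
      rw [h1]
      have h2 : (vecMul (vecMul t A) E) x = 0 := by
        refine Finset.sum_eq_zero fun y _ => ?_
        change _ * (if y ∈ Z ∧ x ∉ Z then (1 : ℚ) else 0) = 0
        rw [if_neg (fun h => h.2 hx), mul_zero]
      rw [h2, mul_zero, add_zero]
      exact hT t ht x hx
    · have h2 : 0 < (vecMul (vecMul t A) E) x := by
        refine Finset.sum_pos' (fun y _ => ?_) ⟨z0, Finset.mem_univ _, ?_⟩
        · change 0 ≤ (vecMul t A) y * (if y ∈ Z ∧ x ∉ Z then (1 : ℚ) else 0)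
          by_cases hy : y ∈ Z
          · rw [if_pos ⟨hy, hx⟩, mul_one]
            exact (hT t ht y hy).le
          · rw [if_neg (fun h => hy h.1), mul_zero]
        · change 0 < (vecMul t A) z0 * (if z0 ∈ Z ∧ x ∉ Z then (1 : ℚ) else 0)
          rw [if_pos ⟨hz0, hx⟩, mul_one]
          exact hT t ht z0 hz0
      filter_upwards [Filter.eventually_gt_atTop (-(vecMul t A) x / (vecMul (vecMul t A) E) x)]
        with K hK
      rw [h1]
      rw [div_lt_iff₀ h2] at hK
      linarith
  obtain ⟨K, hK⟩ := hK.exists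
  let J : Matrix N N ℚ := fun _ z => if z ∈ Z then 1 else 0
  let Pe : ℚ → Matrix N N ℚ := fun ε => (1 - K • E + ε • J) * A⁻¹
  have hPe : Continuous Pe := by
    refine Continuous.matrix_mul ?_ continuous_const
    exact continuous_const.add (continuous_id.smul continuous_const)
  -- at zero
  have hinv : Pe 0 * (A * (1 + K • E)) = 1 := by
    change (1 - K • E + (0 : ℚ) • J) * A⁻¹ * (A * (1 + K • E)) = 1
    rw [zero_smul, add_zero]
    calc (1 - K • E) * A⁻¹ * (A * (1 + K • E))
        = (1 - K • E) * (A⁻¹ * A) * (1 + K • E) := by simp only [Matrix.mul_assoc]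
      _ = 1 - (K * K) • (E * E) := by
          rw [hAA', Matrix.mul_one, sub_mul, mul_add, mul_add, Matrix.one_mul, Matrix.one_mul,
            Matrix.mul_one, smul_mul_smul_comm]
          abel
      _ = 1 := by rw [hEE, smul_zero, sub_zero]
  have hdet0 : (Pe 0).det ≠ 0 := by
    intro h
    have := congrArg Matrix.det hinv
    rw [Matrix.det_mul, h, zero_mul, Matrix.det_one] at this
    exact zero_ne_one this
  have hinv2 : (Pe 0)⁻¹ = A * (1 + K • E) := Matrix.inv_eq_right_inv hinv
  have key : ∀ (t : N → ℚ) (Q : Matrix N N ℚ) (x : N), Q.det ≠ 0 →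
      (vecMul t Q⁻¹) x = (Q.det)⁻¹ * (vecMul t Q.adjugate) x := by
    intro t Q x _
    rw [Matrix.inv_def, Matrix.vecMul_smul, Ring.inverse_eq_inv']
    rfl
  have hpos0 : ∀ t ∈ T, ∀ x, 0 < (vecMul t (Pe 0).adjugate) x * (Pe 0).det := by
    intro t ht x
    have h1 := hK t ht x
    rw [Matrix.vecMul_vecMul, ← hinv2, key t (Pe 0) x hdet0] at h1
    have h2 : 0 < (Pe 0).det * (Pe 0).det := mul_self_pos.2 hdet0
    have h3 : (vecMul t (Pe 0).adjugate) x * (Pe 0).det =
        ((Pe 0).det)⁻¹ * (vecMul t (Pe 0).adjugate) x * ((Pe 0).det * (Pe 0).det) := by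
      field_simp
    rw [h3]
    exact mul_pos h1 h2
  have hcont : ∀ t : N → ℚ, ∀ x, Continuous fun Q : Matrix N N ℚ =>
      (vecMul t Q.adjugate) x * Q.det := by
    intro t x
    refine Continuous.mul ?_ (Continuous.matrix_det continuous_id)
    exact (continuous_apply x).comp
      (Continuous.matrix_vecMul continuous_const (Continuous.matrix_adjugate continuous_id))
  -- choice of `ε`
  have hε : ∀ᶠ ε : ℚ in 𝓝[>] 0, (Pe ε).det ≠ 0 ∧
      ∀ t ∈ T, ∀ x, 0 < (vecMul t (Pe ε).adjugate) x * (Pe ε).det := by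
    apply nhdsWithin_le_nhds
    refine Filter.Eventually.and ?_ ?_
    · have h1 : Continuous fun ε => (Pe ε).det := Continuous.matrix_det hPe
      exact h1.continuousAt.eventually_ne hdet0
    · rw [Filter.eventually_all_finset]
      intro t ht
      rw [Filter.eventually_all]
      intro x
      exact ((hcont t x).comp hPe).continuousAt.eventually (lt_mem_nhds (hpos0 t ht x))
  obtain ⟨ε, ⟨hdet, hpos⟩, hε0⟩ := (hε.and self_mem_nhdsWithin).exists
  have hε0' : 0 < ε := hε0
  -- the open set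
  let O : Set (Matrix N N ℚ) := {Q | (∀ x, ∀ z, z ∈ Z → 0 < (Q * A) x z) ∧
    ∀ t ∈ T, ∀ x, 0 < (vecMul t Q.adjugate) x * Q.det}
  have hO : IsOpen O := by
    have h1 : O = (⋂ x, ⋂ z, ⋂ (_ : z ∈ Z), {Q : Matrix N N ℚ | 0 < (Q * A) x z}) ∩
        ⋂ t ∈ T, ⋂ x, {Q : Matrix N N ℚ | 0 < (vecMul t Q.adjugate) x * Q.det} := by
      ext Q
      simp only [O, Set.mem_inter_iff, Set.mem_iInter, Set.mem_setOf_eq]
    rw [h1]
    refine IsOpen.inter ?_ ?_
    · refine isOpen_iInter_of_finite fun x => isOpen_iInter_of_finite fun z =>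
        isOpen_iInter_of_finite fun _ => ?_
      exact isOpen_lt continuous_const
        ((continuous_id.matrix_mul continuous_const).matrix_elem x z)
    · refine isOpen_biInter_finset fun t _ => isOpen_iInter_of_finite fun x => ?_
      exact isOpen_lt continuous_const (hcont t x)
  have hmem : Pe ε ∈ O := by
    refine ⟨fun x z hz => ?_, hpos⟩
    have h1 : Pe ε * A = 1 - K • E + ε • J := by
      change (1 - K • E + ε • J) * A⁻¹ * A = _
      rw [Matrix.mul_assoc, hAA', Matrix.mul_one]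
    rw [h1]
    change 0 < (1 : Matrix N N ℚ) x z - K * (if x ∈ Z ∧ z ∉ Z then (1 : ℚ) else 0) +
      ε * (if z ∈ Z then (1 : ℚ) else 0)
    rw [if_neg (fun h => h.2 hz), if_pos hz, Matrix.one_apply]
    split_ifs <;> linarith
  obtain ⟨d, hd, P, P', hP, hP', hPP, hPO⟩ := apr_of_det hdet O hO hmem
  have hPP' : P' * P = 1 := mul_eq_one_comm.1 hPP
  refine ⟨P, P', hP, hP', hPP, hPP', ?_, ?_⟩
  · intro x z hz
    have h1 := hPO.1 x z hz
    rw [Matrix.mul_assoc, Matrix.diagonal_mul] at h1
    exact (mul_pos_iff_of_pos_left (hd x)).1 h1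
  · intro t ht x
    have h1 := hPO.2 t ht x
    rw [Matrix.adjugate_mul_distrib, Matrix.adjugate_diagonal, ← Matrix.vecMul_vecMul,
      Matrix.vecMul_diagonal, Matrix.det_mul, Matrix.det_diagonal] at h1
    have hdetP : P.det ≠ 0 := by
      intro h
      rw [h, mul_zero, mul_zero] at h1
      exact lt_irrefl _ h1
    have h2 : P' = P⁻¹ := (Matrix.inv_eq_right_inv hPP).symm
    rw [h2, key t P x hdetP]
    have h3 : 0 < ∏ i ∈ Finset.univ.erase x, d i := Finset.prod_pos fun i _ => hd i
    have h4 : 0 < ∏ i, d i := Finset.prod_pos fun i _ => hd i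
    have h5 : 0 < (vecMul t P.adjugate) x * P.det := by
      by_contra hneg
      push Not at hneg
      have h6 : (vecMul t P.adjugate) x * (∏ i ∈ Finset.univ.erase x, d i) *
          ((∏ i, d i) * P.det) = ((vecMul t P.adjugate) x * P.det) *
          ((∏ i ∈ Finset.univ.erase x, d i) * ∏ i, d i) := by ring
      rw [h6] at h1
      have h7 := mul_nonpos_of_nonpos_of_nonneg hneg (mul_pos h3 h4).le
      linarith
    have h6 : (P.det)⁻¹ * (vecMul t P.adjugate) x =
        ((vecMul t P.adjugate) x * P.det) * ((P.det)⁻¹ * (P.det)⁻¹) := by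
      field_simp
    rw [h6]
    exact mul_pos h5 (mul_self_pos.2 (inv_ne_zero hdetP))

end Pool.Agent.K7.H47.BE
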