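import Mathlib
import Pool.Agent.TH723.AF.Comb

/-!
# The simple dimension group of a set of vertices

The generators of the group are `(v, false)` and `(v, true)` (the latter for `v ≠ root`).  The value
of `(v, false)` at a vertex `y` is `1` if `v` is not an ancestor of `y` and `2` if it is; the value
of `(v, true)` is the sum of the values of `(v, false)` and `(par v, false)`.  The coefficients of a
generator `i` are in `ℤ[1/2, 1/q i]`.
-/

set_option autoImplicit false

namespace Pool.Agent.K7.H47.BE

open Pool.Agent.TH723.AF (V root par dep ty par_root dep_par dep_zero par_iter_root par_iter_dep)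

/-- the generators -/
abbrev Ge := V × Bool

/-- the ambient vector space -/
abbrev GG := Ge →₀ ℚ

/-- `v` is an ancestor of `y`, or `y` itself -/
def Anc (v y : V) : Prop := ∃ j, par^[j] y = v

open Classical in
/-- the indicator function of the ancestors -/
noncomputable def ind (v y : V) : ℚ := if Anc v y then 1 else 0

/-- the value of a generator at a vertex -/
noncomputable def evg (i : Ge) (y : V) : ℚ :=
  if i.2 then (1 + ind i.1 y) + (1 + ind (par i.1) y) else 1 + ind i.1 y

/-- the evaluation at a vertex -/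
noncomputable def ev (y : V) : GG →ₗ[ℚ] ℚ := Finsupp.linearCombination ℚ (fun i => evg i y)

/-- the prime of a generator -/
noncomputable def q (i : Ge) : ℕ := Nat.nth Nat.Prime (2 * ty i.1 + (if i.2 then 2 else 1))

lemma q_prime (i : Ge) : (q i).Prime := Nat.prime_nth_prime _

lemma q_inj {i j : Ge} (h : q i = q j) : ty i.1 = ty j.1 ∧ i.2 = j.2 := by
  have h1 := Nat.nth_injective Nat.infinite_setOfPred_prime h
  rcases h2 : i.2 <;> rcases h3 : j.2 <;> simp only [h2, h3] at h1 ⊢
  · simp at h1 ⊢
    omega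
  · simp at h1
    omega
  · simp at h1
    omega
  · simp at h1 ⊢
    omega

lemma q_ne_two (i : Ge) : q i ≠ 2 := by
  intro h
  have h0 : Nat.nth Nat.Prime 0 = 2 := Nat.nth_prime_zero_eq_two
  rw [← h0] at h
  have h1 := Nat.nth_injective Nat.infinite_setOfPred_prime h
  split_ifs at h1 <;> omega

lemma q_pos (i : Ge) : 0 < q i := (q_prime i).pos

/-- the numbers in `ℤ[1/2, 1/q]` -/
def Dy (q : ℕ) (x : ℚ) : Prop := ∃ k n : ℕ, ∃ m : ℤ, x * (2 ^ k * (q : ℚ) ^ n) = m

lemma Dy.zero (q : ℕ) : Dy q 0 := ⟨0, 0, 0, by simp⟩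

lemma Dy.add {q : ℕ} {x y : ℚ} (hx : Dy q x) (hy : Dy q y) : Dy q (x + y) := by
  obtain ⟨k, n, m, h⟩ := hx
  obtain ⟨k', n', m', h'⟩ := hy
  refine ⟨k + k', n + n', m * (2 ^ k' * (q : ℤ) ^ n') + m' * (2 ^ k * (q : ℤ) ^ n), ?_⟩
  push_cast
  rw [← h, ← h']
  ring

lemma Dy.neg {q : ℕ} {x : ℚ} (hx : Dy q x) : Dy q (-x) := by
  obtain ⟨k, n, m, h⟩ := hx
  refine ⟨k, n, -m, ?_⟩
  push_cast
  rw [← h]
  ring

/-- the index set of the generators over `A` -/
def IA (A : Set V) : Set Ge := {i | i.1 ∈ A ∧ (i.2 = true → i.1 ≠ root)}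

/-- the group of the set `A` of vertices -/
def GA (A : Set V) : AddSubgroup GG where
  carrier := {a | ∀ i, (a i ≠ 0 → i ∈ IA A) ∧ Dy (q i) (a i)}
  zero_mem' := fun i => ⟨fun h => absurd rfl h, Dy.zero _⟩
  add_mem' := by
    intro a b ha hb i
    refine ⟨fun h => ?_, (ha i).2.add (hb i).2⟩
    by_contra h1
    have h2 : a i = 0 := by
      by_contra h2
      exact h1 ((ha i).1 h2)
    have h3 : b i = 0 := by
      by_contra h3
      exact h1 ((hb i).1 h3)
    apply h
    rw [Finsupp.add_apply, h2, h3, add_zero]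
  neg_mem' := by
    intro a ha i
    refine ⟨fun h => (ha i).1 ?_, (ha i).2.neg⟩
    intro h1
    apply h
    rw [Finsupp.neg_apply, h1, neg_zero]

lemma mem_GA {A : Set V} {a : GG} :
    a ∈ GA A ↔ ∀ i, (a i ≠ 0 → i ∈ IA A) ∧ Dy (q i) (a i) := Iff.rfl

/-- strict positivity -/
def SP (A : Set V) (a : GG) : Prop := ∀ y ∈ A, 0 < ev y a

lemma single_mem {A : Set V} {i : Ge} (hi : i ∈ IA A) {c : ℚ} (hc : Dy (q i) c) :
    Finsupp.single i c ∈ GA A := by
  classical
  intro j
  by_cases h : i = j
  · subst h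
    rw [Finsupp.single_eq_same]
    exact ⟨fun _ => hi, hc⟩
  · rw [Finsupp.single_apply, if_neg h]
    exact ⟨fun h' => absurd rfl h', Dy.zero _⟩

lemma ev_single (y : V) (i : Ge) (c : ℚ) : ev y (Finsupp.single i c) = c * evg i y := by
  unfold ev
  rw [Finsupp.linearCombination_single, smul_eq_mul]

/-! ### ancestors -/

lemma Anc.refl (v : V) : Anc v v := ⟨0, rfl⟩

lemma Anc.root (y : V) : Anc root y := ⟨dep y, par_iter_dep y le_rfl⟩

lemma dep_par_le (y : V) : dep (par y) ≤ dep y := by
  by_cases h : y = Pool.Agent.TH723.AF.root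
  · rw [h, par_root]
  · have := dep_par h
    omega

lemma dep_iter_le (j : ℕ) (y : V) : dep (par^[j] y) ≤ dep y := by
  induction j with
  | zero => exact le_rfl
  | succ j ih =>
    rw [Function.iterate_succ_apply']
    exact (dep_par_le _).trans ih

lemma Anc.dep_le {v y : V} (h : Anc v y) : dep v ≤ dep y := by
  obtain ⟨j, rfl⟩ := h
  exact dep_iter_le j y

lemma anc_succ {v y : V} : Anc v y ↔ v = y ∨ Anc v (par y) := by
  constructor
  · rintro ⟨j, hj⟩
    rcases j with _ | j
    · exact Or.inl hj.symm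
    · exact Or.inr ⟨j, hj⟩
  · rintro (rfl | ⟨j, hj⟩)
    · exact Anc.refl _
    · exact ⟨j + 1, hj⟩

lemma Anc.eq_of_dep {v y : V} (h : Anc v y) (h' : dep v = dep y) : v = y := by
  by_cases hy : y = Pool.Agent.TH723.AF.root
  · subst hy
    exact dep_zero h'
  · rcases anc_succ.1 h with h1 | h1
    · exact h1
    · have h2 := h1.dep_le
      have h3 := dep_par hy
      omega

lemma ind_of_lt {v y : V} (h : dep y < dep v) : ind v y = 0 := by
  unfold ind
  rw [if_neg]
  intro h'
  have := h'.dep_le
  omega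

open Classical in
lemma ind_of_eq {v y : V} (h : dep y = dep v) : ind v y = if v = y then 1 else 0 := by
  unfold ind
  by_cases h1 : v = y
  · subst h1
    rw [if_pos (Anc.refl _), if_pos rfl]
  · rw [if_neg h1, if_neg]
    intro h'
    exact h1 (h'.eq_of_dep h.symm)

open Classical in
lemma ind_par {v y : V} (h : dep y = dep v + 1) : ind v y = if v = par y then 1 else 0 := by
  have hy : y ≠ root := by
    rintro rfl
    have : dep root = 0 := rfl
    omega
  have h1 := dep_par hy
  have h2 : ind v y = ind v (par y) := by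
    unfold ind
    congr 1
    rw [anc_succ]
    apply propext
    constructor
    · rintro (h3 | h3)
      · subst h3
        omega
      · exact h3
    · exact Or.inr
  rw [h2, ind_of_eq (by omega)]

lemma ind_root (y : V) : ind root y = 1 := if_pos (Anc.root y)

lemma ind_nonneg (v y : V) : 0 ≤ ind v y := by
  unfold ind
  split_ifs <;> norm_num

/-! ### types -/

/-- the same level and the same label -/
lemma ty_dep {u v : V} (h : ty u = ty v) : dep u = dep v := by
  rcases u with p | ⟨p, κ⟩ <;> rcases v with p' | ⟨p', κ'⟩ <;> simp only [ty, dep] at h ⊢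
  · omega
  · omega
  · omega
  · have h1 : Nat.pair p.length (Encodable.encode κ) = Nat.pair p'.length (Encodable.encode κ') := by
      omega
    have h2 := Nat.pair_eq_pair.1 h1
    omega

lemma ty_nd {p : List ℤ} {v : V} (h : ty v = ty (.nd p)) : ∃ p', v = .nd p' ∧ p'.length = p.length := by
  rcases v with p' | ⟨p', κ'⟩
  · simp only [ty] at h
    exact ⟨p', rfl, by omega⟩
  · simp only [ty] at h
    omega

lemma ty_lab {p : List ℤ} {κ : Pool.Agent.H579R3.Epi.K} {v : V} (h : ty v = ty (.lab p κ)) :
    ∃ p', v = .lab p' κ := by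
  rcases v with p' | ⟨p', κ'⟩
  · simp only [ty] at h
    omega
  · simp only [ty] at h
    have h1 : Nat.pair p'.length (Encodable.encode κ') = Nat.pair p.length (Encodable.encode κ) := by
      omega
    have h2 := Nat.pair_eq_pair.1 h1
    have h3 : κ' = κ := Encodable.encode_injective h2.2
    exact ⟨p', by rw [h3]⟩

lemma ty_root {v : V} (h : ty v = ty root) : v = root := by
  obtain ⟨p', rfl, h1⟩ := ty_nd (p := []) h
  rw [List.length_nil, List.length_eq_zero_iff] at h1
  subst h1
  rfl

end Pool.Agent.K7.H47.BE
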