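import Pool.Agent.K7.H47.BE.Univ

/-!
# Simplicity
-/

set_option autoImplicit false

open scoped InnerProductSpace

namespace Pool.Agent.K7.H47.BE

open Pool.Agent.TH723.AF (op op_ext vec_ext inner_b norm_b op_apply op_of_some op_of_none inner_op
  inner_op_left op_mul star_op inner_op_symm Pj abs_re_inner_le chi chi_cont)

universe v

variable {V : Type} {D : BD V} {H : Type v} [NormedAddCommGroup H] [InnerProductSpace ℂ H]
  [CompleteSpace H] {b : HilbertBasis ℕ ℂ H}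

lemma mu_pj {k a : ℕ} : Pj (mu D b k a a) :=
  ⟨mu_mul rfl rfl, star_mu k a a⟩

lemma mem_of_close {J : Submodule ℂ (H →L[ℂ] H)} (hJ : IsClosed (J : Set (H →L[ℂ] H)))
    {e z : H →L[ℂ] H} (he : e * e = e) (hr : ∀ x ∈ J, x * e ∈ J) (hrz : ∀ x ∈ J, x * z ∈ J)
    (hz : z ∈ J) (hez : e * z = z) (hd : ‖e - z‖ ≤ 1 / 2) : e ∈ J := by
  have h1 : ∀ k : ℕ, ∃ j ∈ J, (e - z) ^ (k + 1) = e - j := by
    intro k
    induction k with
    | zero => exact ⟨z, hz, by rw [zero_add, pow_one]⟩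
    | succ k ih =>
      obtain ⟨j, hj, hj2⟩ := ih
      refine ⟨z + (j * e - j * z), J.add_mem hz (J.sub_mem (hr j hj) (hrz j hj)), ?_⟩
      rw [pow_succ, hj2, mul_sub, sub_mul, sub_mul, he, hez]
      abel
  choose j hj hj2 using h1
  have h2 : Filter.Tendsto (fun k => e - j k) Filter.atTop (nhds 0) := by
    have h3 : Filter.Tendsto (fun k : ℕ => (e - z) ^ (k + 1)) Filter.atTop (nhds 0) := by
      have h4 : Filter.Tendsto (fun k : ℕ => (e - z) ^ k) Filter.atTop (nhds 0) :=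
        tendsto_pow_atTop_nhds_zero_of_norm_lt_one (lt_of_le_of_lt hd (by norm_num))
      exact h4.comp (Filter.tendsto_add_atTop_nat 1)
    exact h3.congr hj2
  have h3 : Filter.Tendsto (fun k => e - (e - j k)) Filter.atTop (nhds (e - 0)) :=
    tendsto_const_nhds.sub h2
  rw [sub_zero] at h3
  refine hJ.mem_of_tendsto h3 (Filter.Eventually.of_forall fun k => ?_)
  rw [sub_sub_cancel]
  exact hj k

/-- the algebra of a full diagram is simple -/
theorem one_mem_of_ideal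
    (hfull : ∀ k, ∀ u ∈ Vx D k, ∀ v ∈ Vx D (k + 1), ∃ i < D.deg k u, D.nx k u i = v)
    {J : Submodule ℂ (H →L[ℂ] H)} (hJ : IsClosed (J : Set (H →L[ℂ] H)))
    (hle : ∀ x ∈ J, x ∈ ALs D b) (hid : ∀ a ∈ ALs D b, ∀ x ∈ J, a * x ∈ J ∧ x * a ∈ J)
    {x : H →L[ℂ] H} (hx : x ∈ J) (hx0 : x ≠ 0) : (1 : H →L[ℂ] H) ∈ J := by
  classical
  obtain ⟨w, hw⟩ : ∃ w, x (b w) ≠ 0 := by
    by_contra hcon
    push Not at hcon
    exact hx0 (op_ext b fun w => by rw [hcon w]; rfl)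
  set y := star x * x with hy
  have hyJ : y ∈ J := (hid _ (star_mem (hle x hx)) x hx).1
  set lam : ℝ := ‖x (b w)‖ ^ 2 with hlam
  have hlam0 : 0 < lam := by
    have := norm_pos_iff.2 hw
    positivity
  have hyw : ⟪b w, y (b w)⟫_ℂ = (lam : ℂ) := by
    rw [hy, mul_apply_eq_comp, ContinuousLinearMap.star_eq_adjoint,
      ContinuousLinearMap.adjoint_inner_right, inner_self_eq_norm_sq_to_K, hlam]
    push_cast
    rfl
  have hyA : y ∈ ALs D b := hle y hyJ
  obtain ⟨y', hy', hd⟩ := Metric.mem_closure_iff.1 hyA (lam / 4) (by positivity)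
  obtain ⟨m, hm⟩ := mem_FU.1 hy'
  rw [dist_eq_norm] at hd
  set n := max m w with hn
  have hwG : w ∈ Gf D n := mem_Gf.2 (rm_ev w n (le_max_right _ _))
  have hm' : y' ∈ F D b n := F_mono (le_max_left _ _) hm
  set e := mu D b n w w with he
  have hepj : Pj e := mu_pj
  have hen : ‖e‖ ≤ 1 := hepj.norm_le_one
  have heA : e ∈ ALs D b := mu_mem_ALs n w w
  have hc := corner hwG hwG rfl hm'
  rw [← he] at hc
  have h1 : ‖(lam : ℂ) • e - e * y * e‖ ≤ lam / 2 := by
    have h2 : (lam : ℂ) • e - e * y * e =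
        ((lam : ℂ) - ⟪b w, y' (b w)⟫_ℂ) • e - e * (y - y') * e := by
      rw [sub_smul, ← hc, mul_sub, sub_mul]
      abel
    rw [h2]
    have h3 : ‖((lam : ℂ) - ⟪b w, y' (b w)⟫_ℂ) • e‖ ≤ lam / 4 := by
      rw [norm_smul, ← hyw, ← inner_sub_right]
      have h4 : ‖⟪b w, y (b w) - y' (b w)⟫_ℂ‖ ≤ lam / 4 := by
        refine (norm_inner_le_norm _ _).trans ?_
        rw [norm_b, one_mul]
        have h5 := (y - y').le_opNorm (b w)
        rw [norm_b, mul_one] at h5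
        exact h5.trans hd.le
      calc ‖⟪b w, y (b w) - y' (b w)⟫_ℂ‖ * ‖e‖ ≤ lam / 4 * 1 :=
            mul_le_mul h4 hen (norm_nonneg _) (by positivity)
        _ = lam / 4 := mul_one _
    have h4 : ‖e * (y - y') * e‖ ≤ lam / 4 := by
      calc ‖e * (y - y') * e‖ ≤ ‖e * (y - y')‖ * ‖e‖ := norm_mul_le _ _
        _ ≤ (‖e‖ * ‖y - y'‖) * ‖e‖ := by gcongr; exact norm_mul_le _ _
        _ ≤ (1 * (lam / 4)) * 1 := by gcongr
        _ = lam / 4 := by ring
    calc _ ≤ ‖((lam : ℂ) - ⟪b w, y' (b w)⟫_ℂ) • e‖ + ‖e * (y - y') * e‖ := norm_sub_le _ _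
      _ ≤ lam / 4 + lam / 4 := add_le_add h3 h4
      _ = lam / 2 := by ring
  set z := ((lam : ℂ)⁻¹) • (e * y * e) with hz
  have hlamc : (lam : ℂ) ≠ 0 := by exact_mod_cast hlam0.ne'
  have hzJ : z ∈ J := J.smul_mem _ (hid e heA _ (hid e heA y hyJ).1).2
  have hzA : z ∈ ALs D b := hle z hzJ
  have hez : ‖e - z‖ ≤ 1 / 2 := by
    have h2 : e - z = ((lam : ℂ)⁻¹) • ((lam : ℂ) • e - e * y * e) := by
      rw [smul_sub, smul_smul, inv_mul_cancel₀ hlamc, one_smul]
    rw [h2, norm_smul, norm_inv, Complex.norm_real, Real.norm_of_nonneg hlam0.le]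
    rw [inv_mul_le_iff₀ hlam0]
    linarith
  have heJ : e ∈ J := by
    refine mem_of_close hJ hepj.mul (fun x hx => (hid e heA x hx).2)
      (fun x hx => (hid z hzA x hx).2) hzJ ?_ hez
    rw [hz, mul_smul_comm, ← mul_assoc, ← mul_assoc, hepj.mul]
  -- the next stage
  rw [mu_one (D := D) (b := b) (n + 1)]
  refine J.sum_mem fun c hcG => ?_
  have hwv : D.vt n w ∈ Vx D n := Finset.mem_image_of_mem _ hwG
  have hcv : D.vt (n + 1) c ∈ Vx D (n + 1) := Finset.mem_image_of_mem _ hcG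
  obtain ⟨i, hi, hiv⟩ := hfull n _ hwv _ hcv
  set a := mk D n w i with ha
  have haG : a ∈ Gf D (n + 1) := mem_Gf.2 (mk_rm_succ hi)
  have hav : D.vt (n + 1) a = D.vt (n + 1) c := by rw [ha, mk_vt_succ hi, hiv]
  have haJ : mu D b (n + 1) a a ∈ J := by
    have h2 : mu D b (n + 1) a a * e = mu D b (n + 1) a a := by
      rw [he, mu_succ (k := n) (a := w) (c := w) rfl, Finset.mul_sum, Finset.sum_eq_single i]
      · exact mu_mul rfl rfl
      · intro i' hi' hne
        rw [Finset.mem_range] at hi'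
        apply mul_mu_zero (mem_Gf.2 (mk_rm_succ hi')) haG
        intro h3
        exact hne (mk_inj (mem_Gf.1 hwG) (mem_Gf.1 hwG) h3).2
      · intro h3
        exact absurd (Finset.mem_range.2 hi) h3
    rw [← h2]
    exact (hid _ (mu_mem_ALs _ _ _) e heJ).1
  have h3 : mu D b (n + 1) c c =
      mu D b (n + 1) a c * (mu D b (n + 1) a a * mu D b (n + 1) c a) := by
    rw [mu_mul rfl hav.symm, mu_mul hav hav.symm]
  rw [h3]
  exact (hid _ (mu_mem_ALs _ _ _) _ (hid _ (mu_mem_ALs _ _ _) _ haJ).2).1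

end Pool.Agent.K7.H47.BE
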