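import Pool.Agent.K7.H47.BE.Stage
import Pool.Agent.K7.H47.BE.Simp

/-!
# Embeddings give strictly positive homomorphisms of the dimension groups
-/

set_option autoImplicit false

open scoped InnerProductSpace

namespace Pool.Agent.K7.H47.BE

open Pool.Agent.TH723.AF (V root par dep ty par_root dep_par dep_zero par_iter_root par_iter_dep
  op op_ext vec_ext inner_b norm_b op_apply op_of_some op_of_none inner_op
  inner_op_left op_mul star_op inner_op_symm Pj abs_re_inner_le)

/-! ### sums over the stages -/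

section push

variable {W : Type} {D : BD W} {M : Type*} [AddCommGroup M]

/-- the coefficients at the next stage -/
noncomputable def nxc (D : BD W) (m : ℕ) (c : W → ℤ) (y : W) : ℤ :=
  ∑ x ∈ Vx D m, c x * ((ed D m x y).card : ℤ)

lemma sum_nxc {γ : ℕ → W → M} (hγ : Comp D γ) (m : ℕ) (c : W → ℤ) :
    ∑ y ∈ Vx D (m + 1), nxc D m c y • γ (m + 1) y = ∑ x ∈ Vx D m, c x • γ m x := by
  classical
  have h1 : ∀ y ∈ Vx D (m + 1), nxc D m c y • γ (m + 1) y =
      ∑ x ∈ Vx D m, c x • ((ed D m x y).card • γ (m + 1) y) := by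
    intro y _
    unfold nxc
    rw [Finset.sum_smul]
    refine Finset.sum_congr rfl fun u _ => ?_
    rw [mul_smul, natCast_zsmul]
  rw [Finset.sum_congr rfl h1, Finset.sum_comm]
  refine Finset.sum_congr rfl fun u hu => ?_
  rw [← Finset.smul_sum]
  congr 1
  rw [hγ m u hu]
  rw [← Finset.sum_fiberwise_of_maps_to (t := Vx D (m + 1)) (g := D.nx m u)
    (fun i hi => nx_mem hu (Finset.mem_range.1 hi))]
  refine Finset.sum_congr rfl fun v _ => ?_
  unfold ed
  rw [← Finset.sum_const]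
  refine Finset.sum_congr rfl fun i hi => ?_
  rw [(Finset.mem_filter.1 hi).2]

lemma push {M' : Type*} [AddCommGroup M'] {γ : ℕ → W → M} {δ : ℕ → W → M'} (hγ : Comp D γ)
    (hδ : Comp D δ) {m m' : ℕ} (h : m ≤ m') (c : W → ℤ) : ∃ c' : W → ℤ, ∑ y ∈ Vx D m', c' y • γ m' y = ∑ x ∈ Vx D m, c x • γ m x ∧
      ∑ y ∈ Vx D m', c' y • δ m' y = ∑ x ∈ Vx D m, c x • δ m x := by
  induction m', h using Nat.le_induction with
  | base => exact ⟨c, rfl, rfl⟩
  | succ m' hm ih =>
    obtain ⟨c', h1, h2⟩ := ih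
    exact ⟨nxc D m' c', by rw [sum_nxc hγ, h1], by rw [sum_nxc hδ, h2]⟩

end push

/-! ### bounds for the evaluations -/

lemma ind_le_one (v y : V) : ind v y ≤ 1 := by
  unfold ind
  split_ifs <;> norm_num

lemma evg_bd (i : Ge) (y : V) : |evg i y| ≤ 4 := by
  have h1 := ind_nonneg i.1 y
  have h2 := ind_nonneg (par i.1) y
  have h3 := ind_le_one i.1 y
  have h4 := ind_le_one (par i.1) y
  unfold evg
  rw [abs_le]
  split_ifs <;> constructor <;> linarith

lemma ev_bd (a : GG) : ∃ k : ℕ, ∀ y, |ev y a| < k := by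
  obtain ⟨k, hk⟩ := exists_nat_gt (∑ i ∈ a.support, |a i| * 4)
  refine ⟨k, fun y => lt_of_le_of_lt ?_ hk⟩
  rw [ev_sum]
  refine (Finset.abs_sum_le_sum_abs _ _).trans (Finset.sum_le_sum fun i _ => ?_)
  rw [abs_mul]
  exact mul_le_mul_of_nonneg_left (evg_bd i y) (abs_nonneg _)

/-! ### the homomorphism -/

universe v

section

variable {H : Type v} [NormedAddCommGroup H] [InnerProductSpace ℂ H] [CompleteSpace H]
  {b : HilbertBasis ℕ ℂ H} {D D' : BD Ge} {β β' : ℕ → Ge → GG} {A A' : Set V}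

section im

variable (φ : ALs D b →⋆ₙₐ[ℂ] (H →L[ℂ] H))

open Classical in
/-- the image of an operator -/
noncomputable def im (T : H →L[ℂ] H) : H →L[ℂ] H := if h : T ∈ ALs D b then φ ⟨T, h⟩ else 0

variable {φ} {T T' : H →L[ℂ] H}

lemma im_of (h : T ∈ ALs D b) : im φ T = φ ⟨T, h⟩ := dif_pos h

lemma im_mem (hB : ∀ x, φ x ∈ AL D' b) (h : T ∈ ALs D b) : im φ T ∈ AL D' b := by
  rw [im_of h]
  exact hB _

lemma im_mul (h : T ∈ ALs D b) (h' : T' ∈ ALs D b) : im φ (T * T') = im φ T * im φ T' := by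
  rw [im_of h, im_of h', im_of (mul_mem h h')]
  exact map_mul φ ⟨T, h⟩ ⟨T', h'⟩

lemma im_add (h : T ∈ ALs D b) (h' : T' ∈ ALs D b) : im φ (T + T') = im φ T + im φ T' := by
  rw [im_of h, im_of h', im_of (add_mem h h')]
  exact map_add φ ⟨T, h⟩ ⟨T', h'⟩

lemma im_star (h : T ∈ ALs D b) : im φ (star T) = star (im φ T) := by
  rw [im_of h, im_of (star_mem h)]
  exact φ.map_star' ⟨T, h⟩

lemma im_zero : im φ 0 = 0 := by
  have h := im_add (φ := φ) (T := 0) (T' := 0) (zero_mem (ALs D b)) (zero_mem (ALs D b))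
  rw [add_zero] at h
  simpa using h

lemma im_pj (h : T ∈ ALs D b) (hp : Pj T) : Pj (im φ T) := by
  constructor
  · rw [← im_mul h h, hp.mul]
  · rw [← im_star h, hp.st]

lemma im_ne (hφ : Function.Injective φ) (h : T ∈ ALs D b) (h0 : T ≠ 0) : im φ T ≠ 0 := by
  rw [im_of h]
  intro h1
  apply h0
  have h3 : (⟨T, h⟩ : ALs D b) = 0 := hφ (by rw [h1, map_zero])
  exact congrArg Subtype.val h3

end im

variable (φ : ALs D b →⋆ₙₐ[ℂ] (H →L[ℂ] H)) (hφ : Function.Injective φ)
  (hB : ∀ x, φ x ∈ AL D' b) (hS : Sys A D β) (hS' : Sys A' D' β')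

variable (D' β') in
/-- the class of the image of a minimal projection -/
noncomputable def Kw (n w : ℕ) : GG := cls D' b β' (im φ (mu D b n w w))

include hB hS' in
lemma Kw_eq {n w w' : ℕ} (h : D.vt n w = D.vt n w') : Kw D' β' φ n w = Kw D' β' φ n w' := by
  have h1 := mu_mem_ALs (D := D) (b := b) n w w
  have h2 := mu_mem_ALs (D := D) (b := b) n w' w'
  have h3 := mu_mem_ALs (D := D) (b := b) n w w'
  refine cls_eqv hS'.comp (im_pj h1 mu_pj) (im_mem hB h1) (im_pj h2 mu_pj) (im_mem hB h2)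
    (v := im φ (mu D b n w w')) (im_mem hB h3) ?_ ?_
  · rw [← im_star h3, ← im_mul (star_mem h3) h3, star_mu, mu_mul h.symm h]
  · rw [← im_star h3, ← im_mul h3 (star_mem h3), star_mu, mu_mul h h.symm]

include hB hS' in
/-- sums over orthogonal minimal projections -/
lemma Kw_sum {n w : ℕ} (hw : w ∈ Gf D n) : Kw D' β' φ n w =
    ∑ i ∈ Finset.range (D.deg n (D.vt n w)), Kw D' β' φ (n + 1) (mk D n w i) := by
  have hdeg : ∀ i, i < D.deg n (D.vt n w) → mk D n w i ∈ Gf D (n + 1) := fun i hi =>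
    mem_Gf.2 (mk_rm_succ hi)
  have hS0 : ∀ m, m ≤ D.deg n (D.vt n w) →
      (∑ i ∈ Finset.range m, mu D b (n + 1) (mk D n w i) (mk D n w i)) ∈ ALs D b ∧
      Pj (∑ i ∈ Finset.range m, mu D b (n + 1) (mk D n w i) (mk D n w i)) ∧
      (∀ j, j < D.deg n (D.vt n w) → m ≤ j →
        (∑ i ∈ Finset.range m, mu D b (n + 1) (mk D n w i) (mk D n w i)) *
          mu D b (n + 1) (mk D n w j) (mk D n w j) = 0 ∧
        mu D b (n + 1) (mk D n w j) (mk D n w j) *
          (∑ i ∈ Finset.range m, mu D b (n + 1) (mk D n w i) (mk D n w i)) = 0) := by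
    intro m hm
    have hz : ∀ j, j < D.deg n (D.vt n w) → m ≤ j →
        (∑ i ∈ Finset.range m, mu D b (n + 1) (mk D n w i) (mk D n w i)) *
          mu D b (n + 1) (mk D n w j) (mk D n w j) = 0 ∧
        mu D b (n + 1) (mk D n w j) (mk D n w j) *
          (∑ i ∈ Finset.range m, mu D b (n + 1) (mk D n w i) (mk D n w i)) = 0 := by
      intro j hj hmj
      rw [Finset.sum_mul, Finset.mul_sum]
      constructor
      · refine Finset.sum_eq_zero fun i hi => ?_
        rw [Finset.mem_range] at hi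
        apply mul_mu_zero (hdeg j hj) (hdeg i (by omega))
        intro h
        have := (mk_inj (mem_Gf.1 hw) (mem_Gf.1 hw) h).2
        omega
      · refine Finset.sum_eq_zero fun i hi => ?_
        rw [Finset.mem_range] at hi
        apply mul_mu_zero (hdeg i (by omega)) (hdeg j hj)
        intro h
        have := (mk_inj (mem_Gf.1 hw) (mem_Gf.1 hw) h).2
        omega
    refine ⟨sum_mem fun i _ => mu_mem_ALs _ _ _, ?_, hz⟩
    constructor
    · rw [Finset.sum_mul]
      refine Finset.sum_congr rfl fun i hi => ?_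
      rw [Finset.mem_range] at hi
      rw [Finset.mul_sum, Finset.sum_eq_single i]
      · exact mu_mul rfl rfl
      · intro j hj hne
        rw [Finset.mem_range] at hj
        apply mul_mu_zero (hdeg j (by omega)) (hdeg i (by omega))
        intro h
        exact hne (mk_inj (mem_Gf.1 hw) (mem_Gf.1 hw) h).2
      · intro h
        exact absurd (Finset.mem_range.2 hi) h
    · rw [star_sum]
      exact Finset.sum_congr rfl fun i _ => star_mu _ _ _
  have h0 : Pj (0 : H →L[ℂ] H) := ⟨mul_zero _, star_zero _⟩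
  have h0A : (0 : H →L[ℂ] H) ∈ AL D' b := by
    have := hB 0
    rwa [map_zero] at this
  have hcls0 : cls D' b β' (0 : H →L[ℂ] H) = 0 := by
    have := cls_add hS'.comp h0 h0A h0 h0A h0 h0A (add_zero 0).symm
    simpa using this
  have key : ∀ m, m ≤ D.deg n (D.vt n w) →
      cls D' b β' (im φ (∑ i ∈ Finset.range m, mu D b (n + 1) (mk D n w i) (mk D n w i))) =
      ∑ i ∈ Finset.range m, Kw D' β' φ (n + 1) (mk D n w i) := by
    intro m
    induction m with
    | zero =>
      intro _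
      rw [Finset.sum_range_zero, Finset.sum_range_zero, im_zero, hcls0]
    | succ m ih =>
      intro hm
      obtain ⟨a1, a2, -⟩ := hS0 m (by omega)
      obtain ⟨c1, c2, -⟩ := hS0 (m + 1) hm
      have e1 := mu_mem_ALs (D := D) (b := b) (n + 1) (mk D n w m) (mk D n w m)
      rw [Finset.sum_range_succ (fun i => Kw D' β' φ (n + 1) (mk D n w i)), ← ih (by omega)]
      refine cls_add hS'.comp (im_pj c1 c2) (im_mem hB c1) (im_pj a1 a2) (im_mem hB a1)
        (im_pj e1 mu_pj) (im_mem hB e1) ?_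
      rw [← im_add a1 e1, ← Finset.sum_range_succ]
  rw [← key _ le_rfl]
  unfold Kw
  rw [mu_succ (k := n) (a := w) (c := w) rfl]

open Classical in
variable (D' β') in
/-- the classes as functions of the vertices -/
noncomputable def KK (n : ℕ) (x : Ge) : GG :=
  if h : ∃ w ∈ Gf D n, D.vt n w = x then Kw D' β' φ n h.choose else 0

include hB hS' in
lemma KK_eq {n w : ℕ} (hw : w ∈ Gf D n) : KK D' β' φ n (D.vt n w) = Kw D' β' φ n w := by
  have h : ∃ w' ∈ Gf D n, D.vt n w' = D.vt n w := ⟨w, hw, rfl⟩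
  unfold KK
  rw [dif_pos h]
  exact Kw_eq φ hB hS' h.choose_spec.2

include hB hS' in
lemma KK_comp : Comp D (KK D' β' φ) := by
  intro n x hx
  obtain ⟨w, hw, rfl⟩ := mem_Vx.1 hx
  rw [KK_eq φ hB hS' hw, Kw_sum φ hB hS' hw]
  refine Finset.sum_congr rfl fun i hi => ?_
  rw [Finset.mem_range] at hi
  rw [← mk_vt_succ hi, KK_eq φ hB hS' (mem_Gf.2 (mk_rm_succ hi))]

include hφ hB hS' in
lemma KK_spec {n : ℕ} {x : Ge} (hx : x ∈ Vx D n) : KK D' β' φ n x ∈ GA A' ∧
    SP A' (KK D' β' φ n x) := by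
  obtain ⟨w, hw, rfl⟩ := mem_Vx.1 hx
  rw [KK_eq φ hB hS' hw]
  have h1 := mu_mem_ALs (D := D) (b := b) n w w
  have hne : mu D b n w w ≠ 0 := by
    intro h2
    have h3 := congrArg (fun T : H →L[ℂ] H => T (b w)) h2
    have e1 : mu D b n w w (b w) = b w := mu_apply (Hd.refl _ _) (Hd.refl _ _) (Tl.refl _ _)
    simp only [e1, zero_apply] at h3
    have h4 := norm_b b w
    rw [h3, norm_zero] at h4
    exact zero_ne_one h4
  obtain ⟨k, c, ⟨v, hv, hcv⟩, he⟩ := cls_ne (β := β') (im_pj h1 mu_pj) (im_mem hB h1)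
    (im_ne hφ h1 hne)
  unfold Kw
  rw [he]
  constructor
  · exact sum_mem fun v hv => nsmul_mem (hS'.mem k v hv) _
  · intro y hy
    rw [map_sum]
    refine Finset.sum_pos' (fun u hu => ?_) ⟨v, hv, ?_⟩
    · rw [map_nsmul]
      exact nsmul_nonneg (hS'.pos k u hu y hy).le _
    · rw [map_nsmul]
      exact nsmul_pos (hS'.pos k v hv y hy) hcv

/-- integral representations at stage `m` -/
def Rep (D : BD Ge) (β : ℕ → Ge → GG) (m : ℕ) (c : Ge → ℤ) (a : GG) : Prop :=
  a = ∑ x ∈ Vx D m, c x • β m x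

include hS in
lemma exists_rep (hA : root ∈ A) {a : GG} (ha : a ∈ GA A) :
    ∃ m c, Rep D β m c a := by
  obtain ⟨k, hk⟩ := ev_bd a
  have h1 : a + (k + 1) • E root ∈ GA A := add_mem ha (nsmul_mem (E_mem hA) _)
  have h2 : SP A (a + (k + 1) • E root) := by
    intro y _
    rw [map_add, map_nsmul, ev_E, ind_root, nsmul_eq_mul]
    have := (abs_lt.1 (hk y)).1
    push_cast
    have hk0 : (0 : ℚ) ≤ k := Nat.cast_nonneg k
    linarith
  have h3 : SP A ((k + 1) • E root) := by
    intro y _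
    rw [map_nsmul, ev_E, ind_root, nsmul_eq_mul]
    push_cast
    have hk0 : (0 : ℚ) ≤ k := Nat.cast_nonneg k
    linarith
  obtain ⟨m1, hm1⟩ := hS.exh _ h1 h2
  obtain ⟨m2, hm2⟩ := hS.exh _ (nsmul_mem (E_mem hA) (k + 1)) h3
  obtain ⟨c1, hc1⟩ := hm1 (max m1 m2) (le_max_left _ _)
  obtain ⟨c2, hc2⟩ := hm2 (max m1 m2) (le_max_right _ _)
  refine ⟨max m1 m2, fun x => (c1 x : ℤ) - (c2 x : ℤ), ?_⟩
  unfold Rep
  have h4 : a = (a + (k + 1) • E root) - (k + 1) • E root := by abel
  conv_lhs => rw [h4, hc1, hc2]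
  rw [← Finset.sum_sub_distrib]
  refine Finset.sum_congr rfl fun x _ => ?_
  rw [sub_smul, natCast_zsmul, natCast_zsmul]

include hS in
lemma rep_unique {m m' : ℕ} {c c' : Ge → ℤ} {a : GG} (h : Rep D β m c a) (h' : Rep D β m' c' a)
    {γ : ℕ → Ge → GG} (hγ : Comp D γ) :
    ∑ x ∈ Vx D m, c x • γ m x = ∑ x ∈ Vx D m', c' x • γ m' x := by
  obtain ⟨d, h1, h2⟩ := push hS.comp hγ (le_max_left m m') c
  obtain ⟨d', h1', h2'⟩ := push hS.comp hγ (le_max_right m m') c'
  rw [← h2, ← h2']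
  unfold Rep at h h'
  have h3 : ∑ x ∈ Vx D (max m m'), ((d x : ℚ) - (d' x : ℚ)) • β (max m m') x = 0 := by
    have h4 : ∀ x ∈ Vx D (max m m'), ((d x : ℚ) - (d' x : ℚ)) • β (max m m') x =
        d x • β (max m m') x - d' x • β (max m m') x := by
      intro x _
      rw [sub_smul, Int.cast_smul_eq_zsmul, Int.cast_smul_eq_zsmul]
    rw [Finset.sum_congr rfl h4, Finset.sum_sub_distrib, h1, h1', ← h, ← h', sub_self]
  have h4 := hS.ind _ (fun x => (d x : ℚ) - (d' x : ℚ)) h3
  refine Finset.sum_congr rfl fun x hx => ?_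
  have h5 : (d x : ℚ) = d' x := sub_eq_zero.1 (h4 x hx)
  have h6 : d x = d' x := by exact_mod_cast h5
  rw [h6]

open Classical in
variable (D' β β') in
/-- the homomorphism -/
noncomputable def kap (a : GG) : GG :=
  if h : ∃ q : ℕ × (Ge → ℤ), Rep D β q.1 q.2 a then
    ∑ x ∈ Vx D h.choose.1, h.choose.2 x • KK D' β' φ h.choose.1 x else 0

include hB hS hS' in
lemma kap_eq {m : ℕ} {c : Ge → ℤ} {a : GG} (h : Rep D β m c a) :
    kap D' β β' φ a = ∑ x ∈ Vx D m, c x • KK D' β' φ m x := by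
  have h1 : ∃ q : ℕ × (Ge → ℤ), Rep D β q.1 q.2 a := ⟨(m, c), h⟩
  unfold kap
  rw [dif_pos h1]
  exact rep_unique hS h1.choose_spec h (KK_comp φ hB hS')

include hφ hB hS hS' in
/-- an embedding gives a strictly positive homomorphism -/
theorem kap_hm (hA : root ∈ A) : Hm A A' (kap D' β β' φ) := by
  refine ⟨?_, ?_, ?_⟩
  · intro a ha a' ha'
    obtain ⟨m, c, h⟩ := exists_rep hS hA ha
    obtain ⟨m', c', h'⟩ := exists_rep hS hA ha'
    obtain ⟨d, h1, -⟩ := push hS.comp (KK_comp φ hB hS') (le_max_left m m') c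
    obtain ⟨d', h1', -⟩ := push hS.comp (KK_comp φ hB hS') (le_max_right m m') c'
    have e1 : Rep D β (max m m') d a := by
      unfold Rep
      rw [h1]
      exact h
    have e2 : Rep D β (max m m') d' a' := by
      unfold Rep
      rw [h1']
      exact h'
    have e3 : Rep D β (max m m') (fun x => d x + d' x) (a + a') := by
      unfold Rep at e1 e2 ⊢
      conv_lhs => rw [e1, e2]
      rw [← Finset.sum_add_distrib]
      exact Finset.sum_congr rfl fun x _ => (add_smul _ _ _).symm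
    rw [kap_eq φ hB hS hS' e1, kap_eq φ hB hS hS' e2, kap_eq φ hB hS hS' e3,
      ← Finset.sum_add_distrib]
    exact Finset.sum_congr rfl fun x _ => add_smul _ _ _
  · intro a ha
    obtain ⟨m, c, h⟩ := exists_rep hS hA ha
    rw [kap_eq φ hB hS hS' h]
    exact sum_mem fun x hx => zsmul_mem (KK_spec φ hφ hB hS' hx).1 _
  · intro a ha hpos
    obtain ⟨m0, hm0⟩ := hS.exh a ha hpos
    obtain ⟨c, hc⟩ := hm0 m0 le_rfl
    have h : Rep D β m0 (fun x => (c x : ℤ)) a := by
      unfold Rep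
      conv_lhs => rw [hc]
      exact Finset.sum_congr rfl fun x _ => (natCast_zsmul _ _).symm
    rw [kap_eq φ hB hS hS' h]
    obtain ⟨v, hv, hcv⟩ : ∃ v ∈ Vx D m0, c v ≠ 0 := by
      by_contra hcon
      push Not at hcon
      have h1 : a = 0 := by
        rw [hc]
        exact Finset.sum_eq_zero fun x hx => by rw [hcon x hx, zero_smul]
      have h2 := hpos root hA
      rw [h1, map_zero] at h2
      exact lt_irrefl _ h2
    intro y hy
    rw [map_sum]
    refine Finset.sum_pos' (fun u hu => ?_) ⟨v, hv, ?_⟩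
    · rw [natCast_zsmul, map_nsmul]
      exact nsmul_nonneg ((KK_spec φ hφ hB hS' hu).2 y hy).le _
    · rw [natCast_zsmul, map_nsmul]
      exact nsmul_pos ((KK_spec φ hφ hB hS' hv).2 y hy) hcv

end

end Pool.Agent.K7.H47.BE
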