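import Pool.Agent.K7.H47.BE.TMap
import Pool.Agent.K7.H47.BE.Simp
import Pool.Agent.TH723.AF.Basis
import Pool.Agent.TH723.AF.Tree

/-!
# The coding map
-/

set_option autoImplicit false

open scoped InnerProductSpace

namespace Pool.Agent.K7.H47.BE

open Pool.Agent.TH723.AF (V root par dep op VS nd_mem_VS par_mem_VS finite_dim_of_basis
  countable_of_orthonormal AnalyticRel exists_tree)
open Pool.Agent.H579R3.Epi (K IsAuto TLe)

universe u v

variable {H : Type v} [NormedAddCommGroup H] [InnerProductSpace ℂ H]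

/-- a separable infinite dimensional Hilbert space has a basis indexed by `ℕ` -/
theorem exists_basis [CompleteSpace H] [TopologicalSpace.SeparableSpace H]
    (hH : ¬ FiniteDimensional ℂ H) : Nonempty (HilbertBasis ℕ ℂ H) := by
  obtain ⟨w, b, -⟩ := exists_hilbertBasis ℂ H
  have hc : Countable w := countable_of_orthonormal b.orthonormal
  have hi : Infinite w := by
    by_contra h
    rw [not_infinite_iff_finite] at h
    exact hH (finite_dim_of_basis b)
  obtain ⟨e⟩ : Nonempty (ℕ ≃ w) := nonempty_equiv_of_countable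
  have h1 : Orthonormal ℂ (b ∘ e) := b.orthonormal.comp _ e.injective
  refine ⟨HilbertBasis.mk h1 ?_⟩
  rw [Set.range_comp, e.surjective.range_eq, Set.image_univ, b.dense_span]

variable [CompleteSpace H] (b : HilbertBasis ℕ ℂ H)

/-- the diagram of a labelled tree -/
noncomputable def DT (Λ : List ℤ → Set K) : BD Ge := DD (Yn (VS Λ))

/-- the code of the algebra of a labelled tree -/
noncomputable def cod (e : ℕ → ℕ × ℕ × ℕ) (Λ : List ℤ → Set K) (n : ℕ) : H →L[ℂ] H :=
  mu (DT Λ) b (e n).1 (e n).2.1 (e n).2.2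

variable {b}

lemma adjoin_cod {e : ℕ → ℕ × ℕ × ℕ} (he : Function.Surjective e) (Λ : List ℤ → Set K) :
    (NonUnitalStarAlgebra.adjoin ℂ (Set.range (cod b e Λ)) : Set (H →L[ℂ] H)) =
      (FU (DT Λ) b : Set (H →L[ℂ] H)) := by
  classical
  apply Set.Subset.antisymm
  · have h : NonUnitalStarAlgebra.adjoin ℂ (Set.range (cod b e Λ)) ≤
        (FU (DT Λ) b).toNonUnitalStarSubalgebra := by
      apply NonUnitalStarAlgebra.adjoin_le
      rintro _ ⟨n, rfl⟩
      exact mem_FU.2 ⟨_, mu_mem _ _ _⟩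
    exact h
  · intro T hT
    obtain ⟨k, hk⟩ := mem_FU.1 hT
    change T ∈ NonUnitalStarAlgebra.adjoin ℂ (Set.range (cod b e Λ))
    rw [F_sum hk]
    refine sum_mem fun a _ => sum_mem fun c _ => SMulMemClass.smul_mem _ ?_
    apply NonUnitalStarAlgebra.subset_adjoin ℂ _
    obtain ⟨n, hn⟩ := he (k, a, c)
    refine ⟨n, ?_⟩
    unfold cod
    rw [hn]

lemma closure_cod {e : ℕ → ℕ × ℕ × ℕ} (he : Function.Surjective e) (Λ : List ℤ → Set K) :
    closure (NonUnitalStarAlgebra.adjoin ℂ (Set.range (cod b e Λ)) : Set (H →L[ℂ] H)) =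
      AL (DT Λ) b := by
  rw [adjoin_cod he]
  rfl

lemma root_mem (Λ : List ℤ → Set K) : root ∈ VS Λ := nd_mem_VS Λ []

lemma sysT (Λ : List ℤ → Set K) : Sys (VS Λ) (DT Λ) (bs (Yn (VS Λ))) :=
  sys (root_mem Λ) fun v _ => par_mem_VS v

/-! ### measurability -/

lemma mu_DD_eq (A : Set V) (k a c : ℕ) :
    mu (DD (Yn A)) b k a c = mu (DD (Yn (Yn A k : Set V))) b k a c := by
  unfold mu
  rw [Ep_DD_congr]
  have h : Yn A k = Yn (Yn A k : Set V) k := by
    ext v
    rw [mem_Yn, mem_Yn]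
    constructor
    · rintro ⟨h1, h2⟩
      exact ⟨h1, Finset.mem_coe.2 (mem_Yn.2 ⟨h1, h2⟩)⟩
    · rintro ⟨h1, h2⟩
      exact ⟨h1, (mem_Yn.1 (Finset.mem_coe.1 h2)).2⟩
  exact fun i hi => Yn_congr h hi

lemma measurable_cod {X : Type u} [MeasurableSpace X] {Λ : X → List ℤ → Set K}
    (hΛ : ∀ p κ, MeasurableSet {x : X | κ ∈ Λ x p}) (e : ℕ → ℕ × ℕ × ℕ)
    (m : MeasurableSpace (H →L[ℂ] H)) (n : ℕ) : Measurable (fun x => cod b e (Λ x) n) := by
  classical
  have hV : ∀ v : V, MeasurableSet {x : X | v ∈ VS (Λ x)} := by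
    rintro (p | ⟨p, κ⟩)
    · have : {x : X | V.nd p ∈ VS (Λ x)} = Set.univ := by
        ext x
        exact ⟨fun _ => trivial, fun _ => trivial⟩
      rw [this]
      exact MeasurableSet.univ
    · exact hΛ p κ
  letI : MeasurableSpace (Finset V) := ⊤
  have h1 : Measurable fun x => Yn (VS (Λ x)) (e n).1 := by
    apply measurable_to_countable'
    intro F
    have h2 : (fun x => Yn (VS (Λ x)) (e n).1) ⁻¹' {F} =
        ⋂ v : V, {x | (cd v ≤ (e n).1 ∧ v ∈ VS (Λ x)) ↔ v ∈ F} := by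
      ext x
      rw [Set.mem_preimage, Set.mem_singleton_iff, Set.mem_iInter]
      constructor
      · intro h v
        rw [← h]
        exact mem_Yn.symm
      · intro h
        ext v
        rw [mem_Yn]
        exact h v
    rw [h2]
    refine MeasurableSet.iInter fun v => ?_
    by_cases hv : cd v ≤ (e n).1
    · by_cases hF : v ∈ F
      · have h3 : {x | (cd v ≤ (e n).1 ∧ v ∈ VS (Λ x)) ↔ v ∈ F} = {x | v ∈ VS (Λ x)} := by
          ext x
          simp [hv, hF]
        rw [h3]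
        exact hV v
      · have h3 : {x | (cd v ≤ (e n).1 ∧ v ∈ VS (Λ x)) ↔ v ∈ F} = {x | v ∈ VS (Λ x)}ᶜ := by
          ext x
          simp [hv, hF]
        rw [h3]
        exact (hV v).compl
    · have h3 : {x | (cd v ≤ (e n).1 ∧ v ∈ VS (Λ x)) ↔ v ∈ F} = {_x | v ∉ F} := by
        ext x
        simp [hv]
      rw [h3]
      exact MeasurableSet.const _
  have h2 : (fun x => cod b e (Λ x) n) = (fun F : Finset V =>
      mu (DD (Yn (F : Set V))) b (e n).1 (e n).2.1 (e n).2.2) ∘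
        fun x => Yn (VS (Λ x)) (e n).1 := by
    funext x
    exact mu_DD_eq (VS (Λ x)) _ _ _
  rw [h2]
  exact (measurable_from_top).comp h1

/-- every analytic quasi-order is the embeddability of unital simple AF algebras on a Borel family
of codes -/
theorem main [TopologicalSpace.SeparableSpace H] (hH : ¬ FiniteDimensional ℂ H)
    (m : MeasurableSpace (H →L[ℂ] H)) {X : Type u} [MeasurableSpace X] [StandardBorelSpace X]
    (R : X → X → Prop) (hrefl : ∀ x, R x x) (htrans : ∀ x y z, R x y → R y z → R x z)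
    (hR : AnalyticRel R) :
    ∃ (b : HilbertBasis ℕ ℂ H) (f : X → ℕ → (H →L[ℂ] H)) (D : X → BD Ge), Measurable f ∧
      (∀ x, closure (NonUnitalStarAlgebra.adjoin ℂ (Set.range (f x)) : Set (H →L[ℂ] H)) =
        AL (D x) b) ∧
      (∀ x k, ∀ u ∈ Vx (D x) k, ∀ v ∈ Vx (D x) (k + 1),
        ∃ i < (D x).deg k u, (D x).nx k u i = v) ∧
      (∀ x y, R x y → ∃ φ : ALs (D x) b →⋆ₙₐ[ℂ] (H →L[ℂ] H), Function.Injective φ ∧
        (∀ z, φ z ∈ AL (D y) b) ∧ φ 1 = 1) ∧
      ∀ x y, (∃ φ : ALs (D x) b →⋆ₙₐ[ℂ] (H →L[ℂ] H), Function.Injective φ ∧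
        ∀ z, φ z ∈ AL (D y) b) → R x y := by
  obtain ⟨b⟩ := exists_basis (H := H) hH
  obtain ⟨Λ, h1, h2, h3⟩ := exists_tree R hrefl htrans hR
  obtain ⟨e, he⟩ := exists_surjective_nat (ℕ × ℕ × ℕ)
  refine ⟨b, fun x => cod b e (Λ x), fun x => DT (Λ x), ?_, ?_, ?_, ?_, ?_⟩
  · exact measurable_pi_lambda _ fun n => measurable_cod h1 e m n
  · exact fun x => closure_cod he (Λ x)
  · exact fun x => (sysT (Λ x)).full
  · intro x y h
    obtain ⟨g, hg, hL⟩ := h2 x y h
    exact exists_emb b (sysT (Λ x)) (sysT (Λ y)) (root_mem _) (f := fG g)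
      (fun a ha => fG_mem hg hL ha) (fun a ha hpos => fG_pos hg ha hpos) (fG_root hg.nil)
      (root_mem _)
  · rintro x y ⟨φ, hφ, hφ2⟩
    exact h3 x y (kap_hm φ hφ hφ2 (sysT (Λ x)) (sysT (Λ y)) (root_mem _)).tree

end Pool.Agent.K7.H47.BE
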