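import Pool.Agent.K7.H47.BE.Cross

/-!
# Completely positive approximation
-/

set_option autoImplicit false

open scoped InnerProductSpace ComplexOrder Matrix

namespace Pool.Agent.K7.H47.BE

open Pool.Agent.TH723.AF (op op_ext vec_ext inner_b norm_b op_apply op_of_some op_of_none inner_op
  inner_op_left op_mul star_op inner_op_symm Pj abs_re_inner_le)

universe v

section cs

variable {H : Type v} [NormedAddCommGroup H] [InnerProductSpace ℂ H] (b : HilbertBasis ℕ ℂ H)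

omit b in
lemma inner_self_nn (z : H) : 0 ≤ ⟪z, z⟫_ℂ := by
  rw [inner_self_eq_norm_sq_to_K]
  have h : ((‖z‖ : ℂ)) ^ 2 = ((‖z‖ ^ 2 : ℝ) : ℂ) := by push_cast; rfl
  change 0 ≤ ((‖z‖ : ℂ)) ^ 2
  rw [h]
  exact Complex.zero_le_real.2 (sq_nonneg _)

lemma norm_sq_comb (G : Finset ℕ) (c : ℕ → ℂ) :
    ‖∑ a ∈ G, c a • b a‖ ^ 2 = ∑ a ∈ G, ‖c a‖ ^ 2 := by
  have h := b.orthonormal.inner_sum c c G
  rw [inner_self_eq_norm_sq_to_K] at h
  have h2 : ∑ i ∈ G, (starRingEnd ℂ) (c i) * c i = ((∑ a ∈ G, ‖c a‖ ^ 2 : ℝ) : ℂ) := by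
    push_cast
    refine Finset.sum_congr rfl fun i _ => ?_
    rw [RCLike.conj_mul]
    rfl
  rw [h2] at h
  have h3 : (((‖∑ a ∈ G, c a • b a‖ ^ 2 : ℝ)) : ℂ) = ((∑ a ∈ G, ‖c a‖ ^ 2 : ℝ) : ℂ) := by
    rw [← h]
    push_cast
    rfl
  exact_mod_cast h3

/-- a Cauchy-Schwarz inequality -/
lemma cs_fin (G : Finset ℕ) (x : H →L[ℂ] H) (η ξ : ℕ → H) :
    ‖∑ a ∈ G, ∑ c ∈ G, ⟪b c, x (b a)⟫_ℂ * ⟪η c, ξ a⟫_ℂ‖ ≤
      ‖x‖ * (√(∑ c ∈ G, ‖η c‖ ^ 2) * √(∑ a ∈ G, ‖ξ a‖ ^ 2)) := by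
  classical
  let W : Submodule ℂ H := Submodule.span ℂ ((G.image η ∪ G.image ξ : Finset H) : Set H)
  have hfd : FiniteDimensional ℂ W := FiniteDimensional.span_finset ℂ _
  have hη : ∀ c ∈ G, η c ∈ W := fun c hc => Submodule.subset_span (by
    rw [Finset.mem_coe, Finset.mem_union]
    exact Or.inl (Finset.mem_image_of_mem _ hc))
  have hξ : ∀ c ∈ G, ξ c ∈ W := fun c hc => Submodule.subset_span (by
    rw [Finset.mem_coe, Finset.mem_union]
    exact Or.inr (Finset.mem_image_of_mem _ hc))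
  let u := stdOrthonormalBasis ℂ W
  let P : Fin (Module.finrank ℂ W) → H := fun i => ∑ c ∈ G, ⟪(u i : H), η c⟫_ℂ • b c
  let Q : Fin (Module.finrank ℂ W) → H := fun i => ∑ a ∈ G, ⟪(u i : H), ξ a⟫_ℂ • b a
  have h1 : ∑ a ∈ G, ∑ c ∈ G, ⟪b c, x (b a)⟫_ℂ * ⟪η c, ξ a⟫_ℂ = ∑ i, ⟪P i, x (Q i)⟫_ℂ := by
    have h2 : ∀ a ∈ G, ∀ c ∈ G, ⟪b c, x (b a)⟫_ℂ * ⟪η c, ξ a⟫_ℂ =
        ∑ i, ⟪b c, x (b a)⟫_ℂ * (⟪η c, (u i : H)⟫_ℂ * ⟪(u i : H), ξ a⟫_ℂ) := by
      intro a ha c hc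
      rw [← Finset.mul_sum]
      congr 1
      have h3 := u.sum_inner_mul_inner ⟨η c, hη c hc⟩ ⟨ξ a, hξ a ha⟩
      simp only [Submodule.coe_inner] at h3
      exact h3.symm
    rw [Finset.sum_congr rfl fun a ha => Finset.sum_congr rfl fun c hc => h2 a ha c hc]
    rw [Finset.sum_congr rfl fun a _ => Finset.sum_comm, Finset.sum_comm]
    refine Finset.sum_congr rfl fun i _ => ?_
    change _ = ⟪∑ c ∈ G, ⟪(u i : H), η c⟫_ℂ • b c, x (∑ a ∈ G, ⟪(u i : H), ξ a⟫_ℂ • b a)⟫_ℂ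
    rw [map_sum, inner_sum]
    refine Finset.sum_congr rfl fun a _ => ?_
    rw [sum_inner]
    refine Finset.sum_congr rfl fun c _ => ?_
    rw [map_smul, inner_smul_left, inner_smul_right, inner_conj_symm]
    ring
  rw [h1]
  have hP : ∑ i, ‖P i‖ ^ 2 = ∑ c ∈ G, ‖η c‖ ^ 2 := by
    rw [Finset.sum_congr rfl fun i _ => norm_sq_comb b G fun c => ⟪(u i : H), η c⟫_ℂ,
      Finset.sum_comm]
    refine Finset.sum_congr rfl fun c hc => ?_
    have h3 := u.sum_sq_norm_inner_right ⟨η c, hη c hc⟩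
    simp only [Submodule.coe_inner] at h3
    exact h3
  have hQ : ∑ i, ‖Q i‖ ^ 2 = ∑ c ∈ G, ‖ξ c‖ ^ 2 := by
    rw [Finset.sum_congr rfl fun i _ => norm_sq_comb b G fun c => ⟪(u i : H), ξ c⟫_ℂ,
      Finset.sum_comm]
    refine Finset.sum_congr rfl fun c hc => ?_
    have h3 := u.sum_sq_norm_inner_right ⟨ξ c, hξ c hc⟩
    simp only [Submodule.coe_inner] at h3
    exact h3
  calc ‖∑ i, ⟪P i, x (Q i)⟫_ℂ‖ ≤ ∑ i, ‖⟪P i, x (Q i)⟫_ℂ‖ := norm_sum_le _ _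
    _ ≤ ∑ i, ‖x‖ * (‖P i‖ * ‖Q i‖) := by
        refine Finset.sum_le_sum fun i _ => ?_
        calc ‖⟪P i, x (Q i)⟫_ℂ‖ ≤ ‖P i‖ * ‖x (Q i)‖ := norm_inner_le_norm _ _
          _ ≤ ‖P i‖ * (‖x‖ * ‖Q i‖) := by gcongr; exact x.le_opNorm _
          _ = ‖x‖ * (‖P i‖ * ‖Q i‖) := by ring
    _ = ‖x‖ * ∑ i, ‖P i‖ * ‖Q i‖ := by rw [Finset.mul_sum]
    _ ≤ ‖x‖ * (√(∑ i, ‖P i‖ ^ 2) * √(∑ i, ‖Q i‖ ^ 2)) := by
        gcongr
        exact Real.sum_mul_le_sqrt_mul_sqrt _ _ _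
    _ = _ := by rw [hP, hQ]

end cs

section

variable {V : Type} {D : BD V} {H : Type v} [NormedAddCommGroup H] [InnerProductSpace ℂ H]
  [CompleteSpace H] {b : HilbertBasis ℕ ℂ H}

variable (D) in
/-- a reference path with the same end point -/
noncomputable def sr (m a : ℕ) : ℕ := rp D m (D.vt m a)

lemma sr_spec (m a : ℕ) : sr D m a ∈ Gf D m ∧ D.vt m (sr D m a) = D.vt m a :=
  rp_spec vt_mem_Vx

open Classical in
lemma mu_sr {m a c : ℕ} : mu D b m (sr D m c) c * mu D b m a (sr D m a) =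
    if D.vt m c = D.vt m a then mu D b m a c else 0 := by
  split_ifs with h
  · have h1 : sr D m c = sr D m a := by unfold sr; rw [h]
    rw [h1]
    exact mu_mul ((sr_spec m a).2.trans h.symm) (sr_spec m a).2.symm
  · apply mul_mu_zero (sr_spec m a).1 (sr_spec m c).1
    intro h1
    apply h
    rw [← (sr_spec (D := D) m c).2, ← h1, (sr_spec m a).2]

lemma inner_mu_left (m a c : ℕ) (x y : H) : ⟪mu D b m a c x, y⟫_ℂ = ⟪x, mu D b m c a y⟫_ℂ := by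
  rw [← star_mu, ContinuousLinearMap.star_eq_adjoint, ContinuousLinearMap.adjoint_inner_left]

lemma sum_norm_sr (m : ℕ) (ξ : H) : ∑ a ∈ Gf D m, ‖mu D b m a (sr D m a) ξ‖ ^ 2 = ‖ξ‖ ^ 2 := by
  have h1 : ∀ a ∈ Gf D m, ‖mu D b m a (sr D m a) ξ‖ ^ 2 = RCLike.re ⟪ξ, mu D b m a a ξ⟫_ℂ := by
    intro a _
    rw [← inner_self_eq_norm_sq (𝕜 := ℂ), inner_mu_left, ← mul_apply_eq_comp, mu_mul
      ((sr_spec m a).2) (sr_spec m a).2.symm]
  rw [Finset.sum_congr rfl h1, ← map_sum, ← inner_sum, ← sum_apply, ← mu_one,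
    ← inner_self_eq_norm_sq (𝕜 := ℂ)]
  rfl

/-- the conditional expectation onto the algebra of the stage `m` -/
noncomputable def ce (D : BD V) (b : HilbertBasis ℕ ℂ H) (m : ℕ) :
    (H →L[ℂ] H) →ₗ[ℂ] (H →L[ℂ] H) := Ps D b (fun k a c => mu D b k a c) m

lemma ce_eq {m : ℕ} {T : H →L[ℂ] H} (hT : T ∈ F D b m) : ce D b m T = T := by
  classical
  conv_rhs => rw [F_sum hT]
  rfl

lemma inner_ce (m : ℕ) (x : H →L[ℂ] H) (η ξ : H) : ⟪η, ce D b m x ξ⟫_ℂ =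
    ∑ a ∈ Gf D m, ∑ c ∈ Gf D m, ⟪b c, x (b a)⟫_ℂ *
      ⟪mu D b m c (sr D m c) η, mu D b m a (sr D m a) ξ⟫_ℂ := by
  classical
  change ⟪η, (∑ a ∈ Gf D m, ∑ c ∈ (Gf D m).filter (fun c => D.vt m c = D.vt m a),
    ⟪b c, x (b a)⟫_ℂ • mu D b m a c) ξ⟫_ℂ = _
  rw [sum_apply, inner_sum]
  refine Finset.sum_congr rfl fun a _ => ?_
  rw [sum_apply, inner_sum, Finset.sum_filter]
  refine Finset.sum_congr rfl fun c _ => ?_
  rw [inner_mu_left, ← mul_apply_eq_comp, mu_sr]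
  split_ifs with h
  · rw [smul_apply, inner_smul_right]
  · rw [zero_apply, inner_zero_right, mul_zero]

lemma ce_norm (m : ℕ) (x : H →L[ℂ] H) : ‖ce D b m x‖ ≤ ‖x‖ := by
  apply ContinuousLinearMap.opNorm_le_bound _ (norm_nonneg _)
  intro ξ
  have h1 := cs_fin b (Gf D m) x (fun c => mu D b m c (sr D m c) (ce D b m x ξ))
    (fun a => mu D b m a (sr D m a) ξ)
  rw [← inner_ce, sum_norm_sr, sum_norm_sr, Real.sqrt_sq (norm_nonneg _),
    Real.sqrt_sq (norm_nonneg _)] at h1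
  have h2 : ‖⟪ce D b m x ξ, ce D b m x ξ⟫_ℂ‖ = ‖ce D b m x ξ‖ * ‖ce D b m x ξ‖ := by
    rw [inner_self_eq_norm_sq_to_K, norm_pow, RCLike.norm_ofReal, abs_norm, pow_two]
  rw [h2] at h1
  by_cases h0 : ‖ce D b m x ξ‖ = 0
  · rw [h0]
    positivity
  · have h3 : 0 < ‖ce D b m x ξ‖ := lt_of_le_of_ne (norm_nonneg _) (Ne.symm h0)
    have h4 : ‖ce D b m x ξ‖ * ‖ce D b m x ξ‖ ≤ ‖ce D b m x ξ‖ * (‖x‖ * ‖ξ‖) := by
      calc _ ≤ ‖x‖ * (‖ce D b m x ξ‖ * ‖ξ‖) := h1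
        _ = _ := by ring
    exact le_of_mul_le_mul_left h4 h3

/-! ### the completely positive maps -/

/-- the enumeration of the paths -/
noncomputable def pe (D : BD V) (m : ℕ) : Fin (Gf D m).card ≃ Gf D m := (Gf D m).equivFin.symm

/-- the compression -/
noncomputable def cp (D : BD V) (b : HilbertBasis ℕ ℂ H) (m : ℕ) :
    (H →L[ℂ] H) →ₗ[ℂ] Matrix (Fin (Gf D m).card) (Fin (Gf D m).card) ℂ where
  toFun T := fun c a => ⟪b (pe D m c), T (b (pe D m a))⟫_ℂ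
  map_add' T T' := by
    funext c a
    exact inner_add_right _ _ _
  map_smul' z T := by
    funext c a
    exact inner_smul_right _ _ _

open Classical in
/-- the map back -/
noncomputable def pc (D : BD V) (b : HilbertBasis ℕ ℂ H) (m : ℕ) :
    Matrix (Fin (Gf D m).card) (Fin (Gf D m).card) ℂ →ₗ[ℂ] (H →L[ℂ] H) where
  toFun X := ∑ a, ∑ c, if D.vt m (pe D m c) = D.vt m (pe D m a) then
    X c a • mu D b m (pe D m a) (pe D m c) else 0
  map_add' X Y := by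
    rw [← Finset.sum_add_distrib]
    refine Finset.sum_congr rfl fun a _ => ?_
    rw [← Finset.sum_add_distrib]
    refine Finset.sum_congr rfl fun c _ => ?_
    split_ifs
    · rw [Matrix.add_apply, add_smul]
    · rw [add_zero]
  map_smul' z X := by
    rw [RingHom.id_apply, Finset.smul_sum]
    refine Finset.sum_congr rfl fun a _ => ?_
    rw [Finset.smul_sum]
    refine Finset.sum_congr rfl fun c _ => ?_
    split_ifs
    · rw [Matrix.smul_apply, smul_assoc]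
    · rw [smul_zero]

lemma pc_cp (m : ℕ) (T : H →L[ℂ] H) : pc D b m (cp D b m T) = ce D b m T := by
  classical
  change (∑ a, ∑ c, if D.vt m (pe D m c) = D.vt m (pe D m a) then
    ⟪b (pe D m c), T (b (pe D m a))⟫_ℂ • mu D b m (pe D m a) (pe D m c) else 0) =
    ∑ a ∈ Gf D m, ∑ c ∈ (Gf D m).filter (fun c => D.vt m c = D.vt m a),
      ⟪b c, T (b a)⟫_ℂ • mu D b m a c
  have h1 : ∀ f : ℕ → (H →L[ℂ] H), ∑ a, f (pe D m a) = ∑ a ∈ Gf D m, f a := by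
    intro f
    rw [← Finset.sum_coe_sort (Gf D m), ← Equiv.sum_comp (pe D m)]
  rw [h1 fun a => ∑ c, if D.vt m (pe D m c) = D.vt m a then
    ⟪b (pe D m c), T (b a)⟫_ℂ • mu D b m a (pe D m c) else 0]
  refine Finset.sum_congr rfl fun a _ => ?_
  rw [h1 fun c => if D.vt m c = D.vt m a then ⟪b c, T (b a)⟫_ℂ • mu D b m a c else 0,
    Finset.sum_filter]

lemma pc_mem (m : ℕ) (X : Matrix (Fin (Gf D m).card) (Fin (Gf D m).card) ℂ) :
    pc D b m X ∈ AL D b := by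
  classical
  change (∑ a, ∑ c, if D.vt m (pe D m c) = D.vt m (pe D m a) then
    X c a • mu D b m (pe D m a) (pe D m c) else 0) ∈ ALs D b
  refine sum_mem fun a _ => sum_mem fun c _ => ?_
  split_ifs
  · exact SMulMemClass.smul_mem _ (mu_mem_ALs _ _ _)
  · exact zero_mem _

lemma pe_inj {m : ℕ} {a c : Fin (Gf D m).card} (h : (pe D m a : ℕ) = pe D m c) : a = c :=
  (pe D m).injective (Subtype.ext h)

lemma cp_one (m : ℕ) : cp D b m 1 = 1 := by
  classical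
  ext c a
  change ⟪b (pe D m c), (1 : H →L[ℂ] H) (b (pe D m a))⟫_ℂ = _
  rw [one_apply_eq_self, inner_b, Matrix.one_apply]
  by_cases h : c = a
  · rw [h, if_pos rfl, if_pos rfl]
  · rw [if_neg h, if_neg fun h' => h (pe_inj h')]

lemma pc_one (m : ℕ) : pc D b m 1 = 1 := by
  have h1 : (1 : Matrix (Fin (Gf D m).card) (Fin (Gf D m).card) ℂ) = cp D b m 1 := (cp_one m).symm
  rw [h1, pc_cp]
  exact ce_eq (one_mem (F D b m))

lemma cp_pos (m k : ℕ) (a : Fin k → (H →L[ℂ] H)) (w : Fin k → Fin (Gf D m).card → ℂ) :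
    0 ≤ ∑ i, ∑ j, star (w i) ⬝ᵥ (cp D b m (star (a i) * a j)).mulVec (w j) := by
  let ζ : Fin k → H := fun i => ∑ d, w i d • b (pe D m d)
  have h1 : ∀ i j, star (w i) ⬝ᵥ (cp D b m (star (a i) * a j)).mulVec (w j) =
      ⟪a i (ζ i), a j (ζ j)⟫_ℂ := by
    intro i j
    have h2 : ⟪a i (ζ i), a j (ζ j)⟫_ℂ = ⟪ζ i, (star (a i) * a j) (ζ j)⟫_ℂ := by
      rw [mul_apply_eq_comp, ContinuousLinearMap.star_eq_adjoint,
        ContinuousLinearMap.adjoint_inner_right]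
    rw [h2]
    change ∑ c, star (w i) c * ∑ d, ⟪b (pe D m c), (star (a i) * a j) (b (pe D m d))⟫_ℂ * w j d = _
    change _ = ⟪∑ c, w i c • b (pe D m c), (star (a i) * a j) (∑ d, w j d • b (pe D m d))⟫_ℂ
    rw [sum_inner]
    refine Finset.sum_congr rfl fun c _ => ?_
    rw [inner_smul_left, map_sum, inner_sum]
    congr 1
    refine Finset.sum_congr rfl fun d _ => ?_
    rw [map_smul, inner_smul_right, mul_comm]
  rw [Finset.sum_congr rfl fun i _ => Finset.sum_congr rfl fun j _ => h1 i j]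
  have h3 : ∑ i, ∑ j, ⟪a i (ζ i), a j (ζ j)⟫_ℂ = ⟪∑ i, a i (ζ i), ∑ j, a j (ζ j)⟫_ℂ := by
    rw [sum_inner]
    exact Finset.sum_congr rfl fun i _ => (inner_sum _ _ _).symm
  rw [h3]
  exact inner_self_nn _

lemma pc_pos (m k : ℕ) (X : Fin k → Matrix (Fin (Gf D m).card) (Fin (Gf D m).card) ℂ)
    (ξ : Fin k → H) : 0 ≤ ∑ i, ∑ j, ⟪ξ i, pc D b m ((X i)ᴴ * X j) (ξ j)⟫_ℂ := by
  classical
  let B : Fin k → Fin (Gf D m).card → (H →L[ℂ] H) := fun j e =>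
    ∑ a, X j e a • mu D b m (pe D m a) (sr D m (pe D m a))
  have h1 : ∀ i j, pc D b m ((X i)ᴴ * X j) = ∑ e, star (B i e) * B j e := by
    intro i j
    have h2 : ∀ e, star (B i e) * B j e = ∑ a, ∑ c, (star (X i e c) * X j e a) •
        (if D.vt m (pe D m c) = D.vt m (pe D m a) then mu D b m (pe D m a) (pe D m c) else 0) := by
      intro e
      change star (∑ c, X i e c • mu D b m (pe D m c) (sr D m (pe D m c))) *
        (∑ a, X j e a • mu D b m (pe D m a) (sr D m (pe D m a))) = _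
      rw [star_sum, Finset.mul_sum]
      refine Finset.sum_congr rfl fun a _ => ?_
      rw [Finset.sum_mul]
      refine Finset.sum_congr rfl fun c _ => ?_
      rw [star_smul, star_mu, smul_mul_smul_comm, mu_sr]
    rw [Finset.sum_congr rfl fun e _ => h2 e]
    rw [Finset.sum_comm]
    change (∑ a, ∑ c, if D.vt m (pe D m c) = D.vt m (pe D m a) then
      ((X i)ᴴ * X j) c a • mu D b m (pe D m a) (pe D m c) else 0) = _
    refine Finset.sum_congr rfl fun a _ => ?_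
    rw [Finset.sum_comm]
    refine Finset.sum_congr rfl fun c _ => ?_
    rw [← Finset.sum_smul]
    split_ifs with h
    · rfl
    · rw [smul_zero]
  have h4 : ∑ i, ∑ j, ⟪ξ i, pc D b m ((X i)ᴴ * X j) (ξ j)⟫_ℂ =
      ∑ e, ⟪∑ i, B i e (ξ i), ∑ j, B j e (ξ j)⟫_ℂ := by
    have h5 : ∀ i j, ⟪ξ i, pc D b m ((X i)ᴴ * X j) (ξ j)⟫_ℂ =
        ∑ e, ⟪B i e (ξ i), B j e (ξ j)⟫_ℂ := by
      intro i j
      rw [h1, sum_apply, inner_sum]
      refine Finset.sum_congr rfl fun e _ => ?_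
      rw [mul_apply_eq_comp, ContinuousLinearMap.star_eq_adjoint,
        ContinuousLinearMap.adjoint_inner_right]
    rw [Finset.sum_congr rfl fun i _ => Finset.sum_congr rfl fun j _ => h5 i j]
    rw [Finset.sum_congr rfl fun i _ => Finset.sum_comm, Finset.sum_comm]
    refine Finset.sum_congr rfl fun e _ => ?_
    rw [sum_inner]
    exact Finset.sum_congr rfl fun i _ => (inner_sum _ _ _).symm
  rw [h4]
  refine Finset.sum_nonneg fun e _ => ?_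
  exact inner_self_nn _

/-- approximation -/
lemma exists_approx (S : Finset (H →L[ℂ] H)) (hS : ∀ a ∈ S, a ∈ AL D b) {ε : ℝ} (hε : 0 < ε) :
    ∃ m, ∀ a ∈ S, ‖pc D b m (cp D b m a) - a‖ < ε := by
  have h1 : ∀ᶠ m : ℕ in Filter.atTop, ∀ a ∈ S, ‖pc D b m (cp D b m a) - a‖ < ε := by
    rw [Filter.eventually_all_finset]
    intro a ha
    obtain ⟨y, hy, hd⟩ := Metric.mem_closure_iff.1 (hS a ha) (ε / 2) (by positivity)
    obtain ⟨n, hn⟩ := Set.mem_iUnion.1 hy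
    rw [dist_eq_norm] at hd
    filter_upwards [Filter.eventually_ge_atTop n] with m hm
    have hy' : y ∈ F D b m := F_mono hm hn
    have h2 : pc D b m (cp D b m a) - a = ce D b m (a - y) - (a - y) := by
      rw [pc_cp, map_sub, ce_eq hy']
      abel
    rw [h2]
    calc ‖ce D b m (a - y) - (a - y)‖ ≤ ‖ce D b m (a - y)‖ + ‖a - y‖ := norm_sub_le _ _
      _ ≤ ‖a - y‖ + ‖a - y‖ := by gcongr; exact ce_norm m _
      _ < ε := by linarith
  exact h1.exists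

end

end Pool.Agent.K7.H47.BE
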