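import Mathlib

/-!
# Bratteli diagrams and their paths

The paths of a Bratteli diagram (with one vertex at stage `0`) which eventually make the choice `0`
are coded by the natural numbers, through the mixed radix expansion.
-/

set_option autoImplicit false

namespace Pool.Agent.K7.H47.BE

/-- Bratteli diagrams: the vertex `v` at stage `n` has `deg n v` edges, and the edge `i` leads to
the vertex `nx n v i` at stage `n + 1` -/
structure BD (V : Type) where
  r0 : V
  deg : ℕ → V → ℕ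
  nx : ℕ → V → ℕ → V
  two_le : ∀ n v, 2 ≤ deg n v

variable {V : Type} (D : BD V)

/-- the vertex and the remainder of the path `w` at stage `n` -/
def BD.st (w : ℕ) : ℕ → V × ℕ
  | 0 => (D.r0, w)
  | n + 1 => (D.nx n (BD.st w n).1 ((BD.st w n).2 % D.deg n (BD.st w n).1),
      (BD.st w n).2 / D.deg n (BD.st w n).1)

/-- the vertex at stage `n` -/
def BD.vt (n w : ℕ) : V := (D.st w n).1

/-- the remainder at stage `n` -/
def BD.rm (n w : ℕ) : ℕ := (D.st w n).2

/-- the choice at stage `n` -/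
def BD.cc (n w : ℕ) : ℕ := D.rm n w % D.deg n (D.vt n w)

variable {D}

lemma deg_pos (n : ℕ) (v : V) : 0 < D.deg n v := lt_of_lt_of_le (by norm_num) (D.two_le n v)

lemma vt_zero (w : ℕ) : D.vt 0 w = D.r0 := rfl

lemma rm_zero (w : ℕ) : D.rm 0 w = w := rfl

lemma vt_succ (n w : ℕ) : D.vt (n + 1) w = D.nx n (D.vt n w) (D.cc n w) := rfl

lemma rm_succ (n w : ℕ) : D.rm (n + 1) w = D.rm n w / D.deg n (D.vt n w) := rfl

lemma cc_lt (n w : ℕ) : D.cc n w < D.deg n (D.vt n w) := Nat.mod_lt _ (deg_pos _ _)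

lemma rm_eq (n w : ℕ) : D.rm n w = D.cc n w + D.deg n (D.vt n w) * D.rm (n + 1) w :=
  (Nat.mod_add_div _ _).symm

lemma rm_le (n w : ℕ) : D.rm n w * 2 ^ n ≤ w := by
  induction n with
  | zero => rw [rm_zero]; omega
  | succ n ih =>
    refine le_trans ?_ ih
    have h1 := rm_eq (D := D) n w
    have h2 := D.two_le n (D.vt n w)
    have h3 : 2 * D.rm (n + 1) w ≤ D.rm n w := by
      rw [h1]
      have : 2 * D.rm (n + 1) w ≤ D.deg n (D.vt n w) * D.rm (n + 1) w := Nat.mul_le_mul_right _ h2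
      omega
    calc D.rm (n + 1) w * 2 ^ (n + 1) = (2 * D.rm (n + 1) w) * 2 ^ n := by ring
      _ ≤ D.rm n w * 2 ^ n := Nat.mul_le_mul_right _ h3

lemma rm_ev (w : ℕ) : ∀ n, w ≤ n → D.rm n w = 0 := by
  intro n hn
  have h1 := rm_le (D := D) n w
  have h2 : n < 2 ^ n := Nat.lt_two_pow_self
  by_contra h3
  have h4 : 1 ≤ D.rm n w := Nat.one_le_iff_ne_zero.2 h3
  have h5 : 1 * 2 ^ n ≤ D.rm n w * 2 ^ n := Nat.mul_le_mul_right _ h4
  omega

lemma rm_mono {n m w : ℕ} (h : n ≤ m) (h0 : D.rm n w = 0) : D.rm m w = 0 := by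
  induction m, h using Nat.le_induction with
  | base => exact h0
  | succ m hm ih => rw [rm_succ, ih, Nat.zero_div]

variable (D)

/-- same head -/
def Hd (k w a : ℕ) : Prop := ∀ n < k, D.cc n w = D.cc n a

/-- same tail -/
def Tl (k w x : ℕ) : Prop := D.vt k w = D.vt k x ∧ D.rm k w = D.rm k x

variable {D}

lemma Hd.refl (k w : ℕ) : Hd D k w w := fun _ _ => rfl
lemma Hd.symm {k w a : ℕ} (h : Hd D k w a) : Hd D k a w := fun n hn => (h n hn).symm
lemma Hd.trans {k u v w : ℕ} (h : Hd D k u v) (h' : Hd D k v w) : Hd D k u w :=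
  fun n hn => (h n hn).trans (h' n hn)
lemma Hd.mono {k j : ℕ} (hk : k ≤ j) {u v : ℕ} (h : Hd D j u v) : Hd D k u v :=
  fun n hn => h n (by omega)

lemma Hd.at_eq {k w a : ℕ} (h : Hd D k w a) : D.vt k w = D.vt k a := by
  induction k with
  | zero => rfl
  | succ k ih => rw [vt_succ, vt_succ, ih (h.mono (Nat.le_succ k)), h k (Nat.lt_succ_self k)]

lemma Tl.refl (k w : ℕ) : Tl D k w w := ⟨rfl, rfl⟩
lemma Tl.symm {k w a : ℕ} (h : Tl D k w a) : Tl D k a w := ⟨h.1.symm, h.2.symm⟩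
lemma Tl.trans {k u v w : ℕ} (h : Tl D k u v) (h' : Tl D k v w) : Tl D k u w :=
  ⟨h.1.trans h'.1, h.2.trans h'.2⟩

lemma Tl.cc_eq {k u v : ℕ} (h : Tl D k u v) : D.cc k u = D.cc k v := by
  unfold BD.cc
  rw [h.1, h.2]

lemma Tl.succ {k u v : ℕ} (h : Tl D k u v) : Tl D (k + 1) u v := by
  constructor
  · rw [vt_succ, vt_succ, h.1, h.cc_eq]
  · rw [rm_succ, rm_succ, h.1, h.2]

lemma Tl.mono {k j : ℕ} (hk : k ≤ j) {u v : ℕ} (h : Tl D k u v) : Tl D j u v := by
  induction j, hk using Nat.le_induction with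
  | base => exact h
  | succ j hj ih => exact ih.succ

lemma tl_pred {k u v : ℕ} (h1 : D.vt k u = D.vt k v) (h2 : D.cc k u = D.cc k v)
    (h3 : Tl D (k + 1) u v) : Tl D k u v := by
  refine ⟨h1, ?_⟩
  rw [rm_eq, rm_eq (w := v), h1, h2, h3.2]

lemma eq_of_hd_tl {k u v : ℕ} (h : Hd D k u v) (h' : Tl D k u v) : u = v := by
  induction k with
  | zero => exact h'.2
  | succ k ih =>
    have h1 := h.mono (Nat.le_succ k)
    exact ih h1 (tl_pred h1.at_eq (h k (Nat.lt_succ_self k)) h')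

lemma tl_iff {k u w : ℕ} :
    Tl D k u w ↔ D.vt k u = D.vt k w ∧ ∀ n, k ≤ n → D.cc n u = D.cc n w := by
  constructor
  · exact fun h => ⟨h.1, fun n hn => (h.mono hn).cc_eq⟩
  · rintro ⟨h1, h2⟩
    have h3 : ∀ n, k ≤ n → D.vt n u = D.vt n w := by
      intro n hn
      induction n, hn using Nat.le_induction with
      | base => exact h1
      | succ n hn ih => rw [vt_succ, vt_succ, ih, h2 n hn]
    have h4 : ∀ j, Tl D (k + j) u w → Tl D k u w := by
      intro j
      induction j with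
      | zero => exact id
      | succ j ih =>
        intro h5
        exact ih (tl_pred (h3 _ (by omega)) (h2 _ (by omega)) h5)
    apply h4 (u + w)
    exact ⟨h3 _ (by omega), by rw [rm_ev u _ (by omega), rm_ev w _ (by omega)]⟩

variable (D)

/-- the path with the head of `b` before stage `k` and the remainder `r` at stage `k` -/
def mk : ℕ → ℕ → ℕ → ℕ
  | 0, _, r => r
  | k + 1, b, r => mk k b (D.cc k b + D.deg k (D.vt k b) * r)

variable {D}

lemma mk_spec (k b r : ℕ) : Hd D k (mk D k b r) b ∧ D.rm k (mk D k b r) = r := by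
  induction k generalizing r with
  | zero => exact ⟨fun n hn => absurd hn (Nat.not_lt_zero n), rfl⟩
  | succ k ih =>
    obtain ⟨h1, h2⟩ := ih (D.cc k b + D.deg k (D.vt k b) * r)
    have h3 : D.cc k (mk D (k + 1) b r) = D.cc k b := by
      change D.rm k (mk D k b _) % D.deg k (D.vt k (mk D k b _)) = _
      rw [h2, h1.at_eq, Nat.add_mul_mod_self_left, Nat.mod_eq_of_lt (cc_lt k b)]
    refine ⟨?_, ?_⟩
    · intro n hn
      rcases Nat.lt_succ_iff_lt_or_eq.1 hn with h | h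
      · exact h1 n h
      · rw [h]
        exact h3
    · rw [rm_succ]
      change D.rm k (mk D k b _) / D.deg k (D.vt k (mk D k b _)) = _
      rw [h2, h1.at_eq, Nat.add_mul_div_left _ _ (deg_pos _ _), Nat.div_eq_of_lt (cc_lt k b),
        zero_add]

lemma mk_hd (k b r : ℕ) : Hd D k (mk D k b r) b := (mk_spec k b r).1

lemma mk_rm (k b r : ℕ) : D.rm k (mk D k b r) = r := (mk_spec k b r).2

lemma mk_vt (k b r : ℕ) : D.vt k (mk D k b r) = D.vt k b := (mk_hd k b r).at_eq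

lemma mk_unique {k b r u : ℕ} (h : Hd D k u b) (h' : D.rm k u = r) : mk D k b r = u := by
  refine eq_of_hd_tl ((mk_hd k b r).trans h.symm) ⟨?_, ?_⟩
  · rw [mk_vt, h.at_eq]
  · rw [mk_rm, h']

lemma mk_self (k w : ℕ) : mk D k w (D.rm k w) = w := mk_unique (Hd.refl _ _) rfl

lemma mk_cc {k b i : ℕ} (hi : i < D.deg k (D.vt k b)) : D.cc k (mk D k b i) = i := by
  unfold BD.cc
  rw [mk_rm, mk_vt, Nat.mod_eq_of_lt hi]

lemma mk_rm_succ {k b i : ℕ} (hi : i < D.deg k (D.vt k b)) : D.rm (k + 1) (mk D k b i) = 0 := by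
  rw [rm_succ, mk_rm, mk_vt, Nat.div_eq_of_lt hi]

lemma mk_vt_succ {k b i : ℕ} (hi : i < D.deg k (D.vt k b)) :
    D.vt (k + 1) (mk D k b i) = D.nx k (D.vt k b) i := by
  rw [vt_succ, mk_cc hi, mk_vt]

lemma mk_congr {k b b' : ℕ} (h : Hd D k b b') (r : ℕ) : mk D k b r = mk D k b' r :=
  mk_unique ((mk_hd k b' r).trans h.symm) (mk_rm _ _ _)

/-- the path with the head of `b` and the tail of `w` -/
lemma splice_tl {k b w : ℕ} (h : D.vt k b = D.vt k w) : Tl D k (mk D k b (D.rm k w)) w :=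
  ⟨(mk_vt _ _ _).trans h, mk_rm _ _ _⟩

variable (D)

/-- truncation -/
def tr (k w : ℕ) : ℕ := mk D k w 0

/-- the paths with remainder `0` at stage `k` -/
def Gf : ℕ → Finset ℕ
  | 0 => {0}
  | k + 1 => (Gf k).biUnion fun a => (Finset.range (D.deg k (D.vt k a))).image (mk D k a)

variable {D}

lemma hd_tr (k w : ℕ) : Hd D k (tr D k w) w := mk_hd _ _ _

lemma tr_vt (k w : ℕ) : D.vt k (tr D k w) = D.vt k w := mk_vt _ _ _

lemma tr_rm (k w : ℕ) : D.rm k (tr D k w) = 0 := mk_rm _ _ _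

lemma tr_eq_self {k w : ℕ} (h : D.rm k w = 0) : tr D k w = w := mk_unique (Hd.refl _ _) h

lemma mk_tr_cc {k w : ℕ} (h : D.rm (k + 1) w = 0) : mk D k (tr D k w) (D.cc k w) = w := by
  apply mk_unique
  · exact (hd_tr k w).symm
  · have := rm_eq (D := D) k w
    rw [h] at this
    rw [this, mul_zero, add_zero]

lemma mem_Gf {k w : ℕ} : w ∈ Gf D k ↔ D.rm k w = 0 := by
  induction k generalizing w with
  | zero => rw [Gf, Finset.mem_singleton, rm_zero]
  | succ k ih =>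
    rw [Gf, Finset.mem_biUnion]
    constructor
    · rintro ⟨a, -, h2⟩
      rw [Finset.mem_image] at h2
      obtain ⟨i, hi, rfl⟩ := h2
      rw [Finset.mem_range] at hi
      exact mk_rm_succ hi
    · intro h
      refine ⟨tr D k w, ih.2 (tr_rm k w), ?_⟩
      rw [Finset.mem_image]
      refine ⟨D.cc k w, ?_, mk_tr_cc h⟩
      rw [Finset.mem_range, tr_vt]
      exact cc_lt k w

lemma tr_mem (k w : ℕ) : tr D k w ∈ Gf D k := mem_Gf.2 (tr_rm k w)

lemma Gf_mono {k j : ℕ} (h : k ≤ j) : Gf D k ⊆ Gf D j := fun _ hw =>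
  mem_Gf.2 (rm_mono h (mem_Gf.1 hw))

lemma mk_inj {k a a' i i' : ℕ} (ha : D.rm k a = 0) (ha' : D.rm k a' = 0)
    (h : mk D k a i = mk D k a' i') : a = a' ∧ i = i' := by
  have h1 : Hd D k a a' := ((mk_hd k a i).symm.trans (by rw [h]; exact Hd.refl _ _)).trans
    (mk_hd k a' i')
  refine ⟨eq_of_hd_tl h1 ⟨h1.at_eq, by rw [ha, ha']⟩, ?_⟩
  rw [← mk_rm (D := D) k a i, h, mk_rm]

/-- sums over the paths of stage `k + 1` -/
lemma sum_Gf_succ {M : Type*} [AddCommMonoid M] (k : ℕ) (g : ℕ → M) :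
    ∑ w ∈ Gf D (k + 1), g w =
      ∑ a ∈ Gf D k, ∑ i ∈ Finset.range (D.deg k (D.vt k a)), g (mk D k a i) := by
  rw [Gf, Finset.sum_biUnion]
  · refine Finset.sum_congr rfl fun a ha => ?_
    rw [Finset.sum_image]
    intro i _ i' _ h
    exact (mk_inj (mem_Gf.1 ha) (mem_Gf.1 ha) h).2
  · intro a ha a' ha' hne
    rw [Function.onFun, Finset.disjoint_left]
    intro w h1 h2
    rw [Finset.mem_image] at h1 h2
    obtain ⟨i, _, h3⟩ := h1
    obtain ⟨i', _, h4⟩ := h2
    exact hne (mk_inj (mem_Gf.1 ha) (mem_Gf.1 ha') (h3.trans h4.symm)).1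

end Pool.Agent.K7.H47.BE
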