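import Pool.Agent.K7.H47.BE.Alg
import Pool.Agent.TH723.AF.Apx

/-!
# Ranks of projections
-/

set_option autoImplicit false

open scoped InnerProductSpace

namespace Pool.Agent.K7.H47.BE

open Pool.Agent.TH723.AF (op op_ext vec_ext inner_b norm_b op_apply op_of_some op_of_none inner_op
  inner_op_left op_mul star_op inner_op_symm Pj abs_re_inner_le)

universe v

variable {V : Type} (D : BD V) {H : Type v} [NormedAddCommGroup H] [InnerProductSpace ℂ H]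
  [CompleteSpace H] (b : HilbertBasis ℕ ℂ H)

/-- the projection onto the span of the paths with remainder `0` at the vertex `v` -/
noncomputable def PB (k : ℕ) (v : V) : H →L[ℂ] H := op b (Dp D k v 0 0)

variable {D} {b}

lemma PB_of_mem {k : ℕ} {v : V} {w : ℕ} (h : D.vt k w = v) (h' : D.rm k w = 0) :
    PB D b k v (b w) = b w :=
  op_of_some b (Dp_some h h' (Hd.refl _ _) h')

lemma PB_of_notMem {k : ℕ} {v : V} {w : ℕ} (h : ¬ (D.vt k w = v ∧ D.rm k w = 0)) :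
    PB D b k v (b w) = 0 :=
  op_of_none b (Dp_none h)

lemma PB_inner (k : ℕ) (v : V) (x y : H) : ⟪PB D b k v x, y⟫_ℂ = ⟪x, PB D b k v y⟫_ℂ := by
  unfold PB
  rw [inner_op_symm, Dp_symm]

lemma PB_comm {k : ℕ} {T : H →L[ℂ] H} (hT : T ∈ F D b k) (v : V) (x : H) :
    T (PB D b k v x) = PB D b k v (T x) :=
  congrArg (fun T : H →L[ℂ] H => T x) (hT k v 0 0 le_rfl)

variable (D b)

/-- the range of the projection `p` in the span of the paths at `v` -/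
def U (k : ℕ) (v : V) (p : H →L[ℂ] H) : Submodule ℂ H where
  carrier := {x | PB D b k v x = x ∧ p x = x}
  add_mem' := by
    rintro x y ⟨h1, h2⟩ ⟨h3, h4⟩
    exact ⟨by rw [map_add, h1, h3], by rw [map_add, h2, h4]⟩
  zero_mem' := ⟨map_zero _, map_zero _⟩
  smul_mem' := by
    rintro c x ⟨h1, h2⟩
    exact ⟨by rw [map_smul, h1], by rw [map_smul, h2]⟩

/-- the rank of `p` at `v` in stage `k` -/
noncomputable def rank (k : ℕ) (v : V) (p : H →L[ℂ] H) : ℕ := Module.finrank ℂ (U D b k v p)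

variable {D b}

lemma mem_U {k : ℕ} {v : V} {p : H →L[ℂ] H} {x : H} :
    x ∈ U D b k v p ↔ PB D b k v x = x ∧ p x = x := Iff.rfl

variable {k : ℕ} {p : H →L[ℂ] H}

lemma U_coef {v : V} {x : H} (hx : x ∈ U D b k v p) {w : ℕ}
    (h : ⟪b w, x⟫_ℂ ≠ 0) : w ∈ Gf D k ∧ D.vt k w = v := by
  by_contra h2
  have h3 : ¬ (D.vt k w = v ∧ D.rm k w = 0) := fun h4 => h2 ⟨mem_Gf.2 h4.2, h4.1⟩
  rw [← hx.1, ← PB_inner, PB_of_notMem h3, inner_zero_left] at h
  exact h rfl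

lemma U_finite (_hp : p ∈ F D b k) (v : V) : FiniteDimensional ℂ (U D b k v p) := by
  let φ : U D b k v p →ₗ[ℂ] (Gf D k → ℂ) :=
    { toFun := fun x w => ⟪b w.1, x.1⟫_ℂ
      map_add' := by
        intro x y
        funext w
        exact inner_add_right _ _ _
      map_smul' := by
        intro c x
        funext w
        exact inner_smul_right _ _ _ }
  apply FiniteDimensional.of_injective φ
  intro x y h
  apply Subtype.ext
  apply vec_ext b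
  intro w
  by_cases hw : w ∈ Gf D k
  · exact congrFun h ⟨w, hw⟩
  · have h1 : ⟪b w, x.1⟫_ℂ = 0 := by
      by_contra h1
      exact hw (U_coef x.2 h1).1
    have h2 : ⟪b w, y.1⟫_ℂ = 0 := by
      by_contra h2
      exact hw (U_coef y.2 h2).1
    rw [h1, h2]

lemma app_mem_U (hp : p ∈ F D b k) (hpj : Pj p) {w : ℕ} (hw : w ∈ Gf D k) :
    p (b w) ∈ U D b k (D.vt k w) p := by
  refine ⟨?_, hpj.app _⟩
  rw [← PB_comm hp, PB_of_mem rfl (mem_Gf.1 hw)]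

open Classical in
lemma rank_eq_complex (hp : p ∈ F D b k) (hpj : Pj p) (v : V) :
    (rank D b k v p : ℂ) = ∑ w ∈ (Gf D k).filter (fun w => D.vt k w = v),
      ⟪b w, p (b w)⟫_ℂ := by
  have hfd := U_finite hp v
  let u := stdOrthonormalBasis ℂ (U D b k v p)
  have h1 : ∀ w ∈ (Gf D k).filter (fun w => D.vt k w = v),
      ⟪b w, p (b w)⟫_ℂ = ∑ i, ⟪(u i : H), b w⟫_ℂ * ⟪b w, (u i : H)⟫_ℂ := by
    intro w hw
    rw [Finset.mem_filter] at hw
    have hU := app_mem_U hp hpj hw.1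
    rw [hw.2] at hU
    have h2 := congrArg (fun x : U D b k v p => (x : H)) (u.sum_repr' ⟨p (b w), hU⟩)
    simp only [Submodule.coe_sum, Submodule.coe_smul, Submodule.coe_inner] at h2
    conv_lhs => rw [← h2]
    rw [inner_sum]
    refine Finset.sum_congr rfl fun i _ => ?_
    rw [inner_smul_right]
    congr 1
    rw [← hpj.inner, (u i).2.2]
  rw [Finset.sum_congr rfl h1, Finset.sum_comm]
  have h3 : ∀ i, ∑ w ∈ (Gf D k).filter (fun w => D.vt k w = v),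
      ⟪(u i : H), b w⟫_ℂ * ⟪b w, (u i : H)⟫_ℂ = 1 := by
    intro i
    have h4 := b.hasSum_inner_mul_inner (u i : H) (u i : H)
    have h5 : ∀ w, w ∉ (Gf D k).filter (fun w => D.vt k w = v) →
        ⟪(u i : H), b w⟫_ℂ * ⟪b w, (u i : H)⟫_ℂ = 0 := by
      intro w hw
      have : ⟪b w, (u i : H)⟫_ℂ = 0 := by
        by_contra h6
        apply hw
        rw [Finset.mem_filter]
        exact U_coef (u i).2 h6
      rw [this, mul_zero]
    have h6 : HasSum (fun w => ⟪(u i : H), b w⟫_ℂ * ⟪b w, (u i : H)⟫_ℂ)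
        (∑ w ∈ (Gf D k).filter (fun w => D.vt k w = v),
          ⟪(u i : H), b w⟫_ℂ * ⟪b w, (u i : H)⟫_ℂ) := hasSum_sum_of_ne_finset_zero h5
    rw [h6.unique h4, ← Submodule.coe_inner]
    have := u.orthonormal.1 i
    rw [inner_self_eq_norm_sq_to_K, this]
    simp
  rw [Finset.sum_congr rfl fun i _ => h3 i]
  rw [Finset.sum_const, Finset.card_univ, Fintype.card_fin, nsmul_eq_mul, mul_one]
  rfl

open Classical in
lemma rank_eq (hp : p ∈ F D b k) (hpj : Pj p) (v : V) :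
    (rank D b k v p : ℝ) = ∑ w ∈ (Gf D k).filter (fun w => D.vt k w = v), ‖p (b w)‖ ^ 2 := by
  have h := congrArg RCLike.re (rank_eq_complex hp hpj v)
  rw [map_sum] at h
  have h2 : RCLike.re ((rank D b k v p : ℂ)) = (rank D b k v p : ℝ) := by simp
  rw [h2] at h
  rw [h]
  refine Finset.sum_congr rfl fun w _ => ?_
  rw [← hpj.inner, hpj.normsq]

lemma norm_tr (hp : p ∈ F D b k) (hpj : Pj p) (w : ℕ) :
    ‖p (b w)‖ ^ 2 = ‖p (b (tr D k w))‖ ^ 2 := by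
  rw [← hpj.normsq, ← hpj.normsq, hpj.inner, hpj.inner, mc hp (Tl.refl k w)]

lemma norm_mk (hp : p ∈ F D b k) (hpj : Pj p) {a : ℕ} (ha : a ∈ Gf D k) (i : ℕ) :
    ‖p (b (mk D k a i))‖ ^ 2 = ‖p (b a)‖ ^ 2 := by
  rw [norm_tr hp hpj]
  have : tr D k (mk D k a i) = a := mk_unique (mk_hd _ _ _).symm (mem_Gf.1 ha)
  rw [this]

variable (D)

open Classical in
/-- the vertices of stage `k` -/
noncomputable def Vx (k : ℕ) : Finset V := (Gf D k).image (D.vt k)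

open Classical in
/-- the edges from `u` to `v` -/
noncomputable def ed (k : ℕ) (u v : V) : Finset ℕ :=
  (Finset.range (D.deg k u)).filter fun i => D.nx k u i = v

variable {D}

lemma mem_Vx {k : ℕ} {v : V} : v ∈ Vx D k ↔ ∃ w ∈ Gf D k, D.vt k w = v := by
  classical
  unfold Vx
  rw [Finset.mem_image]

open Classical in
lemma rank_succ (hp : p ∈ F D b k) (hpj : Pj p) (v : V) :
    rank D b (k + 1) v p = ∑ u ∈ Vx D k, (ed D k u v).card * rank D b k u p := by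
  have h1 := rank_eq (F_mono (Nat.le_succ k) hp) hpj v
  rw [Finset.sum_filter, sum_Gf_succ] at h1
  have h2 : ∀ a ∈ Gf D k, ∑ i ∈ Finset.range (D.deg k (D.vt k a)),
      (if D.vt (k + 1) (mk D k a i) = v then ‖p (b (mk D k a i))‖ ^ 2 else 0) =
      ((ed D k (D.vt k a) v).card : ℝ) * ‖p (b a)‖ ^ 2 := by
    intro a ha
    unfold ed
    rw [← nsmul_eq_mul, ← Finset.sum_const, Finset.sum_filter]
    refine Finset.sum_congr rfl fun i hi => ?_
    rw [Finset.mem_range] at hi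
    rw [mk_vt_succ hi, norm_mk hp hpj ha]
  rw [Finset.sum_congr rfl h2] at h1
  have h3 : ∑ a ∈ Gf D k, ((ed D k (D.vt k a) v).card : ℝ) * ‖p (b a)‖ ^ 2 =
      ∑ u ∈ Vx D k, ((ed D k u v).card : ℝ) * (rank D b k u p : ℝ) := by
    unfold Vx
    rw [← Finset.sum_fiberwise_of_maps_to (t := (Gf D k).image (D.vt k))
      (fun a ha => Finset.mem_image_of_mem _ ha)]
    refine Finset.sum_congr rfl fun u _ => ?_
    rw [rank_eq hp hpj u, Finset.mul_sum]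
    refine Finset.sum_congr rfl fun a ha => ?_
    rw [(Finset.mem_filter.1 ha).2]
  rw [h3] at h1
  exact_mod_cast h1

/-- a nonzero projection has a nonzero rank -/
lemma exists_rank (hp : p ∈ F D b k) (hpj : Pj p) (h : p ≠ 0) :
    ∃ v ∈ Vx D k, rank D b k v p ≠ 0 := by
  classical
  by_contra h1
  push Not at h1
  apply h
  have h2 : ∀ w : ℕ, p (b (tr D k w)) = 0 := by
    intro w
    have h3 := app_mem_U hp hpj (tr_mem k w)
    have hfd := U_finite hp (D.vt k (tr D k w))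
    have h4 : U D b k (D.vt k (tr D k w)) p = ⊥ :=
      Submodule.finrank_eq_zero.1 (h1 _ (Finset.mem_image_of_mem _ (tr_mem k w)))
    rw [h4] at h3
    exact h3
  apply op_ext b
  intro w
  have h3 := norm_tr hp hpj w
  rw [h2 w, norm_zero] at h3
  have : ‖p (b w)‖ = 0 := by
    have h4 : ‖p (b w)‖ ^ 2 = 0 := by rw [h3]; norm_num
    exact pow_eq_zero_iff (two_ne_zero) |>.1 h4
  rw [norm_eq_zero.1 this]
  rfl

/-! ### comparison -/

lemma rank_le {q w : H →L[ℂ] H} (_hp : p ∈ F D b k) (_hpj : Pj p)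
    (hq : q ∈ F D b k) (hqj : Pj q) (hw : w ∈ F D b k) {δ : ℝ} (hδ : δ < 1 / 2)
    (h1 : ‖star w * w - p‖ ≤ δ) (h2 : ‖w * star w - q‖ ≤ δ) (v : V) :
    rank D b k v p ≤ rank D b k v q := by
  have hfd := U_finite hq v
  let φ : U D b k v p →ₗ[ℂ] U D b k v q :=
    { toFun := fun x => ⟨q (w x.1), by
        refine ⟨?_, hqj.app _⟩
        rw [← PB_comm hq, ← PB_comm hw, x.2.1]⟩
      map_add' := by
        intro x y
        apply Subtype.ext
        change q (w (x.1 + y.1)) = q (w x.1) + q (w y.1)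
        rw [map_add, map_add]
      map_smul' := by
        intro c x
        apply Subtype.ext
        change q (w (c • x.1)) = c • q (w x.1)
        rw [map_smul, map_smul] }
  apply LinearMap.finrank_le_finrank_of_injective (f := φ)
  rw [← LinearMap.ker_eq_bot, LinearMap.ker_eq_bot']
  intro x hx
  apply Subtype.ext
  have hx' : q (w x.1) = 0 := congrArg Subtype.val hx
  change x.1 = 0
  set x' := x.1 with hx0
  have hpx : p x' = x' := x.2.2
  set y := w x' with hy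
  have e1 : ‖y‖ ^ 2 = RCLike.re ⟪(star w * w) x', x'⟫_ℂ := by
    rw [mul_apply_eq_comp, ContinuousLinearMap.star_eq_adjoint,
      ContinuousLinearMap.adjoint_inner_left, inner_self_eq_norm_sq]
  have e2 : RCLike.re ⟪(star w * w) x', x'⟫_ℂ =
      RCLike.re ⟪(star w * w - p) x', x'⟫_ℂ + ‖x'‖ ^ 2 := by
    rw [sub_apply, inner_sub_left, map_sub, hpx, inner_self_eq_norm_sq]
    ring
  have e3 := abs_re_inner_le h1 x'
  have e4 : ‖star w y‖ ^ 2 = RCLike.re ⟪(w * star w) y, y⟫_ℂ := by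
    rw [mul_apply_eq_comp, ← ContinuousLinearMap.adjoint_inner_right,
      ← ContinuousLinearMap.star_eq_adjoint, inner_self_eq_norm_sq]
  have e5 : RCLike.re ⟪(w * star w) y, y⟫_ℂ = RCLike.re ⟪(w * star w - q) y, y⟫_ℂ := by
    rw [sub_apply, inner_sub_left, map_sub, hx', inner_zero_left]
    simp
  have e6 := abs_re_inner_le h2 y
  have e7 : ‖y‖ ^ 2 ≤ ‖x'‖ * ‖star w y‖ := by
    have : RCLike.re ⟪x', star w y⟫_ℂ = ‖y‖ ^ 2 := by
      rw [ContinuousLinearMap.star_eq_adjoint, ContinuousLinearMap.adjoint_inner_right,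
        inner_self_eq_norm_sq]
    rw [← this]
    exact re_inner_le_norm _ _
  have e8 : ‖star w y‖ ^ 2 ≤ δ * ‖y‖ ^ 2 := by
    rw [e4, e5]
    exact (le_abs_self _).trans e6
  have e9 : (1 - δ) * ‖x'‖ ^ 2 ≤ ‖y‖ ^ 2 := by
    have := (abs_le.1 e3).1
    rw [e1, e2]
    linarith
  -- ‖y‖⁴ ≤ ‖x‖² δ ‖y‖²
  have e10 : ‖y‖ ^ 2 * ‖y‖ ^ 2 ≤ ‖x'‖ ^ 2 * (δ * ‖y‖ ^ 2) := by
    calc ‖y‖ ^ 2 * ‖y‖ ^ 2 ≤ (‖x'‖ * ‖star w y‖) * (‖x'‖ * ‖star w y‖) := by
          apply mul_le_mul e7 e7 (by positivity) (by positivity)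
      _ = ‖x'‖ ^ 2 * ‖star w y‖ ^ 2 := by ring
      _ ≤ ‖x'‖ ^ 2 * (δ * ‖y‖ ^ 2) := by gcongr
  by_contra hne
  have hpos : 0 < ‖x'‖ ^ 2 := by
    have := norm_pos_iff.2 hne
    positivity
  have hy0 : 0 < ‖y‖ ^ 2 := by nlinarith
  have e11 : ‖y‖ ^ 2 ≤ ‖x'‖ ^ 2 * δ := by
    by_contra h
    push Not at h
    nlinarith
  nlinarith

lemma rank_congr {q w : H →L[ℂ] H} (hp : p ∈ F D b k) (hpj : Pj p)
    (hq : q ∈ F D b k) (hqj : Pj q) (hw : w ∈ F D b k) {δ : ℝ} (hδ : δ < 1 / 2)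
    (h1 : ‖star w * w - p‖ ≤ δ) (h2 : ‖w * star w - q‖ ≤ δ) (v : V) :
    rank D b k v p = rank D b k v q := by
  refine le_antisymm (rank_le hp hpj hq hqj hw hδ h1 h2 v) ?_
  refine rank_le hq hqj hp hpj (star_mem hw) hδ ?_ ?_ v
  · rw [star_star]
    exact h2
  · rw [star_star]
    exact h1

lemma rank_add_le {p₁ p₂ : H →L[ℂ] H} (hp : p ∈ F D b k) (hpj : Pj p)
    (hp₁ : p₁ ∈ F D b k) (hpj₁ : Pj p₁) (hp₂ : p₂ ∈ F D b k) (hpj₂ : Pj p₂)
    (h : ‖p₁ + p₂ - p‖ ≤ 1 / 4) (v : V) : rank D b k v p₁ + rank D b k v p₂ ≤ rank D b k v p := by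
  have hfd := U_finite hp v
  have hfd₁ := U_finite hp₁ v
  have hfd₂ := U_finite hp₂ v
  let φ : U D b k v p₁ × U D b k v p₂ →ₗ[ℂ] U D b k v p :=
    { toFun := fun x => ⟨p (x.1.1 + x.2.1), by
        refine ⟨?_, hpj.app _⟩
        rw [← PB_comm hp, map_add, x.1.2.1, x.2.2.1]⟩
      map_add' := by
        intro x y
        apply Subtype.ext
        change p ((x.1.1 + y.1.1) + (x.2.1 + y.2.1)) = p (x.1.1 + x.2.1) + p (y.1.1 + y.2.1)
        rw [← map_add]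
        congr 1
        abel
      map_smul' := by
        intro c x
        apply Subtype.ext
        change p (c • x.1.1 + c • x.2.1) = c • p (x.1.1 + x.2.1)
        rw [← smul_add, map_smul] }
  have h0 : rank D b k v p₁ + rank D b k v p₂ = Module.finrank ℂ (U D b k v p₁ × U D b k v p₂) :=
    Module.finrank_prod.symm
  rw [h0]
  apply LinearMap.finrank_le_finrank_of_injective (f := φ)
  rw [← LinearMap.ker_eq_bot, LinearMap.ker_eq_bot']
  rintro ⟨⟨x, hx⟩, ⟨y, hy⟩⟩ hxy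
  have hxy' : p (x + y) = 0 := congrArg Subtype.val hxy
  have hx1 : p₁ x = x := hx.2
  have hy1 : p₂ y = y := hy.2
  set zz := x + y with hzz
  -- first estimate
  have e1 : ‖p₁ zz‖ ^ 2 + ‖p₂ zz‖ ^ 2 ≤ 1 / 4 * ‖zz‖ ^ 2 := by
    have h1 := abs_re_inner_le h zz
    have h2 : RCLike.re ⟪(p₁ + p₂ - p) zz, zz⟫_ℂ = ‖p₁ zz‖ ^ 2 + ‖p₂ zz‖ ^ 2 := by
      rw [sub_apply, add_apply, inner_sub_left, inner_add_left, map_sub, map_add, hpj₁.normsq,
        hpj₂.normsq, hxy', inner_zero_left]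
      simp
    rw [← h2]
    exact (le_abs_self _).trans h1
  have e2 : ‖zz‖ ^ 2 ≤ ‖p₁ zz‖ * ‖x‖ + ‖p₂ zz‖ * ‖y‖ := by
    have h1 : ‖zz‖ ^ 2 = RCLike.re ⟪zz, x⟫_ℂ + RCLike.re ⟪zz, y⟫_ℂ := by
      rw [← map_add, ← inner_add_right, inner_self_eq_norm_sq]
    have h2 : RCLike.re ⟪zz, x⟫_ℂ ≤ ‖p₁ zz‖ * ‖x‖ := by
      conv_lhs => rw [← hx1, ← hpj₁.inner]
      exact re_inner_le_norm _ _
    have h3 : RCLike.re ⟪zz, y⟫_ℂ ≤ ‖p₂ zz‖ * ‖y‖ := by
      conv_lhs => rw [← hy1, ← hpj₂.inner]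
      exact re_inner_le_norm _ _
    rw [h1]
    exact add_le_add h2 h3
  have e3 : ‖zz‖ ^ 2 * ‖zz‖ ^ 2 ≤ 1 / 4 * ‖zz‖ ^ 2 * (‖x‖ ^ 2 + ‖y‖ ^ 2) := by
    have h1 : (‖p₁ zz‖ * ‖x‖ + ‖p₂ zz‖ * ‖y‖) ^ 2 ≤
        (‖p₁ zz‖ ^ 2 + ‖p₂ zz‖ ^ 2) * (‖x‖ ^ 2 + ‖y‖ ^ 2) := by
      nlinarith [sq_nonneg (‖p₁ zz‖ * ‖y‖ - ‖p₂ zz‖ * ‖x‖)]
    calc ‖zz‖ ^ 2 * ‖zz‖ ^ 2 ≤ (‖p₁ zz‖ * ‖x‖ + ‖p₂ zz‖ * ‖y‖) ^ 2 := by
          rw [pow_two (‖p₁ zz‖ * ‖x‖ + ‖p₂ zz‖ * ‖y‖)]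
          exact mul_le_mul e2 e2 (by positivity) (by positivity)
      _ ≤ _ := h1
      _ ≤ _ := by gcongr
  have e4 : ‖zz‖ ^ 2 ≤ 1 / 4 * (‖x‖ ^ 2 + ‖y‖ ^ 2) := by
    by_contra h1
    push Not at h1
    have h2 : 0 < ‖zz‖ ^ 2 := lt_of_le_of_lt (by positivity) h1
    nlinarith
  -- second estimate
  have e5 : ‖p₂ x‖ ^ 2 ≤ 1 / 4 * ‖x‖ ^ 2 := by
    have h1 := abs_re_inner_le h x
    have h2 : RCLike.re ⟪(p₁ + p₂ - p) x, x⟫_ℂ = ‖x‖ ^ 2 + ‖p₂ x‖ ^ 2 - ‖p x‖ ^ 2 := by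
      rw [sub_apply, add_apply, inner_sub_left, inner_add_left, map_sub, map_add, hpj₁.normsq,
        hpj₂.normsq, hpj.normsq, hx1]
    have h3 := hpj.norm_le x
    have h4 := (le_abs_self _).trans h1
    rw [h2] at h4
    nlinarith [norm_nonneg (p x), norm_nonneg x]
  have e6 : ‖p₂ x‖ ≤ 1 / 2 * ‖x‖ := by
    nlinarith [norm_nonneg (p₂ x), norm_nonneg x]
  have e7 : -(1 / 2 * (‖x‖ * ‖y‖)) ≤ RCLike.re ⟪x, y⟫_ℂ := by
    have h1 : |RCLike.re ⟪x, y⟫_ℂ| ≤ ‖p₂ x‖ * ‖y‖ := by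
      conv_lhs => rw [← hy1, ← hpj₂.inner]
      exact (RCLike.abs_re_le_norm _).trans (norm_inner_le_norm _ _)
    have h2 := (abs_le.1 h1).1
    nlinarith [norm_nonneg y]
  have e8 : ‖zz‖ ^ 2 = ‖x‖ ^ 2 + 2 * RCLike.re ⟪x, y⟫_ℂ + ‖y‖ ^ 2 := norm_add_sq x y
  have e9 : ‖x‖ ^ 2 + ‖y‖ ^ 2 ≤ 0 := by
    nlinarith [sq_nonneg (‖x‖ - ‖y‖)]
  have e10 : x = 0 := by
    have : ‖x‖ ^ 2 = 0 := by nlinarith [sq_nonneg ‖x‖, sq_nonneg ‖y‖]
    exact norm_eq_zero.1 (pow_eq_zero_iff two_ne_zero |>.1 this)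
  have e11 : y = 0 := by
    have : ‖y‖ ^ 2 = 0 := by nlinarith [sq_nonneg ‖x‖, sq_nonneg ‖y‖]
    exact norm_eq_zero.1 (pow_eq_zero_iff two_ne_zero |>.1 this)
  subst e10
  subst e11
  rfl

lemma le_rank_add {p₁ p₂ : H →L[ℂ] H} (_hp : p ∈ F D b k)
    (hp₁ : p₁ ∈ F D b k) (hpj₁ : Pj p₁) (hp₂ : p₂ ∈ F D b k) (hpj₂ : Pj p₂)
    (h : ‖p₁ + p₂ - p‖ ≤ 1 / 4) (v : V) : rank D b k v p ≤ rank D b k v p₁ + rank D b k v p₂ := by
  have hfd₁ := U_finite hp₁ v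
  have hfd₂ := U_finite hp₂ v
  let φ : U D b k v p →ₗ[ℂ] U D b k v p₁ × U D b k v p₂ :=
    { toFun := fun x => ⟨⟨p₁ x.1, by
        refine ⟨?_, hpj₁.app _⟩
        rw [← PB_comm hp₁, x.2.1]⟩, ⟨p₂ x.1, by
        refine ⟨?_, hpj₂.app _⟩
        rw [← PB_comm hp₂, x.2.1]⟩⟩
      map_add' := by
        intro x y
        refine Prod.ext (Subtype.ext ?_) (Subtype.ext ?_)
        · exact map_add p₁ x.1 y.1
        · exact map_add p₂ x.1 y.1
      map_smul' := by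
        intro c x
        refine Prod.ext (Subtype.ext ?_) (Subtype.ext ?_)
        · exact map_smul p₁ c x.1
        · exact map_smul p₂ c x.1 }
  have h0 : rank D b k v p₁ + rank D b k v p₂ = Module.finrank ℂ (U D b k v p₁ × U D b k v p₂) :=
    Module.finrank_prod.symm
  rw [h0]
  apply LinearMap.finrank_le_finrank_of_injective (f := φ)
  rw [← LinearMap.ker_eq_bot, LinearMap.ker_eq_bot']
  intro x hx
  apply Subtype.ext
  have h1 : p₁ x.1 = 0 := congrArg (fun q => q.1.1) hx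
  have h2 : p₂ x.1 = 0 := congrArg (fun q => q.2.1) hx
  have h3 : (p₁ + p₂ - p) x.1 = -x.1 := by
    rw [sub_apply, add_apply, h1, h2, x.2.2]
    simp
  have h4 := (p₁ + p₂ - p).le_opNorm x.1
  rw [h3, norm_neg] at h4
  have h5 : ‖x.1‖ ≤ 1 / 4 * ‖x.1‖ := h4.trans (by gcongr)
  have h6 : ‖x.1‖ = 0 := by
    have := norm_nonneg x.1
    linarith
  exact norm_eq_zero.1 h6

lemma rank_add {p₁ p₂ : H →L[ℂ] H} (hp : p ∈ F D b k) (hpj : Pj p)
    (hp₁ : p₁ ∈ F D b k) (hpj₁ : Pj p₁) (hp₂ : p₂ ∈ F D b k) (hpj₂ : Pj p₂)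
    (h : ‖p₁ + p₂ - p‖ ≤ 1 / 4) (v : V) : rank D b k v p = rank D b k v p₁ + rank D b k v p₂ :=
  le_antisymm (le_rank_add hp hp₁ hpj₁ hp₂ hpj₂ h v)
    (rank_add_le hp hpj hp₁ hpj₁ hp₂ hpj₂ h v)


/-! ### classes -/

section cl

variable {M : Type*} [AddCommGroup M] (β : ℕ → V → M)

variable (D b)

/-- the class of a projection -/
noncomputable def cl (k : ℕ) (p : H →L[ℂ] H) : M := ∑ v ∈ Vx D k, rank D b k v p • β k v

variable {D b}

/-- compatibility of the classes with the diagram -/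
def Comp (D : BD V) (β : ℕ → V → M) : Prop :=
  ∀ k, ∀ v ∈ Vx D k, β k v = ∑ i ∈ Finset.range (D.deg k v), β (k + 1) (D.nx k v i)

lemma nx_mem {k : ℕ} {v : V} (hv : v ∈ Vx D k) {i : ℕ} (hi : i < D.deg k v) :
    D.nx k v i ∈ Vx D (k + 1) := by
  classical
  unfold Vx at hv ⊢
  rw [Finset.mem_image] at hv ⊢
  obtain ⟨a, ha, rfl⟩ := hv
  refine ⟨mk D k a i, mem_Gf.2 (mk_rm_succ hi), mk_vt_succ hi⟩

lemma cl_succ {β : ℕ → V → M} (hβ : Comp D β) (hp : p ∈ F D b k) (hpj : Pj p) :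
    cl D b β (k + 1) p = cl D b β k p := by
  classical
  unfold cl
  have h1 : ∀ v ∈ Vx D (k + 1), rank D b (k + 1) v p • β (k + 1) v =
      ∑ u ∈ Vx D k, rank D b k u p • ((ed D k u v).card • β (k + 1) v) := by
    intro v _
    rw [rank_succ hp hpj, Finset.sum_smul]
    refine Finset.sum_congr rfl fun u _ => ?_
    rw [mul_comm, mul_smul]
  rw [Finset.sum_congr rfl h1, Finset.sum_comm]
  refine Finset.sum_congr rfl fun u hu => ?_
  rw [← Finset.smul_sum]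
  congr 1
  rw [hβ k u hu]
  rw [← Finset.sum_fiberwise_of_maps_to (t := Vx D (k + 1)) (g := D.nx k u)
    (fun i hi => nx_mem hu (Finset.mem_range.1 hi))]
  refine Finset.sum_congr rfl fun v _ => ?_
  unfold ed
  rw [← Finset.sum_const]
  refine Finset.sum_congr rfl fun i hi => ?_
  rw [(Finset.mem_filter.1 hi).2]

lemma cl_mono {β : ℕ → V → M} (hβ : Comp D β) (hp : p ∈ F D b k) (hpj : Pj p) {j : ℕ}
    (h : k ≤ j) : cl D b β j p = cl D b β k p := by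
  induction j, h using Nat.le_induction with
  | base => rfl
  | succ j hj ih => rw [cl_succ hβ (F_mono hj hp) hpj, ih]

end cl

end Pool.Agent.K7.H47.BE
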