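import Pool.Agent.K7.H47.BE.Gp

/-!
# Positive homomorphisms of the dimension groups give maps of the trees
-/

set_option autoImplicit false

namespace Pool.Agent.K7.H47.BE

open Pool.Agent.TH723.AF (V root par dep ty par_root dep_par dep_zero par_iter_root par_iter_dep VS
  nd_mem_VS lab_mem_VS par_mem_VS)
open Pool.Agent.H579R3.Epi (K)

/-- a strictly positive homomorphism -/
structure Hm (A A' : Set V) (k : GG → GG) : Prop where
  add : ∀ a ∈ GA A, ∀ b ∈ GA A, k (a + b) = k a + k b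
  mem : ∀ a ∈ GA A, k a ∈ GA A'
  pos : ∀ a ∈ GA A, SP A a → SP A' (k a)

lemma zero_of_dvd {q q' : ℕ} (hq : q.Prime) (hq2 : q ≠ 2) (hq' : q'.Prime) (hne : q' ≠ q) {x : ℚ}
    (h : ∀ n : ℕ, ∃ y, Dy q' y ∧ x = (q : ℚ) ^ n * y) : x = 0 := by
  obtain ⟨y0, ⟨k, l, m0, hm0⟩, hx0⟩ := h 0
  rw [pow_zero, one_mul] at hx0
  subst hx0
  have hq'0 : (q' : ℚ) ≠ 0 := Nat.cast_ne_zero.2 hq'.ne_zero
  have h1 : m0 = 0 := by
    by_contra hne0
    have h2 : ∀ n : ℕ, (q : ℤ) ^ n ∣ m0 := by
      intro n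
      obtain ⟨y, ⟨k', l', m, hm⟩, hx⟩ := h n
      have h3 : (m0 : ℚ) * (2 ^ k' * (q' : ℚ) ^ l') = (q : ℚ) ^ n * (m * (2 ^ k * (q' : ℚ) ^ l)) := by
        rw [← hm0, ← hm, hx]
        ring
      have h4 : m0 * (2 ^ k' * (q' : ℤ) ^ l') = (q : ℤ) ^ n * (m * (2 ^ k * (q' : ℤ) ^ l)) := by
        exact_mod_cast h3
      have h5 : (q : ℤ) ^ n ∣ m0 * (2 ^ k' * (q' : ℤ) ^ l') := ⟨_, h4⟩
      have h6 : IsCoprime ((q : ℤ) ^ n) (2 ^ k' * (q' : ℤ) ^ l') := by
        have e1 : Nat.Coprime (q ^ n) (2 ^ k' * q' ^ l') := by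
          apply Nat.Coprime.mul_right
          · exact Nat.Coprime.pow _ _ ((Nat.coprime_primes hq Nat.prime_two).2 hq2)
          · exact Nat.Coprime.pow _ _ ((Nat.coprime_primes hq hq').2 (Ne.symm hne))
        have e2 := Nat.isCoprime_iff_coprime.2 e1
        push_cast at e2
        exact e2
      exact h6.dvd_of_dvd_mul_right h5
    have h3 := h2 m0.natAbs
    have h4 : m0.natAbs < q ^ m0.natAbs := Nat.lt_pow_self hq.one_lt
    have h5 := Int.natAbs_dvd_natAbs.2 h3
    rw [Int.natAbs_pow, Int.natAbs_natCast] at h5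
    have h6 := Nat.le_of_dvd (Int.natAbs_pos.2 hne0) h5
    omega
  rw [h1, Int.cast_zero] at hm0
  rcases mul_eq_zero.1 hm0 with h2 | h2
  · exact h2
  · exfalso
    have : (2 : ℚ) ^ k * (q' : ℚ) ^ l ≠ 0 := by positivity
    exact this h2

lemma Dy.inv_pow (q : ℕ) (hq : q ≠ 0) (n : ℕ) : Dy q (((q : ℚ) ^ n)⁻¹) := by
  refine ⟨0, n, 1, ?_⟩
  have : (q : ℚ) ^ n ≠ 0 := pow_ne_zero _ (Nat.cast_ne_zero.2 hq)
  rw [pow_zero, one_mul, inv_mul_cancel₀ this, Int.cast_one]

lemma Dy.one (q : ℕ) : Dy q 1 := ⟨0, 0, 1, by simp⟩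

lemma Dy.half (q : ℕ) : Dy q (1 / 2) := ⟨1, 0, 1, by norm_num⟩

section

variable {A A' : Set V} {k : GG → GG} (h : Hm A A' k)

include h

lemma Hm.zero : k 0 = 0 := by
  have h1 := h.add 0 (zero_mem _) 0 (zero_mem _)
  rw [add_zero] at h1
  simpa using h1

lemma Hm.neg {a : GG} (ha : a ∈ GA A) : k (-a) = -k a := by
  have h1 := h.add a ha (-a) (neg_mem ha)
  rw [add_neg_cancel, h.zero] at h1
  exact (neg_eq_of_add_eq_zero_right h1.symm).symm

lemma Hm.sub {a b : GG} (ha : a ∈ GA A) (hb : b ∈ GA A) : k (a - b) = k a - k b := by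
  rw [sub_eq_add_neg, h.add a ha _ (neg_mem hb), h.neg hb, ← sub_eq_add_neg]

lemma Hm.nsmul {a : GG} (ha : a ∈ GA A) (n : ℕ) : k (n • a) = n • k a := by
  induction n with
  | zero => rw [zero_smul, zero_smul, h.zero]
  | succ n ih => rw [succ_nsmul, succ_nsmul, h.add _ (nsmul_mem ha n) _ ha, ih]

lemma Hm.supp {i j : Ge} (hi : i ∈ IA A) (hj : k (Finsupp.single i 1) j ≠ 0) :
    ty j.1 = ty i.1 ∧ j.2 = i.2 := by
  apply q_inj
  by_contra hne
  apply hj
  refine zero_of_dvd (q_prime i) (q_ne_two i) (q_prime j) hne fun n => ?_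
  have h0 : Finsupp.single i (((q i : ℚ) ^ n)⁻¹) ∈ GA A :=
    single_mem hi (Dy.inv_pow _ (q_pos i).ne' n)
  refine ⟨k (Finsupp.single i (((q i : ℚ) ^ n)⁻¹)) j, (h.mem _ h0 j).2, ?_⟩
  have h1 : Finsupp.single i (1 : ℚ) = (q i ^ n) • Finsupp.single i (((q i : ℚ) ^ n)⁻¹) := by
    rw [Finsupp.smul_single]
    congr 1
    have : (q i : ℚ) ^ n ≠ 0 := pow_ne_zero _ (Nat.cast_ne_zero.2 (q_pos i).ne')
    rw [nsmul_eq_mul]
    push_cast
    rw [mul_inv_cancel₀ this]
  rw [h1, h.nsmul h0, Finsupp.smul_apply, nsmul_eq_mul]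
  push_cast
  rfl

end

/-- the generator of a vertex -/
noncomputable def E (v : V) : GG := Finsupp.single (v, false) 1

/-- the second generator of a vertex -/
noncomputable def Eb (v : V) : GG := Finsupp.single (v, true) 1

lemma E_mem {A : Set V} {v : V} (hv : v ∈ A) : E v ∈ GA A :=
  single_mem ⟨hv, fun h => absurd h (by simp)⟩ (Dy.one _)

lemma Eb_mem {A : Set V} {v : V} (hv : v ∈ A) (hr : v ≠ root) : Eb v ∈ GA A :=
  single_mem ⟨hv, fun _ => hr⟩ (Dy.one _)

lemma half_mem {A : Set V} {v : V} (hv : v ∈ A) : Finsupp.single (v, false) (1 / 2) ∈ GA A :=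
  single_mem ⟨hv, fun h => absurd h (by simp)⟩ (Dy.half _)

lemma ev_E (v y : V) : ev y (E v) = 1 + ind v y := by
  unfold E
  rw [ev_single, one_mul]
  rfl

lemma ev_Eb (v y : V) : ev y (Eb v) = (1 + ind v y) + (1 + ind (par v) y) := by
  unfold Eb
  rw [ev_single, one_mul]
  rfl

section

variable {A A' : Set V} {k : GG → GG} (h : Hm A A' k) (hA : root ∈ A)

include h hA

lemma Hm.ev_nonneg {a : GG} (ha : a ∈ GA A) (he : ∀ y ∈ A, 0 ≤ ev y a) {y : V} (hy : y ∈ A') :
    0 ≤ ev y (k a) := by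
  by_contra hneg
  push Not at hneg
  have h1 : ∀ n : ℕ, 0 < ev y (k (E root)) + n * ev y (k a) := by
    intro n
    have h2 := h.pos (E root + n • a) (add_mem (E_mem hA) (nsmul_mem ha n)) (by
      intro z hz
      rw [map_add, map_nsmul, ev_E, ind_root, nsmul_eq_mul]
      have := he z hz
      positivity) y hy
    rw [h.add _ (E_mem hA) _ (nsmul_mem ha n), h.nsmul ha, map_add, map_nsmul, nsmul_eq_mul] at h2
    exact h2
  obtain ⟨n, hn⟩ := exists_nat_gt (ev y (k (E root)) / (-ev y (k a)))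
  rw [div_lt_iff₀ (by linarith)] at hn
  have := h1 n
  linarith

lemma Hm.ev_zero {a : GG} (ha : a ∈ GA A) (he : ∀ y ∈ A, ev y a = 0) {y : V} (hy : y ∈ A') :
    ev y (k a) = 0 := by
  apply le_antisymm
  · have h1 := h.ev_nonneg hA (neg_mem ha) (fun z hz => by rw [map_neg, he z hz, neg_zero]) hy
    rw [h.neg ha, map_neg] at h1
    linarith
  · exact h.ev_nonneg hA ha (fun z hz => (he z hz).ge) hy

end

/-! ### values of combinations of generators of the same type -/

/-- the sum of the coefficients -/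
noncomputable def Sm (F : GG) : ℚ := F.sum fun _ c => c

open Classical in
/-- the sum of the coefficients above `u` -/
noncomputable def Rm (F : GG) (u : V) : ℚ := F.sum fun j c => if par j.1 = u then c else 0

lemma ev_sum (F : GG) (y : V) : ev y F = F.sum fun j c => c * evg j y := by
  unfold ev
  rw [Finsupp.linearCombination_apply]
  rfl

section

variable {F : GG} {β : Bool} {n : ℕ} (hF : ∀ j, F j ≠ 0 → dep j.1 = n ∧ j.2 = β)

include hF

lemma sum_ite (w : V) : (open Classical in F.sum fun j c => if j.1 = w then c else 0) = F (w, β) := by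
  classical
  rw [Finsupp.sum]
  by_cases hw : F (w, β) = 0
  · rw [hw]
    refine Finset.sum_eq_zero fun j hj => ?_
    rw [Finsupp.mem_support_iff] at hj
    split_ifs with h1
    · exfalso
      apply hj
      have h2 := (hF j hj).2
      have h3 : j = (w, β) := Prod.ext h1 h2
      rw [h3, hw]
    · rfl
  · rw [Finset.sum_eq_single (w, β)]
    · simp
    · intro j hj hne
      rw [Finsupp.mem_support_iff] at hj
      split_ifs with h1
      · exfalso
        exact hne (Prod.ext h1 (hF j hj).2)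
      · rfl
    · intro h1
      rw [Finsupp.mem_support_iff] at h1
      exact absurd hw h1

end

section

variable {F : GG} {n : ℕ} (hF : ∀ j, F j ≠ 0 → dep j.1 = n ∧ j.2 = false)

include hF

lemma ev_lt {y : V} (hy : dep y < n) : ev y F = Sm F := by
  rw [ev_sum]
  unfold Sm
  refine Finset.sum_congr rfl fun j hj => ?_
  rw [Finsupp.mem_support_iff] at hj
  obtain ⟨h1, h2⟩ := hF j hj
  change F j * evg j y = F j
  unfold evg
  rw [h2]
  simp only [Bool.false_eq_true, if_false]
  rw [ind_of_lt (by omega)]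
  ring

lemma ev_eq {y : V} (hy : dep y = n) : ev y F = Sm F + F (y, false) := by
  classical
  rw [ev_sum, ← sum_ite hF y]
  unfold Sm
  rw [Finsupp.sum, Finsupp.sum, Finsupp.sum, ← Finset.sum_add_distrib]
  refine Finset.sum_congr rfl fun j hj => ?_
  rw [Finsupp.mem_support_iff] at hj
  obtain ⟨h1, h2⟩ := hF j hj
  unfold evg
  rw [h2]
  simp only [Bool.false_eq_true, if_false]
  rw [ind_of_eq (by omega)]
  split_ifs <;> ring

lemma ev_succ {y : V} (hy : dep y = n + 1) : ev y F = Sm F + F (par y, false) := by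
  classical
  rw [ev_sum, ← sum_ite hF (par y)]
  unfold Sm
  rw [Finsupp.sum, Finsupp.sum, Finsupp.sum, ← Finset.sum_add_distrib]
  refine Finset.sum_congr rfl fun j hj => ?_
  rw [Finsupp.mem_support_iff] at hj
  obtain ⟨h1, h2⟩ := hF j hj
  unfold evg
  rw [h2]
  simp only [Bool.false_eq_true, if_false]
  rw [ind_par (by omega)]
  split_ifs <;> ring

end

section

variable {F : GG} {n : ℕ} (hF : ∀ j, F j ≠ 0 → dep j.1 = n + 1 ∧ j.2 = true)

include hF

lemma evb_lt {y : V} (hy : dep y < n) : ev y F = 2 * Sm F := by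
  rw [ev_sum]
  unfold Sm
  rw [Finsupp.sum, Finsupp.sum, Finset.mul_sum]
  refine Finset.sum_congr rfl fun j hj => ?_
  rw [Finsupp.mem_support_iff] at hj
  obtain ⟨h1, h2⟩ := hF j hj
  have h3 : j.1 ≠ root := by
    intro h3
    rw [h3] at h1
    have : dep root = 0 := rfl
    omega
  have h4 := dep_par h3
  unfold evg
  rw [h2]
  simp only [if_true]
  rw [ind_of_lt (by omega), ind_of_lt (by omega)]
  ring

lemma evb_pred {y : V} (hy : dep y = n) : ev y F = 2 * Sm F + Rm F y := by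
  classical
  rw [ev_sum]
  unfold Sm Rm
  rw [Finsupp.sum, Finsupp.sum, Finsupp.sum, Finset.mul_sum, ← Finset.sum_add_distrib]
  refine Finset.sum_congr rfl fun j hj => ?_
  rw [Finsupp.mem_support_iff] at hj
  obtain ⟨h1, h2⟩ := hF j hj
  have h3 : j.1 ≠ root := by
    intro h3
    rw [h3] at h1
    have : dep root = 0 := rfl
    omega
  have h4 := dep_par h3
  unfold evg
  rw [h2]
  simp only [if_true]
  rw [ind_of_lt (by omega), ind_of_eq (by omega)]
  split_ifs <;> ring

lemma evb_eq {y : V} (hy : dep y = n + 1) :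
    ev y F = 2 * Sm F + F (y, true) + Rm F (par y) := by
  classical
  rw [ev_sum, ← sum_ite hF y]
  unfold Sm Rm
  rw [Finsupp.sum, Finsupp.sum, Finsupp.sum, Finsupp.sum, Finset.mul_sum, ← Finset.sum_add_distrib,
    ← Finset.sum_add_distrib]
  refine Finset.sum_congr rfl fun j hj => ?_
  rw [Finsupp.mem_support_iff] at hj
  obtain ⟨h1, h2⟩ := hF j hj
  have h3 : j.1 ≠ root := by
    intro h3
    rw [h3] at h1
    have : dep root = 0 := rfl
    omega
  have h4 := dep_par h3
  unfold evg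
  rw [h2]
  simp only [if_true]
  rw [ind_of_eq (by omega), ind_par (by omega)]
  split_ifs <;> ring

end

/-! ### the coefficients -/

section

variable {A A' : Set V} {k : GG → GG} (h : Hm A A' k) (hA : root ∈ A) (hA' : root ∈ A')
  (hpA : ∀ v ∈ A, par v ∈ A) (hpA' : ∀ v ∈ A', par v ∈ A')

/-- the coefficients of the image of the generator of `v` -/
noncomputable def cf (k : GG → GG) (v w : V) : ℚ := k (E v) (w, false)

include h

lemma Hm.E_supp {v : V} (hv : v ∈ A) (j : Ge) (hj : k (E v) j ≠ 0) : ty j.1 = ty v ∧ j.2 = false :=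
  h.supp (i := (v, false)) ⟨hv, fun h => absurd h (by simp)⟩ hj

lemma Hm.Eb_supp {v : V} (hv : v ∈ A) (hr : v ≠ root) (j : Ge) (hj : k (Eb v) j ≠ 0) :
    ty j.1 = ty v ∧ j.2 = true :=
  h.supp (i := (v, true)) ⟨hv, fun _ => hr⟩ hj

lemma Hm.E_supp' {v : V} (hv : v ∈ A) (j : Ge) (hj : k (E v) j ≠ 0) :
    dep j.1 = dep v ∧ j.2 = false :=
  ⟨ty_dep (h.E_supp hv j hj).1, (h.E_supp hv j hj).2⟩

lemma Hm.Eb_supp' {v : V} (hv : v ∈ A) (hr : v ≠ root) (j : Ge) (hj : k (Eb v) j ≠ 0) :
    dep j.1 = dep (par v) + 1 ∧ j.2 = true :=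
  ⟨(ty_dep (h.Eb_supp hv hr j hj).1).trans (dep_par hr).symm, (h.Eb_supp hv hr j hj).2⟩

lemma Hm.memA' {v : V} (hv : v ∈ A) {w : V} (hw : k (E v) (w, false) ≠ 0) : w ∈ A' :=
  ((h.mem _ (E_mem hv) _).1 hw).1

include hA hpA

/-- the relation between the generators -/
lemma Hm.rel {v : V} (hv : v ∈ A) (hr : v ≠ root) {y : V} (hy : y ∈ A') :
    ev y (k (Eb v)) = ev y (k (E v)) + ev y (k (E (par v))) := by
  have h1 := h.ev_zero hA (a := Eb v - (E v + E (par v)))
    (sub_mem (Eb_mem hv hr) (add_mem (E_mem hv) (E_mem (hpA v hv)))) (by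
      intro z _
      rw [map_sub, map_add, ev_Eb, ev_E, ev_E]
      ring) hy
  rw [h.sub (Eb_mem hv hr) (add_mem (E_mem hv) (E_mem (hpA v hv))),
    h.add _ (E_mem hv) _ (E_mem (hpA v hv)), map_sub, map_add] at h1
  linarith

include hA' hpA'

lemma Hm.coef_b {v : V} (hv : v ∈ A) (hr : v ≠ root) (w : V) :
    k (Eb v) (w, true) = k (E v) (w, false) := by
  by_cases hw : w ∈ A' ∧ dep w = dep v
  · obtain ⟨hw, hd⟩ := hw
    have hdv := dep_par hr
    have hwr : w ≠ root := by
      rintro rfl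
      have : dep root = 0 := rfl
      omega
    have hdw := dep_par hwr
    have e1 := h.rel hA hpA hv hr hw
    have e2 := h.rel hA hpA hv hr (hpA' w hw)
    rw [evb_eq (h.Eb_supp' hv hr) (y := w) (by omega), ev_eq (h.E_supp' hv) (y := w) (by omega),
      ev_succ (h.E_supp' (hpA v hv)) (y := w) (by omega)] at e1
    rw [evb_pred (h.Eb_supp' hv hr) (y := par w) (by omega),
      ev_lt (h.E_supp' hv) (y := par w) (by omega),
      ev_eq (h.E_supp' (hpA v hv)) (y := par w) (by omega)] at e2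
    linarith
  · have h1 : k (Eb v) (w, true) = 0 := by
      by_contra h1
      apply hw
      refine ⟨((h.mem _ (Eb_mem hv hr) _).1 h1).1, ?_⟩
      exact ty_dep (h.Eb_supp hv hr _ h1).1
    have h2 : k (E v) (w, false) = 0 := by
      by_contra h2
      apply hw
      refine ⟨((h.mem _ (E_mem hv) _).1 h2).1, ?_⟩
      exact ty_dep (h.E_supp hv _ h2).1
    rw [h1, h2]

end

lemma sum_b {F Fb : GG} (hF : ∀ j, F j ≠ 0 → j.2 = false) (hFb : ∀ j, Fb j ≠ 0 → j.2 = true)
    (hb : ∀ w, Fb (w, true) = F (w, false)) (g : V → ℚ) :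
    (Fb.sum fun j c => g j.1 * c) = F.sum fun j c => g j.1 * c := by
  classical
  rw [Finsupp.sum, Finsupp.sum]
  refine Finset.sum_nbij' (fun j => (j.1, false)) (fun j => (j.1, true)) ?_ ?_ ?_ ?_ ?_
  · intro j hj
    rw [Finsupp.mem_support_iff] at hj ⊢
    have h1 := hFb j hj
    have h2 : j = (j.1, true) := Prod.ext rfl h1
    rw [← hb, ← h2]
    exact hj
  · intro j hj
    rw [Finsupp.mem_support_iff] at hj ⊢
    have h1 := hF j hj
    have h2 : j = (j.1, false) := Prod.ext rfl h1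
    rw [hb, ← h2]
    exact hj
  · intro j hj
    rw [Finsupp.mem_support_iff] at hj
    exact Prod.ext rfl (hFb j hj).symm
  · intro j hj
    rw [Finsupp.mem_support_iff] at hj
    exact Prod.ext rfl (hF j hj).symm
  · intro j hj
    rw [Finsupp.mem_support_iff] at hj
    have h1 := hFb j hj
    have h2 : j = (j.1, true) := Prod.ext rfl h1
    change g j.1 * Fb j = g j.1 * F (j.1, false)
    rw [← hb, ← h2]

section

variable {A A' : Set V} {k : GG → GG} (h : Hm A A' k) (hA : root ∈ A) (hA' : root ∈ A')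
  (hpA : ∀ v ∈ A, par v ∈ A) (hpA' : ∀ v ∈ A', par v ∈ A')

include h hA hA' hpA hpA'

lemma Hm.Sm_b {v : V} (hv : v ∈ A) (hr : v ≠ root) : Sm (k (Eb v)) = Sm (k (E v)) := by
  have h1 := sum_b (fun j hj => (h.E_supp hv j hj).2) (fun j hj => (h.Eb_supp hv hr j hj).2)
    (h.coef_b hA hA' hpA hpA' hv hr) (fun _ => 1)
  simpa [Sm] using h1

lemma Hm.Rm_b {v : V} (hv : v ∈ A) (hr : v ≠ root) (u : V) :
    Rm (k (Eb v)) u = Rm (k (E v)) u := by
  classical
  have h1 := sum_b (fun j hj => (h.E_supp hv j hj).2) (fun j hj => (h.Eb_supp hv hr j hj).2)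
    (h.coef_b hA hA' hpA hpA' hv hr) (fun w => if par w = u then 1 else 0)
  simpa [Rm, ite_mul] using h1

lemma Hm.root_val : Sm (k (E root)) = k (E root) (root, false) ∧
    ∀ y, ev y (k (E root)) = 2 * k (E root) (root, false) := by
  classical
  have h0 : k (E root) = Finsupp.single (root, false) (k (E root) (root, false)) := by
    ext j
    rw [Finsupp.single_apply]
    split_ifs with h1
    · rw [h1]
    · by_contra h2
      apply h1
      have h3 := h.E_supp hA j h2
      exact (Prod.ext (ty_root h3.1) h3.2).symm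
  constructor
  · conv_lhs => rw [h0]
    unfold Sm
    rw [Finsupp.sum_single_index rfl]
  · intro y
    conv_lhs => rw [h0]
    rw [ev_single]
    unfold evg
    simp only [Bool.false_eq_true, if_false]
    rw [ind_root]
    ring

lemma Hm.root_pos : 0 < k (E root) (root, false) := by
  have h1 := h.pos _ (E_mem hA) (fun y _ => by
    rw [ev_E, ind_root]
    norm_num) root hA'
  rw [(h.root_val hA hA' hpA hpA').2] at h1
  linarith

lemma Hm.Sm_eq {v : V} (hv : v ∈ A) : Sm (k (E v)) = k (E root) (root, false) := by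
  induction hn : dep v generalizing v with
  | zero =>
    rw [dep_zero hn]
    exact (h.root_val hA hA' hpA hpA').1
  | succ n ih =>
    have hr : v ≠ root := by
      rintro rfl
      have : dep root = 0 := rfl
      omega
    have hdv := dep_par hr
    have e0 := ih (hpA v hv) (by omega)
    have e1 := h.rel hA hpA hv hr hA'
    have hd0 : dep root = 0 := rfl
    rcases Nat.eq_zero_or_pos n with h0 | h0
    · subst h0
      have hpv : par v = root := dep_zero (by omega)
      rw [evb_pred (h.Eb_supp' hv hr) (y := root) (by omega),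
        ev_lt (h.E_supp' hv) (y := root) (by omega), h.Sm_b hA hA' hpA hpA' hv hr,
        h.Rm_b hA hA' hpA hpA' hv hr, hpv, (h.root_val hA hA' hpA hpA').2] at e1
      have e2 : Rm (k (E v)) root = Sm (k (E v)) := by
        unfold Rm Sm
        refine Finset.sum_congr rfl fun j hj => ?_
        rw [Finsupp.mem_support_iff] at hj
        have h3 := h.E_supp' hv j hj
        refine if_pos ?_
        apply dep_zero
        have h4 : j.1 ≠ root := by
          intro h4
          rw [h4] at h3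
          omega
        have := dep_par h4
        omega
      linarith
    · rw [evb_lt (h.Eb_supp' hv hr) (y := root) (by omega),
        ev_lt (h.E_supp' hv) (y := root) (by omega),
        ev_lt (h.E_supp' (hpA v hv)) (y := root) (by omega),
        h.Sm_b hA hA' hpA hpA' hv hr] at e1
      linarith

/-- the coefficients above `u` -/
lemma Hm.Rm_eq {v : V} (hv : v ∈ A) (hr : v ≠ root) {u : V} (hu : u ∈ A')
    (hd : dep u = dep (par v)) : Rm (k (E v)) u = cf k (par v) u := by
  have hdv := dep_par hr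
  have e1 := h.rel hA hpA hv hr hu
  rw [evb_pred (h.Eb_supp' hv hr) (y := u) (by omega),
    ev_lt (h.E_supp' hv) (y := u) (by omega), ev_eq (h.E_supp' (hpA v hv)) (y := u) (by omega),
    h.Sm_b hA hA' hpA hpA' hv hr, h.Rm_b hA hA' hpA hpA' hv hr, h.Sm_eq hA hA' hpA hpA' hv,
    h.Sm_eq hA hA' hpA hpA' (hpA v hv)] at e1
  unfold cf
  linarith

lemma Hm.nonneg {v : V} (hv : v ∈ A) {w : V} (hw : w ∈ A') (hd : dep w = dep v) :
    0 ≤ cf k v w := by
  have h1 := h.ev_nonneg hA (a := E v - Finsupp.single (root, false) (1 / 2))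
    (sub_mem (E_mem hv) (half_mem hA)) (by
      intro z _
      rw [map_sub, ev_E, ev_single]
      unfold evg
      simp only [Bool.false_eq_true, if_false]
      rw [ind_root]
      have := ind_nonneg v z
      linarith) hw
  rw [h.sub (E_mem hv) (half_mem hA), map_sub, ev_eq (h.E_supp' hv) hd,
    h.Sm_eq hA hA' hpA hpA' hv] at h1
  have h2 : E root = Finsupp.single (root, false) (1 / 2) + Finsupp.single (root, false) (1 / 2) := by
    unfold E
    rw [← Finsupp.single_add]
    norm_num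
  have h3 := (h.root_val hA hA' hpA hpA').2 w
  have h4 : ev w (k (E root)) = ev w (k (Finsupp.single (root, false) (1 / 2))) +
      ev w (k (Finsupp.single (root, false) (1 / 2))) := by
    rw [← map_add, ← h.add _ (half_mem hA) _ (half_mem hA), ← h2]
  unfold cf
  linarith

/-- going up -/
lemma Hm.up {v : V} (hv : v ∈ A) (hr : v ≠ root) {u : V} (hu : u ∈ A')
    (hd : dep u = dep (par v)) (hc : 0 < cf k (par v) u) :
    ∃ w ∈ A', par w = u ∧ ty w = ty v ∧ 0 < cf k v w := by
  classical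
  rw [← h.Rm_eq hA hA' hpA hpA' hv hr hu hd] at hc
  unfold Rm at hc
  rw [Finsupp.sum] at hc
  obtain ⟨j, hj, hj2⟩ : ∃ j ∈ (k (E v)).support, (if par j.1 = u then (k (E v)) j else 0) ≠ 0 := by
    by_contra hcon
    push Not at hcon
    rw [Finset.sum_eq_zero hcon] at hc
    exact lt_irrefl _ hc
  rw [Finsupp.mem_support_iff] at hj
  obtain ⟨h1, h2⟩ := h.E_supp hv j hj
  have h3 : j = (j.1, false) := Prod.ext rfl h2
  have h4 : par j.1 = u := by
    by_contra h4
    rw [if_neg h4] at hj2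
    exact hj2 rfl
  have h5 : k (E v) (j.1, false) ≠ 0 := by
    rw [← h3]
    exact hj
  have h6 := h.memA' hv h5
  exact ⟨j.1, h6, h4, h1, lt_of_le_of_ne (h.nonneg hA hA' hpA hpA' hv h6 (ty_dep h1)) h5.symm⟩

end

/-- a strictly positive homomorphism gives a map of the trees -/
theorem Hm.tree {Λ Λ' : List ℤ → Set K} {k : GG → GG} (h : Hm (VS Λ) (VS Λ') k) :
    ∃ g : List ℤ → List ℤ, g [] = [] ∧ (∀ a p, ∃ a', g (a :: p) = a' :: g p) ∧
      ∀ p, Λ p ⊆ Λ' (g p) := by
  classical
  have hA : root ∈ VS Λ := nd_mem_VS Λ []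
  have hA' : root ∈ VS Λ' := nd_mem_VS Λ' []
  have hpA : ∀ v ∈ VS Λ, par v ∈ VS Λ := fun v _ => par_mem_VS v
  have hpA' : ∀ v ∈ VS Λ', par v ∈ VS Λ' := fun v _ => par_mem_VS v
  have step : ∀ (p u : List ℤ), u.length = p.length → 0 < cf k (.nd p) (.nd u) → ∀ a : ℤ, ∃ a' : ℤ,
      0 < cf k (.nd (a :: p)) (.nd (a' :: u)) := by
    intro p u hl hc a
    obtain ⟨w, hw, h1, h2, h3⟩ := h.up hA hA' hpA hpA' (v := .nd (a :: p)) (nd_mem_VS Λ _)
      (by simp [root]) (u := .nd u) (nd_mem_VS Λ' _) hl hc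
    obtain ⟨p', rfl, h4⟩ := ty_nd h2
    rcases p' with _ | ⟨a', p'⟩
    · simp at h4
    · simp only [par, V.nd.injEq] at h1
      subst h1
      exact ⟨a', h3⟩
  let f : List ℤ → List ℤ → ℤ → ℤ := fun p u a =>
    if hx : ∃ a' : ℤ, 0 < cf k (.nd (a :: p)) (.nd (a' :: u)) then hx.choose else 0
  let g : List ℤ → List ℤ := fun p => List.rec [] (fun a p gp => f p gp a :: gp) p
  have g0 : g [] = [] := rfl
  have g1 : ∀ a p, g (a :: p) = f p (g p) a :: g p := fun a p => rfl
  have hg : ∀ p, (g p).length = p.length ∧ 0 < cf k (.nd p) (.nd (g p)) := by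
    intro p
    induction p with
    | nil =>
      refine ⟨rfl, ?_⟩
      exact h.root_pos hA hA' hpA hpA'
    | cons a p ih =>
      rw [g1]
      refine ⟨by rw [List.length_cons, List.length_cons, ih.1], ?_⟩
      have hx := step p (g p) ih.1 ih.2 a
      have e : f p (g p) a = hx.choose := dif_pos hx
      rw [e]
      exact hx.choose_spec
  refine ⟨g, g0, fun a p => ⟨_, g1 a p⟩, fun p κ hκ => ?_⟩
  obtain ⟨w, hw, h1, h2, h3⟩ := h.up hA hA' hpA hpA' (v := .lab p κ) hκ
    (by simp [root]) (u := .nd (g p)) (nd_mem_VS Λ' _) (hg p).1 (hg p).2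
  obtain ⟨p', rfl⟩ := ty_lab h2
  simp only [par, V.nd.injEq] at h1
  subst h1
  exact hw

end Pool.Agent.K7.H47.BE
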