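import Pool.Agent.K7.H47.BE.Step
import Pool.Agent.K7.H47.BE.Refl
import Pool.Agent.K7.H47.BE.Rank

/-!
# The Bratteli diagram of a set of vertices
-/

set_option autoImplicit false

namespace Pool.Agent.K7.H47.BE

open Pool.Agent.TH723.AF (V root par dep ty par_root dep_par dep_zero par_iter_root par_iter_dep)

/-- an enumeration of the ambient group -/
noncomputable def enG : ℕ → GG := (exists_surjective_nat GG).choose

lemma enG_surj : Function.Surjective enG := (exists_surjective_nat GG).choose_spec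

/-- positive even coordinates -/
def Ev (b : Ge → GG) (I : Finset Ge) (v : GG) (c : Ge → ℕ) : Prop :=
  (∀ x ∈ I, 0 < c x ∧ Even (c x)) ∧ v = ∑ x ∈ I, c x • b x

open Classical in
/-- the elements which have to become positive combinations of the basis of stage `n` -/
noncomputable def TT (n : ℕ) (Y Yp : Finset V) (bp : Ge → GG) : Finset GG :=
  ((IY Yp).image bp ∪ (Finset.range (n + 1)).image enG).filter fun a => Sn n Y a

open Classical in
/-- the chosen basis -/
noncomputable def chb (n : ℕ) (Y : Finset V) (T : Finset GG) : Ge → GG :=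
  if h : ∃ b : Ge → GG, GB n Y b ∧ ∀ t ∈ T, ∃ c : Ge → ℕ, Ev b (IY Y) t c then h.choose
  else fun _ => 0

/-- the bases of the stages -/
noncomputable def bs (Y : ℕ → Finset V) : ℕ → Ge → GG
  | 0 => fun _ => E root
  | n + 1 => chb (n + 1) (Y (n + 1)) (TT (n + 1) (Y (n + 1)) (Y n) (bs Y n))

open Classical in
/-- the coordinates -/
noncomputable def cfs (b : Ge → GG) (I : Finset Ge) (v : GG) : Ge → ℕ :=
  if h : ∃ c, Ev b I v c then h.choose else fun _ => 0

/-- the list with the given multiplicities -/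
noncomputable def ml (I : Finset Ge) (c : Ge → ℕ) : List Ge :=
  I.toList.flatMap fun y => List.replicate (c y) y

open Classical in
/-- the list of the edges -/
noncomputable def el (Y : ℕ → Finset V) (n : ℕ) (x : Ge) : List Ge :=
  if 2 ≤ (ml (IY (Y (n + 1))) (cfs (bs Y (n + 1)) (IY (Y (n + 1))) (bs Y n x))).length then
    ml (IY (Y (n + 1))) (cfs (bs Y (n + 1)) (IY (Y (n + 1))) (bs Y n x))
  else [(root, false), (root, false)]

/-- the Bratteli diagram -/
noncomputable def DD (Y : ℕ → Finset V) : BD Ge where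
  r0 := (root, false)
  deg n x := (el Y n x).length
  nx n x i := (el Y n x).getD i (root, false)
  two_le n x := by
    unfold el
    split_ifs with h
    · exact h
    · exact le_rfl

/-! ### lists -/

lemma sum_getD {M : Type*} [AddCommMonoid M] (L : List Ge) (d : Ge) (f : Ge → M) :
    ∑ i ∈ Finset.range L.length, f (L.getD i d) = (L.map f).sum := by
  induction L with
  | nil => simp
  | cons a L ih =>
    rw [List.length_cons, Finset.sum_range_succ', List.map_cons, List.sum_cons, ← ih, add_comm]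
    rfl

lemma sum_ml {M : Type*} [AddCommMonoid M] (I : Finset Ge) (c : Ge → ℕ) (f : Ge → M) :
    ((ml I c).map f).sum = ∑ y ∈ I, c y • f y := by
  have h : ∀ l : List Ge, ((l.flatMap fun y => List.replicate (c y) y).map f).sum =
      (l.map fun y => c y • f y).sum := by
    intro l
    induction l with
    | nil => rfl
    | cons a l ih =>
      rw [List.flatMap_cons, List.map_append, List.sum_append, ih, List.map_cons, List.sum_cons,
        List.map_replicate, List.sum_replicate]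
  unfold ml
  rw [h, Finset.sum_map_toList]

lemma mem_ml {I : Finset Ge} {c : Ge → ℕ} {y : Ge} : y ∈ ml I c ↔ y ∈ I ∧ c y ≠ 0 := by
  unfold ml
  rw [List.mem_flatMap]
  constructor
  · rintro ⟨z, hz, hy⟩
    rw [List.mem_replicate] at hy
    rw [hy.2]
    exact ⟨Finset.mem_toList.1 hz, hy.1⟩
  · rintro ⟨h1, h2⟩
    exact ⟨y, Finset.mem_toList.2 h1, List.mem_replicate.2 ⟨h2, rfl⟩⟩

lemma length_ml (I : Finset Ge) (c : Ge → ℕ) : (ml I c).length = ∑ y ∈ I, c y := by
  have h := sum_ml I c (fun _ => 1)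
  simpa using h

/-! ### the stages of a set of vertices -/

lemma Dyq.nat (n : ℕ) : Dyq (n : ℚ) := ⟨0, n, by simp⟩

section

variable {A : Set V} (hA : root ∈ A) (hpA : ∀ v ∈ A, par v ∈ A)

lemma mem_IY_Yn {n : ℕ} {i : Ge} : i ∈ IY (Yn A n) ↔ cd i.1 ≤ n ∧ i ∈ IA A := by
  rw [mem_IY, mem_Yn]
  constructor
  · rintro ⟨⟨h1, h2⟩, h3⟩
    exact ⟨h1, h2, h3⟩
  · rintro ⟨h1, h2, h3⟩
    exact ⟨⟨h1, h2⟩, h3⟩

include hA in
lemma root_mem_IY (n : ℕ) : (root, false) ∈ IY (Yn A n) :=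
  mem_IY_Yn.2 ⟨by rw [cd_root]; exact Nat.zero_le n, hA, fun h => absurd h (by simp)⟩

include hA in
lemma IY_zero : IY (Yn A 0) = {(root, false)} := by
  ext i
  rw [mem_IY, Yn_zero hA, Finset.mem_singleton, Finset.mem_singleton]
  constructor
  · rintro ⟨h1, h2⟩
    have h3 : i.2 = false := by
      by_contra h3
      have h4 : i.2 = true := by
        cases h5 : i.2
        · exact absurd h5 h3
        · rfl
      exact h2 h4 h1
    exact Prod.ext h1 h3
  · rintro rfl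
    exact ⟨rfl, fun h => absurd h (by simp)⟩

include hA hpA

lemma chb_spec {n : ℕ} {T : Finset GG} (hT : ∀ t ∈ T, Sn n (Yn A n) t) :
    GB n (Yn A n) (chb n (Yn A n) T) ∧
      ∀ t ∈ T, ∃ c : Ge → ℕ, Ev (chb n (Yn A n) T) (IY (Yn A n)) t c := by
  have h : ∃ b : Ge → GG, GB n (Yn A n) b ∧
      ∀ t ∈ T, ∃ c : Ge → ℕ, Ev b (IY (Yn A n)) t c := exists_step (Yn_good hA hpA n) T hT
  unfold chb
  rw [dif_pos h]
  exact h.choose_spec

lemma TT_spec {n : ℕ} {Y Yp : Finset V} {bp : Ge → GG} : ∀ t ∈ TT n Y Yp bp, Sn n Y t := by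
  intro t ht
  classical
  unfold TT at ht
  exact (Finset.mem_filter.1 ht).2

lemma bs_good (n : ℕ) : GB n (Yn A n) (bs (Yn A) n) := by
  classical
  rcases n with _ | n
  · constructor
    · intro x _ i hi
      rw [IY_zero hA, Finset.mem_singleton]
      change (E root) i ≠ 0 at hi
      unfold E at hi
      rw [Finsupp.single_apply] at hi
      by_contra h
      rw [if_neg (fun h' => h h'.symm)] at hi
      exact hi rfl
    · intro x _ i
      change Dyq ((E root) i * _)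
      rw [pow_zero, mul_one]
      unfold E
      rw [Finsupp.single_apply]
      split_ifs
      · exact Dyq.one
      · exact Dyq.zero
    · intro c hc x hx
      rw [IY_zero hA, Finset.mem_singleton] at hx
      rw [IY_zero hA, Finset.sum_singleton] at hc
      subst hx
      have h1 := congrArg (fun f : GG => f (root, false)) hc
      change c (root, false) * (E root) (root, false) = 0 at h1
      unfold E at h1
      rw [Finsupp.single_eq_same, mul_one] at h1
      exact h1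
    · intro x _ y _
      change 0 < ev y (E root)
      rw [ev_E, ind_root]
      norm_num
  · exact (chb_spec hA hpA (TT_spec hA hpA)).1

lemma bs_Sn {n : ℕ} {x : Ge} (hx : x ∈ IY (Yn A n)) : Sn (n + 1) (Yn A (n + 1)) (bs (Yn A) n x) := by
  have h := bs_good hA hpA n
  refine ⟨fun i hi => IY_mono (Yn_mono (Nat.le_succ n)) (h.supp x hx i hi), fun i => ?_, ?_⟩
  · rw [pow_succ, ← mul_assoc]
    exact (h.dy x hx i).mul (Dyq.nat _)
  · intro y hy
    obtain ⟨y', hy', he⟩ := ev_near hpA (n := n) (mem_Yn.1 hy).2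
    rw [he _ fun i hi => (mem_IY_Yn.1 (h.supp x hx i hi)).1]
    exact h.pos x hx y' hy'

lemma cfs_spec {n : ℕ} {x : Ge} (hx : x ∈ IY (Yn A n)) :
    Ev (bs (Yn A) (n + 1)) (IY (Yn A (n + 1))) (bs (Yn A) n x)
      (cfs (bs (Yn A) (n + 1)) (IY (Yn A (n + 1))) (bs (Yn A) n x)) := by
  classical
  have h : ∃ c, Ev (bs (Yn A) (n + 1)) (IY (Yn A (n + 1))) (bs (Yn A) n x) c := by
    refine (chb_spec hA hpA (TT_spec hA hpA)).2 _ ?_
    unfold TT
    rw [Finset.mem_filter, Finset.mem_union]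
    exact ⟨Or.inl (Finset.mem_image_of_mem _ hx), bs_Sn hA hpA hx⟩
  unfold cfs
  rw [dif_pos h]
  exact h.choose_spec

lemma el_eq {n : ℕ} {x : Ge} (hx : x ∈ IY (Yn A n)) : el (Yn A) n x =
    ml (IY (Yn A (n + 1))) (cfs (bs (Yn A) (n + 1)) (IY (Yn A (n + 1))) (bs (Yn A) n x)) := by
  unfold el
  rw [if_pos]
  rw [length_ml]
  have h1 := (cfs_spec hA hpA hx).1 _ (root_mem_IY hA (n + 1))
  have h2 : cfs (bs (Yn A) (n + 1)) (IY (Yn A (n + 1))) (bs (Yn A) n x) (root, false) ≤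
      ∑ y ∈ IY (Yn A (n + 1)), cfs (bs (Yn A) (n + 1)) (IY (Yn A (n + 1))) (bs (Yn A) n x) y :=
    Finset.single_le_sum (fun _ _ => Nat.zero_le _) (root_mem_IY hA (n + 1))
  obtain ⟨m, hm⟩ := h1.2
  omega

lemma nx_mem_IY {n : ℕ} {x : Ge} (hx : x ∈ IY (Yn A n)) {i : ℕ} (hi : i < (DD (Yn A)).deg n x) :
    (DD (Yn A)).nx n x i ∈ IY (Yn A (n + 1)) := by
  change (el (Yn A) n x).getD i (root, false) ∈ _
  change i < (el (Yn A) n x).length at hi
  rw [List.getD_eq_getElem _ _ hi]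
  have h1 : ∀ y ∈ el (Yn A) n x, y ∈ IY (Yn A (n + 1)) := by
    intro y hy
    rw [el_eq hA hpA hx] at hy
    exact (mem_ml.1 hy).1
  exact h1 _ (List.getElem_mem hi)

lemma full_IY {n : ℕ} {x y : Ge} (hx : x ∈ IY (Yn A n)) (hy : y ∈ IY (Yn A (n + 1))) :
    ∃ i < (DD (Yn A)).deg n x, (DD (Yn A)).nx n x i = y := by
  have h1 : y ∈ el (Yn A) n x := by
    rw [el_eq hA hpA hx, mem_ml]
    exact ⟨hy, ((cfs_spec hA hpA hx).1 y hy).1.ne'⟩
  obtain ⟨i, hi, he⟩ := List.getElem_of_mem h1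
  refine ⟨i, hi, ?_⟩
  change (el (Yn A) n x).getD i (root, false) = y
  rw [List.getD_eq_getElem _ _ hi, he]

lemma Vx_eq (n : ℕ) : Vx (DD (Yn A)) n = IY (Yn A n) := by
  induction n with
  | zero =>
    rw [IY_zero hA]
    ext v
    rw [mem_Vx, Finset.mem_singleton]
    constructor
    · rintro ⟨w, -, rfl⟩
      rfl
    · rintro rfl
      exact ⟨0, mem_Gf.2 rfl, rfl⟩
  | succ n ih =>
    ext v
    constructor
    · intro hv
      rw [mem_Vx] at hv
      obtain ⟨w, hw, rfl⟩ := hv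
      have h1 : (DD (Yn A)).vt n w ∈ IY (Yn A n) := by
        rw [← ih, mem_Vx]
        exact ⟨tr (DD (Yn A)) n w, tr_mem n w, tr_vt n w⟩
      rw [vt_succ]
      exact nx_mem_IY hA hpA h1 (cc_lt n w)
    · intro hv
      obtain ⟨i, hi, rfl⟩ := full_IY hA hpA (root_mem_IY hA n) hv
      apply nx_mem _ hi
      rw [ih]
      exact root_mem_IY hA n

lemma bs_comp : Comp (DD (Yn A)) (bs (Yn A)) := by
  intro n v hv
  rw [Vx_eq hA hpA] at hv
  change _ = ∑ i ∈ Finset.range (el (Yn A) n v).length,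
    bs (Yn A) (n + 1) ((el (Yn A) n v).getD i (root, false))
  rw [sum_getD, el_eq hA hpA hv, sum_ml]
  exact (cfs_spec hA hpA hv).2

lemma bs_mem {n : ℕ} {x : Ge} (hx : x ∈ IY (Yn A n)) : bs (Yn A) n x ∈ GA A := by
  have h := bs_good hA hpA n
  intro i
  refine ⟨fun hi => (mem_IY_Yn.1 (h.supp x hx i hi)).2, ?_⟩
  obtain ⟨k, m, hm⟩ := h.dy x hx i
  refine ⟨k, n, m, ?_⟩
  rw [← hm]
  ring

lemma bs_pos {n : ℕ} {x : Ge} (hx : x ∈ IY (Yn A n)) : SP A (bs (Yn A) n x) := by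
  have h := bs_good hA hpA n
  intro y hy
  obtain ⟨y', hy', he⟩ := ev_near hpA (n := n) hy
  rw [he _ fun i hi => (mem_IY_Yn.1 (h.supp x hx i hi)).1]
  exact h.pos x hx y' hy'

lemma bs_exh {a : GG} (ha : a ∈ GA A) (hpos : SP A a) :
    ∃ m0, ∀ m, m0 ≤ m → ∃ c : Ge → ℕ, a = ∑ x ∈ IY (Yn A m), c x • bs (Yn A) m x := by
  classical
  obtain ⟨j, hj⟩ := enG_surj a
  have h1 : ∀ᶠ n : ℕ in Filter.atTop, ∀ i ∈ a.support, cd i.1 ≤ n ∧ Dyq (a i * (q i : ℚ) ^ n) := by
    rw [Filter.eventually_all_finset]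
    intro i _
    refine (Filter.eventually_ge_atTop (cd i.1)).and ?_
    obtain ⟨k, l, m, hm⟩ := (ha i).2
    filter_upwards [Filter.eventually_ge_atTop l] with n hn
    obtain ⟨e, rfl⟩ := Nat.exists_eq_add_of_le hn
    refine ⟨k, m * (q i : ℤ) ^ e, ?_⟩
    push_cast
    rw [← hm]
    ring
  obtain ⟨n0, hn0⟩ := Filter.eventually_atTop.1 h1
  refine ⟨max n0 j + 1, fun m hm => ?_⟩
  obtain ⟨n, rfl⟩ : ∃ n, m = n + 1 := ⟨m - 1, by omega⟩
  have hSn : Sn (n + 1) (Yn A (n + 1)) a := by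
    refine ⟨fun i hi => ?_, fun i => ?_, fun y hy => hpos y (mem_Yn.1 hy).2⟩
    · exact mem_IY_Yn.2 ⟨(hn0 (n + 1) (by omega) i (Finsupp.mem_support_iff.2 hi)).1, (ha i).1 hi⟩
    · by_cases hi : a i = 0
      · rw [hi, zero_mul]
        exact Dyq.zero
      · exact (hn0 (n + 1) (by omega) i (Finsupp.mem_support_iff.2 hi)).2
  obtain ⟨c, -, hc⟩ := (chb_spec hA hpA (n := n + 1)
    (T := TT (n + 1) (Yn A (n + 1)) (Yn A n) (bs (Yn A) n)) (TT_spec hA hpA)).2 a (by
      unfold TT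
      rw [Finset.mem_filter, Finset.mem_union]
      refine ⟨Or.inr ?_, hSn⟩
      rw [Finset.mem_image]
      exact ⟨j, Finset.mem_range.2 (by omega), hj⟩)
  exact ⟨c, hc⟩

end

/-- the properties of the diagrams and their classes -/
structure Sys (A : Set V) (D : BD Ge) (β : ℕ → Ge → GG) : Prop where
  root : β 0 D.r0 = E root
  comp : Comp D β
  full : ∀ k, ∀ u ∈ Vx D k, ∀ v ∈ Vx D (k + 1), ∃ i < D.deg k u, D.nx k u i = v
  ind : ∀ k (c : Ge → ℚ), ∑ x ∈ Vx D k, c x • β k x = 0 → ∀ x ∈ Vx D k, c x = 0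
  mem : ∀ k, ∀ x ∈ Vx D k, β k x ∈ GA A
  pos : ∀ k, ∀ x ∈ Vx D k, SP A (β k x)
  exh : ∀ a ∈ GA A, SP A a → ∃ m0, ∀ m, m0 ≤ m → ∃ c : Ge → ℕ, a = ∑ x ∈ Vx D m, c x • β m x

theorem sys {A : Set V} (hA : root ∈ A) (hpA : ∀ v ∈ A, par v ∈ A) :
    Sys A (DD (Yn A)) (bs (Yn A)) := by
  refine ⟨rfl, bs_comp hA hpA, ?_, ?_, ?_, ?_, ?_⟩
  · intro k u hu v hv
    rw [Vx_eq hA hpA] at hu hv
    exact full_IY hA hpA hu hv
  · intro k c hc
    rw [Vx_eq hA hpA] at hc ⊢
    exact (bs_good hA hpA k).ind c hc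
  · intro k x hx
    rw [Vx_eq hA hpA] at hx
    exact bs_mem hA hpA hx
  · intro k x hx
    rw [Vx_eq hA hpA] at hx
    exact bs_pos hA hpA hx
  · intro a ha hpos
    obtain ⟨m0, hm0⟩ := bs_exh hA hpA ha hpos
    refine ⟨m0, fun m hm => ?_⟩
    rw [Vx_eq hA hpA]
    exact hm0 m hm

/-! ### locality -/

lemma bs_congr {Y Y' : ℕ → Finset V} {n : ℕ} (h : ∀ i, i ≤ n → Y i = Y' i) : bs Y n = bs Y' n := by
  induction n with
  | zero => rfl
  | succ n ih =>
    rw [bs, bs, ih fun i hi => h i (by omega), h (n + 1) le_rfl, h n (Nat.le_succ n)]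

lemma el_congr {Y Y' : ℕ → Finset V} {n : ℕ} (h : ∀ i, i ≤ n + 1 → Y i = Y' i) :
    el Y n = el Y' n := by
  funext x
  unfold el
  rw [bs_congr h, bs_congr (n := n) fun i hi => h i (by omega), h (n + 1) le_rfl]

lemma st_congr {V : Type} {D D' : BD V} {k : ℕ} (h0 : D.r0 = D'.r0)
    (h : ∀ n < k, D.deg n = D'.deg n ∧ D.nx n = D'.nx n) {n : ℕ} (hn : n ≤ k) (w : ℕ) :
    D.st w n = D'.st w n := by
  induction n with
  | zero => simp only [BD.st, h0]
  | succ n ih => simp only [BD.st, ih (by omega), (h n (by omega)).1, (h n (by omega)).2]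

lemma cc_congr {V : Type} {D D' : BD V} {k : ℕ} (h0 : D.r0 = D'.r0)
    (h : ∀ n < k, D.deg n = D'.deg n ∧ D.nx n = D'.nx n) {n : ℕ} (hn : n < k) (w : ℕ) :
    D.cc n w = D'.cc n w := by
  unfold BD.cc BD.rm BD.vt
  rw [st_congr h0 h hn.le, (h n hn).1]

lemma mk_congr' {V : Type} {D D' : BD V} {k : ℕ} (h0 : D.r0 = D'.r0)
    (h : ∀ n < k, D.deg n = D'.deg n ∧ D.nx n = D'.nx n) (b r : ℕ) :
    mk D k b r = mk D' k b r := by
  induction k generalizing r with
  | zero => rfl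
  | succ k ih =>
    rw [mk, mk, cc_congr h0 h (Nat.lt_succ_self k), (h k (Nat.lt_succ_self k)).1]
    have h1 : D.vt k b = D'.vt k b := by
      unfold BD.vt
      rw [st_congr h0 h (Nat.le_succ k)]
    rw [h1]
    exact ih (fun n hn => h n (by omega)) _

lemma Ep_congr {V : Type} {D D' : BD V} {k : ℕ} (h0 : D.r0 = D'.r0)
    (h : ∀ n < k, D.deg n = D'.deg n ∧ D.nx n = D'.nx n) (a c : ℕ) :
    Ep D k a c = Ep D' k a c := by
  apply pequiv_ext
  intro w u
  rw [mem_Ep, mem_Ep]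
  have h1 : ∀ a c, Hd D k a c ↔ Hd D' k a c := by
    intro a c
    constructor
    · intro h2 n hn
      rw [← cc_congr h0 h hn, ← cc_congr h0 h hn]
      exact h2 n hn
    · intro h2 n hn
      rw [cc_congr h0 h hn, cc_congr h0 h hn]
      exact h2 n hn
  have h2 : Tl D k u w ↔ Tl D' k u w := by
    unfold Tl BD.vt BD.rm
    rw [st_congr h0 h le_rfl, st_congr h0 h le_rfl]
  rw [h1, h1, h2]

/-- the partial bijections of stage `k` depend on the first sets of vertices only -/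
lemma Ep_DD_congr {Y Y' : ℕ → Finset V} {k : ℕ} (h : ∀ i, i ≤ k → Y i = Y' i) (a c : ℕ) :
    Ep (DD Y) k a c = Ep (DD Y') k a c := by
  refine Ep_congr (D := DD Y) (D' := DD Y') rfl ?_ a c
  intro n hn
  have h1 := el_congr (Y := Y) (Y' := Y') (n := n) fun i hi => h i (by omega)
  constructor
  · funext x
    change (el Y n x).length = (el Y' n x).length
    rw [h1]
  · funext x i
    change (el Y n x).getD i _ = (el Y' n x).getD i _
    rw [h1]

lemma Yn_congr {A A' : Set V} {k : ℕ} (h : Yn A k = Yn A' k) {i : ℕ} (hi : i ≤ k) :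
    Yn A i = Yn A' i := by
  ext v
  have h1 : v ∈ Yn A k ↔ v ∈ Yn A' k := by rw [h]
  rw [mem_Yn, mem_Yn] at h1 ⊢
  constructor
  · rintro ⟨h2, h3⟩
    exact ⟨h2, (h1.1 ⟨h2.trans hi, h3⟩).2⟩
  · rintro ⟨h2, h3⟩
    exact ⟨h2, (h1.2 ⟨h2.trans hi, h3⟩).2⟩

end Pool.Agent.K7.H47.BE
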