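import Pool.Agent.K7.H47.BE.Gp
import Pool.Agent.K7.H47.BE.GL

/-!
# The bases of the stages
-/

set_option autoImplicit false

open Matrix

namespace Pool.Agent.K7.H47.BE

open Pool.Agent.TH723.AF (V root par dep ty par_root dep_par dep_zero par_iter_root par_iter_dep)

/-! ### the enumeration of the vertices -/

/-- a code of the vertices such that the code of the parent is not larger -/
def cd : V → ℕ
  | .nd p => 2 * Encodable.encode p
  | .lab p κ => 2 * Nat.pair (Encodable.encode p) (Encodable.encode κ) + 1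

lemma cd_inj : Function.Injective cd := by
  intro u v h
  rcases u with p | ⟨p, κ⟩ <;> rcases v with p' | ⟨p', κ'⟩ <;> simp only [cd] at h
  · have h1 : Encodable.encode p = Encodable.encode p' := by omega
    rw [Encodable.encode_injective h1]
  · omega
  · omega
  · have h1 : Nat.pair (Encodable.encode p) (Encodable.encode κ) =
        Nat.pair (Encodable.encode p') (Encodable.encode κ') := by omega
    have h2 := Nat.pair_eq_pair.1 h1
    rw [Encodable.encode_injective h2.1, Encodable.encode_injective h2.2]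

lemma cd_root : cd root = 0 := by
  change 2 * Encodable.encode ([] : List ℤ) = 0
  rw [Encodable.encode_list_nil]

lemma cd_par (v : V) : cd (par v) ≤ cd v := by
  rcases v with (_ | ⟨k, p⟩) | ⟨p, κ⟩
  · exact le_rfl
  · simp only [par, cd, Encodable.encode_list_cons]
    have := Nat.right_le_pair (Encodable.encode k) (Encodable.encode p)
    omega
  · simp only [par, cd]
    have := Nat.left_le_pair (Encodable.encode p) (Encodable.encode κ)
    omega

lemma cd_finite (n : ℕ) : {v : V | cd v ≤ n}.Finite :=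
  (Set.finite_Iic n).preimage cd_inj.injOn

open Classical in
/-- the vertices in `A` with code at most `n` -/
noncomputable def Yn (A : Set V) (n : ℕ) : Finset V := (cd_finite n).toFinset.filter (· ∈ A)

lemma mem_Yn {A : Set V} {n : ℕ} {v : V} : v ∈ Yn A n ↔ cd v ≤ n ∧ v ∈ A := by
  classical
  unfold Yn
  rw [Finset.mem_filter, Set.Finite.mem_toFinset]
  rfl

lemma Yn_mono {A : Set V} {n m : ℕ} (h : n ≤ m) : Yn A n ⊆ Yn A m := by
  intro v hv
  rw [mem_Yn] at hv ⊢
  exact ⟨hv.1.trans h, hv.2⟩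

open Classical in
/-- the generators over a finite set of vertices -/
noncomputable def IY (Y : Finset V) : Finset Ge :=
  (Y ×ˢ Finset.univ).filter fun i => i.2 = true → i.1 ≠ root

lemma mem_IY {Y : Finset V} {i : Ge} : i ∈ IY Y ↔ i.1 ∈ Y ∧ (i.2 = true → i.1 ≠ root) := by
  classical
  unfold IY
  rw [Finset.mem_filter, Finset.mem_product]
  simp

lemma IY_mono {Y Y' : Finset V} (h : Y ⊆ Y') : IY Y ⊆ IY Y' := by
  intro i hi
  rw [mem_IY] at hi ⊢
  exact ⟨h hi.1, hi.2⟩

/-- good finite sets of vertices: they contain the root and are closed under parents -/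
structure GY (Y : Finset V) : Prop where
  rt : root ∈ Y
  pr : ∀ v ∈ Y, par v ∈ Y

lemma Yn_good {A : Set V} (hA : root ∈ A) (hpA : ∀ v ∈ A, par v ∈ A) (n : ℕ) : GY (Yn A n) := by
  constructor
  · rw [mem_Yn, cd_root]
    exact ⟨Nat.zero_le n, hA⟩
  · intro v hv
    rw [mem_Yn] at hv ⊢
    exact ⟨(cd_par v).trans hv.1, hpA v hv.2⟩

lemma Yn_zero {A : Set V} (hA : root ∈ A) : Yn A 0 = {root} := by
  ext v
  rw [mem_Yn, Finset.mem_singleton]
  constructor
  · rintro ⟨h, -⟩
    apply cd_inj
    rw [cd_root]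
    omega
  · rintro rfl
    exact ⟨cd_root.le, hA⟩

/-! ### evaluation at nearest ancestors -/

lemma exists_near (n : ℕ) (y : V) : ∃ j, cd (par^[j] y) ≤ n ∧ ∀ i < j, n < cd (par^[i] y) := by
  classical
  have h : ∃ j, cd (par^[j] y) ≤ n := ⟨dep y, by
    rw [par_iter_dep y le_rfl, cd_root]
    exact Nat.zero_le n⟩
  exact ⟨Nat.find h, Nat.find_spec h, fun i hi => not_le.1 (Nat.find_min h hi)⟩

/-- the value of a generator of small code only depends on the nearest ancestor of small code -/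
lemma ev_near {A : Set V} (hpA : ∀ v ∈ A, par v ∈ A) {n : ℕ} {y : V} (hy : y ∈ A) :
    ∃ y' ∈ Yn A n, ∀ a : GG, (∀ i, a i ≠ 0 → cd i.1 ≤ n) → ev y a = ev y' a := by
  classical
  obtain ⟨j, hj, hmin⟩ := exists_near n y
  have hmem : ∀ i, par^[i] y ∈ A := by
    intro i
    induction i with
    | zero => exact hy
    | succ i ih =>
      rw [Function.iterate_succ_apply']
      exact hpA _ ih
  refine ⟨par^[j] y, mem_Yn.2 ⟨hj, hmem j⟩, ?_⟩
  intro a ha
  have hind : ∀ v, cd v ≤ n → ind v y = ind v (par^[j] y) := by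
    intro v hv
    unfold ind
    congr 1
    apply propext
    constructor
    · rintro ⟨i, hi⟩
      have hij : j ≤ i := by
        by_contra hlt
        push Not at hlt
        have := hmin i hlt
        rw [hi] at this
        omega
      refine ⟨i - j, ?_⟩
      rw [← Function.iterate_add_apply, Nat.sub_add_cancel hij]
      exact hi
    · rintro ⟨i, hi⟩
      refine ⟨i + j, ?_⟩
      rw [Function.iterate_add_apply]
      exact hi
  unfold ev
  rw [Finsupp.linearCombination_apply, Finsupp.linearCombination_apply]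
  refine Finset.sum_congr rfl fun i hi => ?_
  rw [Finsupp.mem_support_iff] at hi
  have h1 := ha i hi
  have h2 : evg i y = evg i (par^[j] y) := by
    unfold evg
    rw [hind i.1 h1, hind (par i.1) ((cd_par _).trans h1)]
  change a i • evg i y = a i • evg i (par^[j] y)
  rw [h2]

/-! ### independence of the evaluations -/

lemma ind_diff {v y : V} (hy : y ≠ root) :
    (open Classical in ind v y = ind v (par y) + if v = y then 1 else 0) := by
  classical
  unfold ind
  by_cases h1 : v = y
  · subst h1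
    rw [if_pos (Anc.refl _), if_neg, if_pos rfl, zero_add]
    intro h2
    have h3 := h2.dep_le
    have h4 := dep_par hy
    omega
  · rw [if_neg h1, add_zero]
    congr 1
    rw [anc_succ]
    apply propext
    exact ⟨fun h => h.resolve_left h1, Or.inr⟩

lemma ev_inj {Y : Finset V} (hY : GY Y) {a : GG} (ha : ∀ i, a i ≠ 0 → i.1 ∈ Y ∧ i.2 = false)
    (he : ∀ y ∈ Y, ev y a = 0) : a = 0 := by
  classical
  have hev : ∀ y, ev y a = ∑ i ∈ a.support, a i * (1 + ind i.1 y) := by
    intro y
    unfold ev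
    rw [Finsupp.linearCombination_apply]
    refine Finset.sum_congr rfl fun i hi => ?_
    rw [Finsupp.mem_support_iff] at hi
    change a i • evg i y = a i * (1 + ind i.1 y)
    unfold evg
    rw [(ha i hi).2]
    rfl
  have h1 : ∀ y ∈ Y, y ≠ root → a (y, false) = 0 := by
    intro y hy hr
    have e1 := he y hy
    have e2 := he (par y) (hY.pr y hy)
    rw [hev] at e1 e2
    have e3 : ∑ i ∈ a.support, a i * (1 + ind i.1 y) =
        ∑ i ∈ a.support, a i * (1 + ind i.1 (par y)) +
          ∑ i ∈ a.support, a i * (if i.1 = y then 1 else 0) := by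
      rw [← Finset.sum_add_distrib]
      refine Finset.sum_congr rfl fun i _ => ?_
      rw [ind_diff hr]
      ring
    rw [e1, e2, zero_add] at e3
    by_contra h2
    have h3 : ∑ i ∈ a.support, a i * (if i.1 = y then 1 else 0) = a (y, false) := by
      rw [Finset.sum_eq_single (y, false)]
      · rw [if_pos rfl, mul_one]
      · intro i hi hne
        rw [Finsupp.mem_support_iff] at hi
        rw [if_neg, mul_zero]
        intro h4
        exact hne (Prod.ext h4 (ha i hi).2)
      · intro h4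
        rw [Finsupp.mem_support_iff] at h4
        exact absurd h2 h4
    rw [h3] at e3
    exact h2 e3.symm
  have h2 : a = Finsupp.single (root, false) (a (root, false)) := by
    ext i
    rw [Finsupp.single_apply]
    split_ifs with h3
    · rw [h3]
    · by_contra h4
      obtain ⟨h5, h6⟩ := ha i h4
      have h7 : i = (i.1, false) := Prod.ext rfl h6
      by_cases h8 : i.1 = root
      · rw [h8] at h7
        exact h3 h7.symm
      · apply h4
        rw [h7]
        exact h1 i.1 h5 h8
  have h3 := he root hY.rt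
  rw [h2, ev_single] at h3
  have h4 : evg (root, false) root = 2 := by
    unfold evg
    simp only [Bool.false_eq_true, if_false]
    rw [ind_root]
    norm_num
  rw [h4] at h3
  have h5 : a (root, false) = 0 := by linarith
  rw [h2, h5, Finsupp.single_zero]

/-! ### bases of a stage -/

/-- bases of the stage `n` -/
structure GB (n : ℕ) (Y : Finset V) (b : Ge → GG) : Prop where
  supp : ∀ x ∈ IY Y, ∀ i, b x i ≠ 0 → i ∈ IY Y
  dy : ∀ x ∈ IY Y, ∀ i, Dyq (b x i * (q i : ℚ) ^ n)
  ind : ∀ c : Ge → ℚ, ∑ x ∈ IY Y, c x • b x = 0 → ∀ x ∈ IY Y, c x = 0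
  pos : ∀ x ∈ IY Y, ∀ y ∈ Y, 0 < ev y (b x)

/-- the elements of stage `n` which are strictly positive -/
structure Sn (n : ℕ) (Y : Finset V) (a : GG) : Prop where
  supp : ∀ i, a i ≠ 0 → i ∈ IY Y
  dy : ∀ i, Dyq (a i * (q i : ℚ) ^ n)
  pos : ∀ y ∈ Y, 0 < ev y a

lemma Dyq.pow_mul {x : ℚ} (h : Dyq x) (hx : 0 < x) : ∃ k0 : ℕ, ∀ k, k0 ≤ k →
    ∃ c : ℕ, 0 < c ∧ Even c ∧ x * 2 ^ k = c := by
  obtain ⟨k, m, hm⟩ := h
  refine ⟨k + 1, fun l hl => ?_⟩
  have hm0 : 0 < m := by
    have h1 : (0 : ℚ) < m := by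
      rw [← hm]
      positivity
    exact_mod_cast h1
  obtain ⟨e, rfl⟩ := Nat.exists_eq_add_of_le hl
  refine ⟨m.toNat * 2 ^ (e + 1), Nat.mul_pos (by omega) (by positivity), ?_, ?_⟩
  · rw [pow_succ, ← mul_assoc]
    exact even_two.mul_left _
  · have h2 : ((m.toNat : ℕ) : ℚ) = (m : ℚ) := by
      have : ((m.toNat : ℕ) : ℤ) = m := Int.toNat_of_nonneg hm0.le
      exact_mod_cast this
    push_cast
    rw [h2, ← hm]
    ring

theorem exists_step {n : ℕ} {Y : Finset V} (hY : GY Y) (T : Finset GG)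
    (hT : ∀ t ∈ T, Sn n Y t) : ∃ b : Ge → GG, GB n Y b ∧
      ∀ t ∈ T, ∃ c : Ge → ℕ, (∀ x ∈ IY Y, 0 < c x ∧ Even (c x)) ∧ t = ∑ x ∈ IY Y, c x • b x := by
  classical
  have hq0 : ∀ i : Ge, (q i : ℚ) ^ n ≠ 0 := fun i =>
    pow_ne_zero _ (Nat.cast_ne_zero.2 (q_pos i).ne')
  set I := IY Y with hI
  -- the generators of the lattice
  let l : Ge → GG := fun i => Finsupp.single i (((q i : ℚ) ^ n)⁻¹)
  -- the functionals
  let h : Ge → (GG →ₗ[ℚ] ℚ) := fun z => if z.2 then Finsupp.lapply z else ev z.1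
  let A : Matrix I I ℚ := fun i z => h z.1 (l i.1)
  have hlin : ∀ (v : I → ℚ) (z : I), (vecMul v A) z = h z.1 (∑ i : I, v i • l i.1) := by
    intro v z
    rw [map_sum]
    refine Finset.sum_congr rfl fun i _ => ?_
    rw [map_smul]
    rfl
  have hcoef : ∀ (v : I → ℚ) (j : I), (∑ i : I, v i • l i.1) j.1 = v j * ((q j.1 : ℚ) ^ n)⁻¹ := by
    intro v j
    rw [Finsupp.finset_sum_apply, Finset.sum_eq_single j]
    · rw [Finsupp.smul_apply]
      change v j • (Finsupp.single j.1 _ : GG) j.1 = _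
      rw [Finsupp.single_eq_same, smul_eq_mul]
    · intro i _ hne
      rw [Finsupp.smul_apply]
      change v i • (Finsupp.single i.1 _ : GG) j.1 = _
      rw [Finsupp.single_apply, if_neg (fun h' => hne (Subtype.ext h')), smul_zero]
    · intro h'
      exact absurd (Finset.mem_univ j) h'
  have hsupp : ∀ (v : I → ℚ) (j : Ge), (∑ i : I, v i • l i.1) j ≠ 0 → j ∈ I := by
    intro v j hj
    by_contra hjI
    apply hj
    rw [Finsupp.finset_sum_apply]
    refine Finset.sum_eq_zero fun i _ => ?_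
    rw [Finsupp.smul_apply]
    change v i • (Finsupp.single i.1 _ : GG) j = _
    rw [Finsupp.single_apply, if_neg, smul_zero]
    intro h'
    apply hjI
    rw [← h']
    exact i.2
  have hA : A.det ≠ 0 := by
    intro hdet
    obtain ⟨v, hv0, hv⟩ := Matrix.exists_vecMul_eq_zero_iff.2 hdet
    apply hv0
    have h1 : ∀ z : I, h z.1 (∑ i : I, v i • l i.1) = 0 := by
      intro z
      rw [← hlin, hv]
      rfl
    have h2 : (∑ i : I, v i • l i.1) = 0 := by
      apply ev_inj hY
      · intro i hi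
        have hiI := hsupp v i hi
        refine ⟨(mem_IY.1 hiI).1, ?_⟩
        by_contra h3
        have h4 : i.2 = true := by
          cases h5 : i.2
          · exact absurd h5 h3
          · rfl
        apply hi
        have h5 := h1 ⟨i, hiI⟩
        change (if i.2 = true then Finsupp.lapply i else ev i.1) (∑ i : I, v i • l i.1) = 0 at h5
        rw [if_pos h4] at h5
        exact h5
      · intro y hy
        have hyI : (y, false) ∈ I := mem_IY.2 ⟨hy, fun h' => absurd h' (by simp)⟩
        have h5 := h1 ⟨(y, false), hyI⟩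
        change (if false = true then Finsupp.lapply (y, false) else ev y)
          (∑ i : I, v i • l i.1) = 0 at h5
        rw [if_neg (by simp)] at h5
        exact h5
    funext j
    have h3 := hcoef v j
    rw [h2, Finsupp.zero_apply] at h3
    rcases mul_eq_zero.1 h3.symm with h4 | h4
    · exact h4
    · exact absurd h4 (inv_ne_zero (hq0 j.1))
  -- coordinates
  let co : GG → I → ℚ := fun t i => t i.1 * (q i.1 : ℚ) ^ n
  have hco : ∀ t : GG, (∀ i, t i ≠ 0 → i ∈ I) → (∑ i : I, co t i • l i.1) = t := by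
    intro t ht
    ext j
    by_cases hj : j ∈ I
    · rw [hcoef _ ⟨j, hj⟩]
      change t j * (q j : ℚ) ^ n * ((q j : ℚ) ^ n)⁻¹ = t j
      rw [mul_assoc, mul_inv_cancel₀ (hq0 j), mul_one]
    · have h1 : t j = 0 := by
        by_contra h1
        exact hj (ht j h1)
      rw [h1]
      by_contra h2
      exact hj (hsupp _ _ h2)
  let Z : Set I := {z | z.1.2 = false}
  have hrI : (root, false) ∈ I := mem_IY.2 ⟨hY.rt, fun h' => absurd h' (by simp)⟩
  obtain ⟨P, P', hP, hP', hPP, hPP', hpos, hTpos⟩ := exists_gl A hA Z ⟨⟨_, hrI⟩, rfl⟩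
    (T.image co) (by
      intro t' ht' z hz
      rw [Finset.mem_image] at ht'
      obtain ⟨t, ht, rfl⟩ := ht'
      rw [hlin, hco t (hT t ht).supp]
      change 0 < (if z.1.2 = true then Finsupp.lapply z.1 else ev z.1.1) t
      have hz' : z.1.2 = false := hz
      rw [if_neg (by rw [hz']; simp)]
      exact (hT t ht).pos _ (mem_IY.1 z.2).1)
  -- the basis before scaling
  let b0 : I → GG := fun x => ∑ i : I, P x i • l i.1
  have hb0 : ∀ c : I → ℚ, ∑ x : I, c x • b0 x = ∑ i : I, (vecMul c P) i • l i.1 := by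
    intro c
    have h1 : ∀ x : I, c x • b0 x = ∑ i : I, (c x * P x i) • l i.1 := by
      intro x
      change c x • (∑ i : I, P x i • l i.1) = _
      rw [Finset.smul_sum]
      refine Finset.sum_congr rfl fun i _ => ?_
      rw [smul_smul]
    rw [Finset.sum_congr rfl fun x _ => h1 x, Finset.sum_comm]
    refine Finset.sum_congr rfl fun i _ => ?_
    rw [← Finset.sum_smul]
    rfl
  -- the scaling exponent
  have hdyT : ∀ t ∈ T, ∀ x : I, Dyq ((vecMul (co t) P') x) := by
    intro t ht x
    exact Dyq.sum _ fun i _ => ((hT t ht).dy i.1).mul (hP' i x)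
  have hk : ∀ᶠ k : ℕ in Filter.atTop, ∀ t ∈ T, ∀ x : I,
      ∃ c : ℕ, 0 < c ∧ Even c ∧ (vecMul (co t) P') x * 2 ^ k = c := by
    rw [Filter.eventually_all_finset]
    intro t ht
    rw [Filter.eventually_all]
    intro x
    rw [Filter.eventually_atTop]
    exact (hdyT t ht x).pow_mul (hTpos (co t) (Finset.mem_image_of_mem _ ht) x)
  obtain ⟨k, hk⟩ := hk.exists
  have h2k : (2 : ℚ) ^ k ≠ 0 := by positivity
  have h2k' : (0 : ℚ) < ((2 : ℚ) ^ k)⁻¹ := by positivity
  let b : Ge → GG := fun x => if hx : x ∈ I then ((2 : ℚ) ^ k)⁻¹ • b0 ⟨x, hx⟩ else 0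
  have hb : ∀ (x : Ge) (hx : x ∈ I), b x = ((2 : ℚ) ^ k)⁻¹ • b0 ⟨x, hx⟩ := fun x hx => dif_pos hx
  have hbsum : ∀ c : Ge → ℚ, ∑ x ∈ I, c x • b x =
      ((2 : ℚ) ^ k)⁻¹ • ∑ i : I, (vecMul (fun x : I => c x.1) P) i • l i.1 := by
    intro c
    rw [← hb0, Finset.smul_sum, ← Finset.sum_coe_sort I]
    refine Finset.sum_congr rfl fun x _ => ?_
    rw [hb x.1 x.2, smul_comm]
  refine ⟨b, ⟨?_, ?_, ?_, ?_⟩, ?_⟩
  · intro x hx i hi
    rw [hb x hx, Finsupp.smul_apply] at hi
    exact hsupp _ _ fun h' => hi (by rw [h', smul_zero])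
  · intro x hx i
    rw [hb x hx, Finsupp.smul_apply, smul_eq_mul]
    have h1 : Dyq (((2 : ℚ) ^ k)⁻¹) := ⟨k, 1, by rw [inv_mul_cancel₀ h2k, Int.cast_one]⟩
    rw [mul_assoc]
    refine h1.mul ?_
    by_cases hi : i ∈ I
    · have h2 := hcoef (P ⟨x, hx⟩) ⟨i, hi⟩
      change b0 ⟨x, hx⟩ i = _ at h2
      rw [h2, mul_assoc, inv_mul_cancel₀ (hq0 i), mul_one]
      exact hP _ _
    · have h2 : b0 ⟨x, hx⟩ i = 0 := by
        by_contra h2
        exact hi (hsupp _ _ h2)
      rw [h2, zero_mul]
      exact Dyq.zero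
  · intro c hc x hx
    rw [hbsum] at hc
    have h1 : ∑ i : I, (vecMul (fun x : I => c x.1) P) i • l i.1 = 0 := by
      rcases smul_eq_zero.1 hc with h2 | h2
      · exact absurd h2 (inv_ne_zero h2k)
      · exact h2
    have h2 : vecMul (fun x : I => c x.1) P = 0 := by
      funext j
      have h3 := hcoef (vecMul (fun x : I => c x.1) P) j
      rw [h1, Finsupp.zero_apply] at h3
      rcases mul_eq_zero.1 h3.symm with h4 | h4
      · exact h4
      · exact absurd h4 (inv_ne_zero (hq0 j.1))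
    have h3 : (fun x : I => c x.1) = 0 := by
      have h4 := congrArg (fun v => vecMul v P') h2
      simp only [Matrix.vecMul_vecMul, Matrix.zero_vecMul] at h4
      rw [hPP, Matrix.vecMul_one] at h4
      exact h4
    exact congrFun h3 ⟨x, hx⟩
  · intro x hx y hy
    rw [hb x hx, map_smul, smul_eq_mul]
    refine mul_pos h2k' ?_
    have hyI : (y, false) ∈ I := mem_IY.2 ⟨hy, fun h' => absurd h' (by simp)⟩
    have h1 := hpos ⟨x, hx⟩ ⟨(y, false), hyI⟩ rfl
    have h2 : (P * A) ⟨x, hx⟩ ⟨(y, false), hyI⟩ = (vecMul (P ⟨x, hx⟩) A) ⟨(y, false), hyI⟩ := rfl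
    rw [h2, hlin] at h1
    change 0 < (if false = true then Finsupp.lapply (y, false) else ev y)
      (∑ i : I, P ⟨x, hx⟩ i • l i.1) at h1
    rw [if_neg (by simp)] at h1
    exact h1
  · intro t ht
    choose! c hc using hk t ht
    let c' : Ge → ℕ := fun x => if hx : x ∈ I then c ⟨x, hx⟩ else 0
    have hc' : ∀ (x : Ge) (hx : x ∈ I), c' x = c ⟨x, hx⟩ := fun x hx => dif_pos hx
    refine ⟨c', fun x hx => ?_, ?_⟩
    · rw [hc' x hx]
      exact ⟨(hc _).1, (hc _).2.1⟩
    · have h1 : ∑ x ∈ I, c' x • b x = ∑ x ∈ I, (c' x : ℚ) • b x := by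
        refine Finset.sum_congr rfl fun x _ => ?_
        rw [Nat.cast_smul_eq_nsmul]
      rw [h1, hbsum]
      have h2 : (fun x : I => (c' x.1 : ℚ)) = (2 : ℚ) ^ k • (vecMul (co t) P') := by
        funext x
        rw [hc' x.1 x.2, ← (hc x).2.2, Pi.smul_apply, smul_eq_mul, mul_comm]
      rw [h2, Matrix.smul_vecMul, Matrix.vecMul_vecMul, hPP', Matrix.vecMul_one, Finset.smul_sum]
      conv_lhs => rw [← hco t (hT t ht).supp]
      refine Finset.sum_congr rfl fun i _ => ?_
      rw [Pi.smul_apply, smul_smul, smul_eq_mul, ← mul_assoc, inv_mul_cancel₀ h2k, one_mul]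

end Pool.Agent.K7.H47.BE
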