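import Pool.Agent.K7.H47.BE.Fwd
import Pool.Agent.TH723.AF.Unit

/-!
# Maps of the trees give strictly positive homomorphisms
-/

set_option autoImplicit false

namespace Pool.Agent.K7.H47.BE

open Pool.Agent.TH723.AF (V root par dep ty par_root dep_par dep_zero par_iter_root par_iter_dep VS
  nd_mem_VS lab_mem_VS par_mem_VS gV gV_inj gV_surj gV_ty gV_root gV_par gV_root_iff auto_len)
open Pool.Agent.H579R3.Epi (K IsAuto TLe)

section

variable {g : List ℤ → List ℤ} (hg : IsAuto g)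

/-- the action on the generators -/
def gG (g : List ℤ → List ℤ) (i : Ge) : Ge := (gV g i.1, i.2)

include hg

lemma gG_inj : Function.Injective (gG g) := by
  intro i j h
  have h1 := congrArg Prod.fst h
  have h2 := congrArg Prod.snd h
  exact Prod.ext (gV_inj hg h1) h2

lemma gG_q (i : Ge) : q (gG g i) = q i := by
  unfold q gG
  rw [gV_ty hg]

lemma gV_iter (j : ℕ) (y : V) : par^[j] (gV g y) = gV g (par^[j] y) := by
  induction j with
  | zero => rfl
  | succ j ih => rw [Function.iterate_succ_apply', Function.iterate_succ_apply', ih, gV_par hg]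

lemma anc_gV {v y : V} : Anc (gV g v) (gV g y) ↔ Anc v y := by
  constructor
  · rintro ⟨j, hj⟩
    rw [gV_iter hg] at hj
    exact ⟨j, gV_inj hg hj⟩
  · rintro ⟨j, hj⟩
    exact ⟨j, by rw [gV_iter hg, hj]⟩

lemma ind_gV (v y : V) : ind (gV g v) (gV g y) = ind v y := by
  unfold ind
  rw [anc_gV hg]

/-- the point of the first tree below a point of the second tree -/
lemma exists_point {Λ Λ' : List ℤ → Set K} {y' : V} (_hy' : y' ∈ VS Λ') : ∃ y ∈ VS Λ,
    ∀ v ∈ VS Λ, ind (gV g v) y' = ind v y := by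
  rcases y' with p' | ⟨p', κ⟩
  · obtain ⟨p, rfl⟩ := hg.bij.2 p'
    exact ⟨.nd p, nd_mem_VS Λ p, fun v _ => ind_gV hg v (.nd p)⟩
  · obtain ⟨p, rfl⟩ := hg.bij.2 p'
    by_cases hκ : κ ∈ Λ p
    · exact ⟨.lab p κ, hκ, fun v _ => ind_gV hg v (.lab p κ)⟩
    · refine ⟨.nd p, nd_mem_VS Λ p, fun v hv => ?_⟩
      have h1 : ind (gV g v) (.nd (g p)) = ind v (.nd p) := ind_gV hg v (.nd p)
      rw [← h1]
      have h2 : gV g v ≠ .lab (g p) κ := by
        intro h3
        have h4 : v = .lab p κ := gV_inj hg (h3.trans rfl)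
        rw [h4] at hv
        exact hκ hv
      unfold ind
      congr 1
      apply propext
      rw [anc_succ]
      exact ⟨fun h => h.resolve_left h2, Or.inr⟩

/-- the linear map of an automorphism of the tree -/
noncomputable def fG (g : List ℤ → List ℤ) : GG →ₗ[ℚ] GG := Finsupp.lmapDomain ℚ ℚ (gG g)

omit hg in
lemma fG_root (h0 : g [] = []) : fG g (E root) = E root := by
  unfold fG E
  rw [Finsupp.lmapDomain_apply, Finsupp.mapDomain_single]
  congr 1
  change (V.nd (g []), false) = (V.nd [], false)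
  rw [h0]

lemma fG_mem {Λ Λ' : List ℤ → Set K} (hL : ∀ p, Λ p ⊆ Λ' (g p)) {a : GG} (ha : a ∈ GA (VS Λ)) :
    fG g a ∈ GA (VS Λ') := by
  have h1 : ∀ v ∈ VS Λ, gV g v ∈ VS Λ' := by
    rintro (p | ⟨p, κ⟩) hv
    · exact trivial
    · exact hL p hv
  intro j
  by_cases hj : j ∈ Set.range (gG g)
  · obtain ⟨i, rfl⟩ := hj
    have h2 : fG g a (gG g i) = a i := Finsupp.mapDomain_apply (gG_inj hg) a i
    rw [h2, gG_q hg]
    refine ⟨fun hi => ?_, (ha i).2⟩
    obtain ⟨h3, h4⟩ := (ha i).1 hi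
    exact ⟨h1 _ h3, fun h5 h6 => h4 h5 ((gV_root_iff hg _).1 h6)⟩
  · have h2 : fG g a j = 0 := Finsupp.mapDomain_notin_range a j hj
    rw [h2]
    exact ⟨fun h => absurd rfl h, Dy.zero _⟩

lemma fG_pos {Λ Λ' : List ℤ → Set K} {a : GG} (ha : a ∈ GA (VS Λ)) (hpos : SP (VS Λ) a) :
    SP (VS Λ') (fG g a) := by
  intro y' hy'
  obtain ⟨y, hy, h1⟩ := exists_point (Λ := Λ) hg hy'
  have h2 : ev y' (fG g a) = ev y a := by
    unfold fG ev
    rw [Finsupp.lmapDomain_apply, Finsupp.linearCombination_mapDomain,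
      Finsupp.linearCombination_apply, Finsupp.linearCombination_apply]
    refine Finset.sum_congr rfl fun i hi => ?_
    rw [Finsupp.mem_support_iff] at hi
    have h3 := ((ha i).1 hi).1
    change a i • evg (gG g i) y' = a i • evg i y
    congr 1
    unfold evg gG
    dsimp only
    rw [gV_par hg, h1 _ h3, h1 _ (par_mem_VS _)]
  rw [h2]
  exact hpos y hy

end

end Pool.Agent.K7.H47.BE
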