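import Pool.Agent.K7.H47.BE.Apx

/-!
# The universal property of the algebra of a Bratteli diagram
-/

set_option autoImplicit false

open scoped InnerProductSpace

namespace Pool.Agent.K7.H47.BE

open Pool.Agent.TH723.AF (op op_ext vec_ext inner_b norm_b op_apply op_of_some op_of_none inner_op
  inner_op_left op_mul star_op inner_op_symm Pj abs_re_inner_le chi chi_cont)

universe v

variable {V : Type} (D : BD V) {H : Type v} [NormedAddCommGroup H] [InnerProductSpace ℂ H]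
  [CompleteSpace H] (b : HilbertBasis ℕ ℂ H)

/-- the union of the algebras of the stages -/
noncomputable def FU : StarSubalgebra ℂ (H →L[ℂ] H) where
  carrier := ⋃ n, (F D b n : Set (H →L[ℂ] H))
  mul_mem' := by
    intro T T' hT hT'
    obtain ⟨n, hn⟩ := Set.mem_iUnion.1 hT
    obtain ⟨m, hm⟩ := Set.mem_iUnion.1 hT'
    exact Set.mem_iUnion.2 ⟨max n m, mul_mem (F_mono (le_max_left n m) hn)
      (F_mono (le_max_right n m) hm)⟩
  add_mem' := by
    intro T T' hT hT'
    obtain ⟨n, hn⟩ := Set.mem_iUnion.1 hT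
    obtain ⟨m, hm⟩ := Set.mem_iUnion.1 hT'
    exact Set.mem_iUnion.2 ⟨max n m, add_mem (F_mono (le_max_left n m) hn)
      (F_mono (le_max_right n m) hm)⟩
  algebraMap_mem' := fun c => Set.mem_iUnion.2 ⟨0, algebraMap_mem (F D b 0) c⟩
  star_mem' := by
    intro T hT
    obtain ⟨n, hn⟩ := Set.mem_iUnion.1 hT
    exact Set.mem_iUnion.2 ⟨n, star_mem (s := F D b n) hn⟩

/-- the algebra of the diagram as a subalgebra -/
noncomputable def ALs : StarSubalgebra ℂ (H →L[ℂ] H) := (FU D b).topologicalClosure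

lemma coe_ALs : (ALs D b : Set (H →L[ℂ] H)) = AL D b := rfl

variable {D b}

lemma mem_FU {T : H →L[ℂ] H} : T ∈ FU D b ↔ ∃ n, T ∈ F D b n := Set.mem_iUnion

lemma F_le_ALs (n : ℕ) {T : H →L[ℂ] H} (h : T ∈ F D b n) : T ∈ ALs D b :=
  subset_closure (mem_FU.2 ⟨n, h⟩)

lemma mu_mem_ALs (n a c : ℕ) : mu D b n a c ∈ ALs D b := F_le_ALs n (mu_mem n a c)

/-- linear maps which agree on the matrix units agree -/
lemma lin_ext {k : ℕ} {M : Type*} [AddCommGroup M] [Module ℂ M] {L₁ L₂ : (H →L[ℂ] H) →ₗ[ℂ] M}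
    (h : ∀ a ∈ Gf D k, ∀ c ∈ Gf D k, D.vt k c = D.vt k a → L₁ (mu D b k a c) = L₂ (mu D b k a c))
    {T : H →L[ℂ] H} (hT : T ∈ F D b k) : L₁ T = L₂ T := by
  classical
  rw [F_sum hT, map_sum, map_sum]
  refine Finset.sum_congr rfl fun a ha => ?_
  rw [map_sum, map_sum]
  refine Finset.sum_congr rfl fun c hc => ?_
  rw [Finset.mem_filter] at hc
  rw [map_smul, map_smul, h a ha c hc.1 hc.2]

lemma mul_mu_zero {k a c c' d : ℕ} (hc : c ∈ Gf D k) (hc' : c' ∈ Gf D k) (h : c ≠ c') :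
    mu D b k c' d * mu D b k a c = 0 :=
  mu_mul_zero fun h' => h (eq_of_hd_Gf hc hc' h')

lemma corner {k a c : ℕ} (ha : a ∈ Gf D k) (hc : c ∈ Gf D k) (hac : D.vt k c = D.vt k a)
    {T : H →L[ℂ] H} (hT : T ∈ F D b k) :
    mu D b k c c * T * mu D b k a a = ⟪b c, T (b a)⟫_ℂ • mu D b k a c := by
  classical
  apply F_ext
    (mul_mem (mul_mem (mu_mem k c c) hT) (mu_mem k a a))
    (SMulMemClass.smul_mem _ (mu_mem k a c))
  intro w hw u hu
  rw [smul_apply, inner_smul_right, inner_mu ha hc hac.symm hw hu, mul_apply_eq_comp,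
    mul_apply_eq_comp]
  by_cases h1 : w = a
  · subst h1
    have e1 : mu D b k w w (b w) = b w := mu_apply (Hd.refl _ _) (Hd.refl _ _) (Tl.refl _ _)
    rw [e1]
    have e2 : ⟪b u, mu D b k c c (T (b w))⟫_ℂ = ⟪mu D b k c c (b u), T (b w)⟫_ℂ := by
      rw [← ContinuousLinearMap.adjoint_inner_left, ← ContinuousLinearMap.star_eq_adjoint, star_mu]
    rw [e2]
    by_cases h2 : u = c
    · subst h2
      have e3 : mu D b k u u (b u) = b u := mu_apply (Hd.refl _ _) (Hd.refl _ _) (Tl.refl _ _)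
      rw [e3, if_pos ⟨rfl, rfl⟩, mul_one]
    · rw [mu_apply_zero, inner_zero_left, if_neg, mul_zero]
      · exact fun h => h2 h.2
      · exact fun h => h2 (eq_of_hd_Gf hu hc h.1)
  · rw [mu_apply_zero (w := w), map_zero, map_zero, inner_zero_right, if_neg, mul_zero]
    · exact fun h => h1 h.1
    · exact fun h => h1 (eq_of_hd_Gf hw ha h.1)

/-! ### systems of matrix units -/

variable (D)

/-- a system of matrix units with the same relations -/
structure MUS (ν : ℕ → ℕ → ℕ → (H →L[ℂ] H)) : Prop where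
  st : ∀ k, ∀ a ∈ Gf D k, ∀ c ∈ Gf D k, D.vt k c = D.vt k a → star (ν k a c) = ν k c a
  mul : ∀ k, ∀ a ∈ Gf D k, ∀ c ∈ Gf D k, ∀ d ∈ Gf D k, D.vt k c = D.vt k a →
    D.vt k d = D.vt k a → ν k c d * ν k a c = ν k a d
  zero : ∀ k, ∀ a ∈ Gf D k, ∀ c ∈ Gf D k, ∀ c' ∈ Gf D k, ∀ d ∈ Gf D k, D.vt k c = D.vt k a →
    D.vt k d = D.vt k c' → c ≠ c' → ν k c' d * ν k a c = 0
  succ : ∀ k, ∀ a ∈ Gf D k, ∀ c ∈ Gf D k, D.vt k c = D.vt k a →
    ν k a c = ∑ i ∈ Finset.range (D.deg k (D.vt k a)), ν (k + 1) (mk D k a i) (mk D k c i)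
  ne : ∀ k, ∀ a ∈ Gf D k, ν k a a ≠ 0

variable (b)

open Classical in
/-- the linear map which sends the matrix units to the given operators -/
noncomputable def Ps (ν : ℕ → ℕ → ℕ → (H →L[ℂ] H)) (k : ℕ) : (H →L[ℂ] H) →ₗ[ℂ] (H →L[ℂ] H) where
  toFun T := ∑ a ∈ Gf D k, ∑ c ∈ (Gf D k).filter (fun c => D.vt k c = D.vt k a),
    ⟪b c, T (b a)⟫_ℂ • ν k a c
  map_add' := by
    intro T T'
    rw [← Finset.sum_add_distrib]
    refine Finset.sum_congr rfl fun a _ => ?_
    rw [← Finset.sum_add_distrib]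
    refine Finset.sum_congr rfl fun c _ => ?_
    rw [add_apply, inner_add_right, add_smul]
  map_smul' := by
    intro z T
    rw [RingHom.id_apply, Finset.smul_sum]
    refine Finset.sum_congr rfl fun a _ => ?_
    rw [Finset.smul_sum]
    refine Finset.sum_congr rfl fun c _ => ?_
    rw [smul_apply, inner_smul_right, mul_smul]

variable {D b}

variable {ν : ℕ → ℕ → ℕ → (H →L[ℂ] H)}

lemma Ps_mu {k a c : ℕ} (ha : a ∈ Gf D k) (hc : c ∈ Gf D k) (hac : D.vt k c = D.vt k a) :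
    Ps D b ν k (mu D b k a c) = ν k a c := by
  classical
  change ∑ a' ∈ Gf D k, ∑ c' ∈ (Gf D k).filter (fun c => D.vt k c = D.vt k a'),
    ⟪b c', mu D b k a c (b a')⟫_ℂ • ν k a' c' = _
  rw [Finset.sum_eq_single a, Finset.sum_eq_single c]
  · rw [inner_mu ha hc hac.symm ha hc, if_pos ⟨rfl, rfl⟩, one_smul]
  · intro c' hc' hne
    rw [Finset.mem_filter] at hc'
    rw [inner_mu ha hc hac.symm ha hc'.1, if_neg, zero_smul]
    exact fun h => hne h.2
  · intro h
    exact absurd (Finset.mem_filter.2 ⟨hc, hac⟩) h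
  · intro a' ha' hne
    refine Finset.sum_eq_zero fun c' hc' => ?_
    rw [Finset.mem_filter] at hc'
    rw [inner_mu ha hc hac.symm ha' hc'.1, if_neg, zero_smul]
    exact fun h => hne h.1
  · intro h
    exact absurd ha h

section

variable (hν : MUS D ν)

include hν

lemma Ps_mul {k : ℕ} {T T' : H →L[ℂ] H} (hT : T ∈ F D b k) (hT' : T' ∈ F D b k) :
    Ps D b ν k (T * T') = Ps D b ν k T * Ps D b ν k T' := by
  have h1 : ∀ a ∈ Gf D k, ∀ c ∈ Gf D k, D.vt k c = D.vt k a →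
      Ps D b ν k (T * mu D b k a c) = Ps D b ν k T * ν k a c := by
    intro a ha c hc hac
    have h2 := lin_ext (L₁ := (Ps D b ν k).comp (LinearMap.mulRight ℂ (mu D b k a c)))
      (L₂ := (LinearMap.mulRight ℂ (ν k a c)).comp (Ps D b ν k)) (k := k) ?_ hT
    · exact h2
    · intro c' hc' d hd hcd
      change Ps D b ν k (mu D b k c' d * mu D b k a c) = Ps D b ν k (mu D b k c' d) * ν k a c
      rw [Ps_mu hc' hd hcd]
      by_cases hcc : c = c'
      · subst hcc
        rw [mu_mul hcd.symm hac.symm, Ps_mu ha hd (hcd.trans hac),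
          hν.mul k a ha c hc d hd hac (hcd.trans hac)]
      · rw [mul_mu_zero hc hc' hcc, map_zero, hν.zero k a ha c hc c' hc' d hd hac hcd hcc]
  have h2 := lin_ext (L₁ := (Ps D b ν k).comp (LinearMap.mulLeft ℂ T))
      (L₂ := (LinearMap.mulLeft ℂ (Ps D b ν k T)).comp (Ps D b ν k)) (k := k) ?_ hT'
  · exact h2
  · intro a ha c hc hac
    change Ps D b ν k (T * mu D b k a c) = Ps D b ν k T * Ps D b ν k (mu D b k a c)
    rw [h1 a ha c hc hac, Ps_mu ha hc hac]

lemma Ps_star {k : ℕ} {T : H →L[ℂ] H} (hT : T ∈ F D b k) :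
    Ps D b ν k (star T) = star (Ps D b ν k T) := by
  classical
  conv_lhs => rw [F_sum hT]
  rw [star_sum, map_sum]
  change _ = star (∑ a ∈ Gf D k, ∑ c ∈ (Gf D k).filter (fun c => D.vt k c = D.vt k a),
    ⟪b c, T (b a)⟫_ℂ • ν k a c)
  rw [star_sum]
  refine Finset.sum_congr rfl fun a ha => ?_
  rw [star_sum, map_sum, star_sum]
  refine Finset.sum_congr rfl fun c hc => ?_
  rw [Finset.mem_filter] at hc
  rw [star_smul, map_smul, star_smul, star_mu, Ps_mu hc.1 ha hc.2.symm, hν.st k a ha c hc.1 hc.2]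

lemma Ps_succ {k : ℕ} {T : H →L[ℂ] H} (hT : T ∈ F D b k) :
    Ps D b ν (k + 1) T = Ps D b ν k T := by
  apply lin_ext _ hT
  intro a ha c hc hac
  rw [Ps_mu ha hc hac, mu_succ hac.symm, map_sum, hν.succ k a ha c hc hac]
  refine Finset.sum_congr rfl fun i hi => ?_
  rw [Finset.mem_range] at hi
  have hi' : i < D.deg k (D.vt k c) := by rw [hac]; exact hi
  apply Ps_mu (mem_Gf.2 (mk_rm_succ hi)) (mem_Gf.2 (mk_rm_succ hi'))
  rw [mk_vt_succ hi, mk_vt_succ hi', hac]

lemma Ps_mono {k j : ℕ} (h : k ≤ j) {T : H →L[ℂ] H} (hT : T ∈ F D b k) :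
    Ps D b ν j T = Ps D b ν k T := by
  induction j, h using Nat.le_induction with
  | base => rfl
  | succ j hj ih => rw [Ps_succ hν (F_mono hj hT), ih]

lemma Ps_inj {k : ℕ} {T : H →L[ℂ] H} (hT : T ∈ F D b k) (h : Ps D b ν k T = 0) : T = 0 := by
  have h0 : ∀ a ∈ Gf D k, ∀ c ∈ Gf D k, D.vt k c = D.vt k a → ⟪b c, T (b a)⟫_ℂ = 0 := by
    intro a ha c hc hac
    have h1 := congrArg (Ps D b ν k) (corner ha hc hac hT)
    rw [Ps_mul hν (mul_mem (mu_mem k c c) hT) (mu_mem k a a), Ps_mul hν (mu_mem k c c) hT, h,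
      mul_zero, zero_mul, map_smul, Ps_mu ha hc hac] at h1
    rcases smul_eq_zero.1 h1.symm with h2 | h2
    · exact h2
    · exfalso
      have h3 := hν.mul k a ha c hc a ha hac rfl
      rw [h2, mul_zero] at h3
      exact hν.ne k a ha h3.symm
  apply F_ext hT (zero_mem _)
  intro w hw u hu
  rw [zero_apply, inner_zero_right]
  by_cases hv : D.vt k u = D.vt k w
  · exact h0 w hw u hu hv
  · exact mc_zero hT fun h => hv h.1

lemma Ps_norm {k : ℕ} {T : H →L[ℂ] H} (hT : T ∈ F D b k) : ‖Ps D b ν k T‖ = ‖T‖ := by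
  have hcl : IsClosed (F D b k : Set (H →L[ℂ] H)) := F_closed k
  letI : NonUnitalCStarAlgebra (F D b k) :=
    NonUnitalStarSubalgebra.nonUnitalCStarAlgebra (F D b k) (h_closed := hcl)
  let φ : F D b k →⋆ₙₐ[ℂ] (H →L[ℂ] H) :=
    { toFun := fun T => Ps D b ν k T.1
      map_smul' := fun c T => map_smul (Ps D b ν k) c T.1
      map_zero' := map_zero _
      map_add' := fun T T' => map_add (Ps D b ν k) T.1 T'.1
      map_mul' := fun T T' => Ps_mul hν T.2 T'.2
      map_star' := fun T => Ps_star hν T.2 }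
  have hφ : Function.Injective φ := by
    intro T T' h
    apply Subtype.ext
    have h1 : Ps D b ν k (T.1 - T'.1) = 0 := by
      rw [map_sub, sub_eq_zero]
      exact h
    exact sub_eq_zero.1 (Ps_inj hν (sub_mem T.2 T'.2) h1)
  exact NonUnitalStarAlgHom.norm_map φ hφ ⟨T, hT⟩

end

variable (D b ν) in
/-- the map on the union -/
noncomputable def PsU (hν : MUS D ν) : FU D b →ₗ[ℂ] (H →L[ℂ] H) where
  toFun T := Ps D b ν (mem_FU.1 T.2).choose T.1
  map_add' := by
    intro T T'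
    have e1 := (mem_FU.1 T.2).choose_spec
    have e2 := (mem_FU.1 T'.2).choose_spec
    have e3 := (mem_FU.1 (T + T').2).choose_spec
    set k1 := (mem_FU.1 T.2).choose
    set k2 := (mem_FU.1 T'.2).choose
    set k3 := (mem_FU.1 (T + T').2).choose
    rw [← Ps_mono hν (le_max_left k1 (max k2 k3)) e1,
      ← Ps_mono hν (show k2 ≤ max k1 (max k2 k3) by omega) e2,
      ← Ps_mono hν (show k3 ≤ max k1 (max k2 k3) by omega) e3, ← map_add]
    rfl
  map_smul' := by
    intro c T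
    have e1 := (mem_FU.1 T.2).choose_spec
    have e3 := (mem_FU.1 (c • T).2).choose_spec
    set k1 := (mem_FU.1 T.2).choose
    set k3 := (mem_FU.1 (c • T).2).choose
    rw [← Ps_mono hν (le_max_left k1 k3) e1, ← Ps_mono hν (le_max_right k1 k3) e3,
      RingHom.id_apply, ← map_smul]
    rfl

section

variable (hν : MUS D ν)

lemma PsU_eq {k : ℕ} {T : H →L[ℂ] H} (hT : T ∈ F D b k) :
    PsU D b ν hν ⟨T, mem_FU.2 ⟨k, hT⟩⟩ = Ps D b ν k T := by
  have h0 : T ∈ FU D b := mem_FU.2 ⟨k, hT⟩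
  have e1 := (mem_FU.1 h0).choose_spec
  change Ps D b ν (mem_FU.1 h0).choose T = _
  set k1 := (mem_FU.1 h0).choose
  rw [← Ps_mono hν (le_max_left k1 k) e1, ← Ps_mono hν (le_max_right k1 k) hT]

include hν in
/-- the universal property -/
theorem exists_hom {B : Set (H →L[ℂ] H)} (hB : IsClosed B) (hadd : ∀ x ∈ B, ∀ y ∈ B, x + y ∈ B)
    (hsmul : ∀ (c : ℂ), ∀ x ∈ B, c • x ∈ B) (h0 : (0 : H →L[ℂ] H) ∈ B)
    (hmem : ∀ k, ∀ a ∈ Gf D k, ∀ c ∈ Gf D k, D.vt k c = D.vt k a → ν k a c ∈ B) :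
    ∃ φ : ALs D b →⋆ₙₐ[ℂ] (H →L[ℂ] H), Function.Injective φ ∧ (∀ x, φ x ∈ B) ∧
      ∀ k, ∀ a ∈ Gf D k, ∀ c ∈ Gf D k, D.vt k c = D.vt k a →
        φ ⟨mu D b k a c, mu_mem_ALs k a c⟩ = ν k a c := by
  classical
  let e : FU D b →ₗ[ℂ] ALs D b :=
    { toFun := fun x => ⟨x.1, subset_closure x.2⟩
      map_add' := fun _ _ => rfl
      map_smul' := fun _ _ => rfl }
  have hd : DenseRange e := by
    intro x
    rw [Metric.mem_closure_iff]
    intro ε hε
    have hx : (x : H →L[ℂ] H) ∈ closure (FU D b : Set (H →L[ℂ] H)) := x.2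
    obtain ⟨y, hy, hxy⟩ := Metric.mem_closure_iff.1 hx ε hε
    exact ⟨e ⟨y, hy⟩, ⟨⟨y, hy⟩, rfl⟩, hxy⟩
  have hnorm : ∀ x : FU D b, ‖PsU D b ν hν x‖ = ‖e x‖ := by
    intro x
    obtain ⟨k, hk⟩ := mem_FU.1 x.2
    have h1 := PsU_eq hν hk
    change PsU D b ν hν x = _ at h1
    rw [h1, Ps_norm hν hk]
    rfl
  have hn1 : ∃ C, ∀ x, ‖PsU D b ν hν x‖ ≤ C * ‖e x‖ := ⟨1, fun x => by rw [hnorm, one_mul]⟩
  let g := (PsU D b ν hν).extendOfNorm e
  have hg : ∀ x, g (e x) = PsU D b ν hν x := LinearMap.extendOfNorm_eq hd hn1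
  have hgc : Continuous g := g.continuous
  have hgn : ∀ x, ‖g x‖ = ‖x‖ := by
    intro x
    refine hd.induction_on x (isClosed_eq (continuous_norm.comp hgc) continuous_norm) fun y => ?_
    rw [hg, hnorm]
  have hmul : ∀ x y, g (x * y) = g x * g y := by
    intro x y
    refine hd.induction_on₂ (isClosed_eq (hgc.comp continuous_mul)
      ((hgc.comp continuous_fst).mul (hgc.comp continuous_snd))) (fun x y => ?_) x y
    obtain ⟨k, hk⟩ := mem_FU.1 x.2
    obtain ⟨l, hl⟩ := mem_FU.1 y.2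
    have hk' := F_mono (le_max_left k l) hk
    have hl' := F_mono (le_max_right k l) hl
    have e1 := PsU_eq hν hk'
    have e2 := PsU_eq hν hl'
    have e3 := PsU_eq hν (mul_mem hk' hl')
    change PsU D b ν hν x = _ at e1
    change PsU D b ν hν y = _ at e2
    change PsU D b ν hν (x * y) = _ at e3
    change g (e (x * y)) = _
    rw [hg, hg, hg, e1, e2, e3, Ps_mul hν hk' hl']
  have hstar : ∀ x, g (star x) = star (g x) := by
    intro x
    refine hd.induction_on x (isClosed_eq (hgc.comp continuous_star)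
      (continuous_star.comp hgc)) fun x => ?_
    obtain ⟨k, hk⟩ := mem_FU.1 x.2
    have e1 := PsU_eq hν hk
    have e3 := PsU_eq hν (star_mem hk)
    change PsU D b ν hν x = _ at e1
    change PsU D b ν hν (star x) = _ at e3
    change g (e (star x)) = _
    rw [hg, hg, e1, e3, Ps_star hν hk]
  have hgB : ∀ x, g x ∈ B := by
    intro x
    refine hd.induction_on x (hB.preimage hgc) fun x => ?_
    obtain ⟨k, hk⟩ := mem_FU.1 x.2
    have e1 := PsU_eq hν hk
    change PsU D b ν hν x = _ at e1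
    rw [hg, e1]
    have hsum : ∀ (s : Finset ℕ) (f : ℕ → (H →L[ℂ] H)), (∀ i ∈ s, f i ∈ B) → ∑ i ∈ s, f i ∈ B := by
      intro s f
      induction s using Finset.induction_on with
      | empty => intro _; rw [Finset.sum_empty]; exact h0
      | insert i s hi ih =>
        intro h
        rw [Finset.sum_insert hi]
        exact hadd _ (h i (Finset.mem_insert_self i s)) _
          (ih fun j hj => h j (Finset.mem_insert_of_mem hj))
    change (∑ a ∈ Gf D k, ∑ c ∈ (Gf D k).filter (fun c => D.vt k c = D.vt k a),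
      ⟪b c, x.1 (b a)⟫_ℂ • ν k a c) ∈ B
    refine hsum _ _ fun a ha => hsum _ _ fun c hc => hsmul _ _ ?_
    rw [Finset.mem_filter] at hc
    exact hmem k a ha c hc.1 hc.2
  refine ⟨{ toFun := g, map_smul' := fun c x => map_smul g c x, map_zero' := map_zero g,
            map_add' := fun x y => map_add g x y, map_mul' := hmul, map_star' := hstar }, ?_, hgB,
            ?_⟩
  · intro x y hxy
    have h1 : g x = g y := hxy
    have h2 : ‖x - y‖ = 0 := by
      rw [← hgn, map_sub, h1, sub_self, norm_zero]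
    exact sub_eq_zero.1 (norm_eq_zero.1 h2)
  · intro k a ha c hc hac
    have h1 : mu D b k a c ∈ FU D b := mem_FU.2 ⟨k, mu_mem k a c⟩
    have h2 := hg ⟨mu D b k a c, h1⟩
    rw [PsU_eq hν (mu_mem k a c), Ps_mu ha hc hac] at h2
    exact h2

end

end Pool.Agent.K7.H47.BE
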